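import Pool.Agent.H76.SD.Sq
import Pool.Agent.H30.OD.Nb2
import Pool.Agent.H26.OD.Qd
import Pool.Agent.H88.OD.Fa
import Pool.Agent.H73.P2.Os

/-!
(project MP_78d38b_OD) The self-duality of the relaxed two-Selmer group, in the form needed for the
system of functionals.
-/

set_option autoImplicit false
set_option linter.unusedSectionVars false
open scoped Classical

open WithZero NumberField IsDedekindDomain H38RT
open H38T1 (SC sc scu rep eo la si OddP)
open H76PP (Cub LC ev scm dn)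
open H88OD H30ZO H30OD

namespace H76SD

variable {K F L : Type} [Field K] [NumberField K] [Field F] [NumberField F] [Field L]
  [NumberField L] [Algebra K F] [Algebra F L] {a b : K} {θ : L}

/-- The setting for a twist. -/
theorem exists_tw (S : Ext K F L a b θ) {D : K} (hD : D ≠ 0) :
    ∃ (E : K) (S' : Ext K F L (E ^ 2 * a) (E ^ 3 * b) (algebraMap F L (algebraMap K F E) * θ)),
      E ≠ 0 ∧ (∃ t : K, t ≠ 0 ∧ E = D * t ^ 2) ∧ S'.ρ = S.ρ := by
  obtain ⟨x, y, hy, hxy⟩ := IsFractionRing.div_surjective (A := 𝓞 K) D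
  have hy0 : algebraMap (𝓞 K) K y ≠ 0 := by
    intro h
    exact nonZeroDivisors.ne_zero hy
      ((FaithfulSMul.algebraMap_injective (𝓞 K) K) (by rw [h, map_zero]))
  obtain ⟨E, hE⟩ : ∃ E, E = D * (algebraMap (𝓞 K) K y) ^ 2 := ⟨_, rfl⟩
  have hE0 : E ≠ 0 := by
    rw [hE]
    exact mul_ne_zero hD (pow_ne_zero 2 hy0)
  have hint : ∀ v : HeightOneSpectrum (𝓞 K), v.valuation K E ≤ 1 := by
    intro v
    have e : E = algebraMap (𝓞 K) K (x * y) := by
      rw [hE, ← hxy, map_mul]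
      field_simp
    rw [e]
    exact v.valuation_le_one _
  refine ⟨E, ⟨S.cubD hE0, S.gal, S.odd, fun v => ?_, fun v => ?_, H76OD.Lt_dne hE0 S.dne, ?_,
    S.ρ, S.ρF, fun g => ?_⟩, hE0, ⟨_, hy0, hE⟩, rfl⟩
  · rw [map_mul, map_pow]
    exact mul_le_one₀ (pow_le_one₀ zero_le (hint v)) zero_le (S.ha v)
  · rw [map_mul, map_pow]
    exact mul_le_one₀ (pow_le_one₀ zero_le (hint v)) zero_le (S.hb v)
  · rintro ⟨r, hr⟩
    apply S.dsq
    refine ⟨r / E ^ 3, ?_⟩
    have h1 : r / E ^ 3 * (r / E ^ 3) = r * r / E ^ 6 := by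
      field_simp
    rw [h1, ← hr]
    field_simp
  · rw [map_mul, S.ρF, S.ρθ, AlgEquiv.commutes]

variable {S : Ext K F L a b θ} {Sg : Finset (HeightOneSpectrum (𝓞 K))}

/-- **Self-duality** of the relaxed two-Selmer group. -/
theorem sd_T {D : K} (hok : S.Ok D Sg) {T : Finset (HeightOneSpectrum (𝓞 K))}
    (hT : ∀ q ∈ T, ∃ P : Sp S Sg, P.q = q) {W : AddSubgroup (SC L)}
    (hW : ∀ c, c ∈ W ↔ S.Y D Sg T c)
    (hc : Nat.card W = 2 ^ (Nat.card (F ≃ₐ[K] F) * T.card)) (M : Type) [AddCommGroup M]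
    [DistribMulAction (F ≃ₐ[K] F) M] [Finite M] (h2 : ∀ m : M, m + m = 0) :
    @H24TD.hq (F ≃ₐ[K] F) M (SC L) _ _ (H26OD.actSC S) _ _ W ⊥ =
      @H24TD.hq (F ≃ₐ[K] F) (H26OD.Du M) (SC L) _ _ (H26OD.actSC S) _ _ W ⊥ := by
  let _ : DistribMulAction (F ≃ₐ[K] F) (SC L) := H26OD.actSC S
  obtain ⟨E, S', hE0, ⟨t, ht, hEt⟩, hρ⟩ := exists_tw S hok.ne
  obtain ⟨Tf, hTf⟩ : ∃ A : Finset (HeightOneSpectrum (𝓞 F)), A = (fin_ab (F := F) T).toFinset :=
    ⟨_, rfl⟩
  have m2 : ∀ v, v ∈ Tf ↔ dn K v ∈ T := fun v => by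
    rw [hTf, Set.Finite.mem_toFinset]
    rfl
  have hcard : Tf.card = Nat.card (F ≃ₐ[K] F) * T.card := by
    rw [← ncard_sp T hT, hTf, Set.ncard_eq_toFinset_card _ (fin_ab T)]
  have hsq : ∀ (R : Type) [Field R] (i : F →+* R),
      IsSquare (i (algebraMap K F E / algebraMap K F D)) := by
    intro R _ i
    refine ⟨i (algebraMap K F t), ?_⟩
    rw [← map_mul, ← map_mul, ← map_div₀, hEt]
    congr 2
    have := hok.ne
    field_simp
  have hDF : algebraMap K F D ≠ 0 := (map_ne_zero _).2 hok.ne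
  have hEF : algebraMap K F E ≠ 0 := (map_ne_zero _).2 hE0
  have hLv : ∀ (v : HeightOneSpectrum (𝓞 F)) (c : SC L), S.Lv E v c ↔ S.Lv D v c := by
    intro v c
    rw [Lv_iff, Lv_iff]
    exact (H76OD.Wc_tw_iff _ hDF hEF (hsq _ _)).symm
  have hLr : ∀ (s : F →+* ℝ) (c : SC L), S.Lr E s c ↔ S.Lr D s c := by
    intro s c
    rw [Lr_iff, Lr_iff]
    exact (H76OD.Wc_tw_iff _ hDF hEF (hsq _ _)).symm
  refine sd_Y H73P2.ordSub S' (fun g c => ?_) Tf (fun g v hv => ?_) (fun v hv => ?_) ?_ ?_ M h2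
  · rw [hρ]
    rfl
  · rw [m2] at hv ⊢
    rwa [dn_gq]
  · rw [m2] at hv
    obtain ⟨P, hP⟩ := hT _ hv
    refine ⟨nb_sp P hP.symm, ?_⟩
    have h3 : v.valuation F (algebraMap K F 2) = 1 := by
      refine H76PP.val_one (hok.two _ ?_)
      rw [← hP]
      exact P.out
    rwa [map_ofNat] at h3
  · intro c
    rw [hW]
    have key : (∀ v : HeightOneSpectrum (𝓞 F), v ∉ Tf → S.Lv E v c) ∧ (∀ s : F →+* ℝ, S.Lr E s c) ∧
        c ∈ HH F L ↔ S.Y D Sg T c := by
      constructor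
      · rintro ⟨h1, h3, h4⟩
        refine ⟨h4, fun v hv => (hLv v c).1 (h1 v fun h => ?_), fun s => (hLr s c).1 (h3 s),
          fun w hw1 hw2 => ?_⟩
        · rw [m2] at h
          obtain ⟨P, hP⟩ := hT _ h
          rw [← hP] at hv
          exact P.out hv
        · have h5 := (hLv (dn F w) c).1 (h1 (dn F w) fun h => hw2 ((m2 _).1 h))
          rw [Lv_iff] at h5
          exact (H76OD.Wc_good S.cub (dn F w) (haF S _) (hbF S _) (by
            have h6 : (dn F w).valuation F (algebraMap K F 2) = 1 := H76PP.val_one (hok.two _ hw1)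
            rwa [map_ofNat] at h6) (by
            have h6 : (dn F w).valuation F (algebraMap K F (4 * a ^ 3 + 27 * b ^ 2)) = 1 :=
              H76PP.val_one (hok.dis _ hw1)
            simpa only [map_add, map_mul, map_pow, map_ofNat] using h6)
            (H76PP.val_one (hok.val _ hw1)) h4).1 h5 w rfl
      · intro h
        refine ⟨fun v hv => (hLv v c).2 ?_, fun s => (hLr s c).2 (h.inf s), h.hh⟩
        by_cases hv1 : dn K v ∈ Sg
        · exact h.fin v hv1
        · rw [Lv_iff]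
          exact (H76OD.Wc_good S.cub v (haF S _) (hbF S _) (by
            have h6 : v.valuation F (algebraMap K F 2) = 1 := H76PP.val_one (hok.two _ hv1)
            rwa [map_ofNat] at h6) (by
            have h6 : v.valuation F (algebraMap K F (4 * a ^ 3 + 27 * b ^ 2)) = 1 :=
              H76PP.val_one (hok.dis _ hv1)
            simpa only [map_add, map_mul, map_pow, map_ofNat] using h6)
            (H76PP.val_one (hok.val _ hv1)) h.hh).2 fun w hw => h.ev w (by rw [hw]; exact hv1)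
              (by rw [hw]; exact fun h7 => hv ((m2 _).2 h7))
    rw [← key]
    exact ⟨fun h => ⟨h.2.2, h.1, h.2.1⟩, fun h => ⟨h.2.1, h.2.2, h.1⟩⟩
  · rw [hc, hcard]

end H76SD
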