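import Pool.Agent.H76.SD.Df
import Pool.Agent.H24.TD.Vp

/-!
ROW Sa (project MP_78d38b_OD). About 100 lines: Hilbert symbols and square classes under automorphisms.
PROOF. There is a ring homomorphism `ψ : w.adicCompletion N →+* (g • w).adicCompletion N` with `ψ (x) = g x` for `x : N`: the proof of `H88OD.Ga_psi` (Pool/Agent/H88/OD/Ga.lean, lemmas Ga_nhds, Ga_psi) works verbatim for `g : N ≃ₐ[ℚ] N` (`H24TD.val_smul` : `(g • w).valuation N (g x) = w.valuation N x`). A solution of the conic `x X^2 + y Y^2 = 1` is mapped by `ψ` to a solution for `g x`, `g y`. The converse: apply this to `g⁻¹`, `g • w`, `g x`, `g y` (`inv_smul_smul`; rewrite with a general statement `w' = g • w` and `subst` if the dependent type is a problem). `hs` is 0 or 1 according to `Sol` (`H36MX.hs_eq_zero`). Squares in the same way: `c = sc x`, `g • sc x = sc (g x)` (definition of the action in Pool/Agent/H38/T1/Df.lean; see how Ga.lean does it), `H30ZO.mem_Sq`.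
-/

set_option autoImplicit false
set_option linter.unusedSectionVars false
open scoped Classical

open WithZero NumberField IsDedekindDomain H38RT H76PP H30ZO H73P2 H30OD H36CY H24TD H88OD Pool.Agent.H10
open H38T1 (SC sc scu rep eo la si OddP)

namespace H76SD

lemma Sa_nhds {N : Type} [Field N] [NumberField N] (g : N ≃ₐ[ℚ] N)
    (v : HeightOneSpectrum (𝓞 N)) :
    ∀ U ∈ nhds (0 : (g • v).adicCompletion N), ∃ k : ℕ, ∀ x : N,
      v.valuation N x ≤ exp (-(k : ℤ)) →
        ((algebraMap N ((g • v).adicCompletion N)).comp ((g : N ≃ₐ[ℚ] N) : N →+* N)) x ∈ U := by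
  intro U hU
  rw [Valued.mem_nhds_zero] at hU
  obtain ⟨γ, hγ⟩ := hU
  obtain ⟨n, hn⟩ := exists_exp_neg_natCast_lt
    (x := MonoidWithZeroHom.ValueGroup₀.embedding γ.1) (by simp)
  refine ⟨n, fun x hx => hγ ?_⟩
  change Valued.v.restrict _ < γ.1
  rw [Valuation.restrict_lt_iff_lt_embedding]
  refine lt_of_le_of_lt ?_ hn
  have h2 := (g • v).valuedAdicCompletion_eq_valuation' (K := N) (g x)
  change Valued.v (algebraMap N ((g • v).adicCompletion N) (g x)) = _ at h2
  change Valued.v (algebraMap N ((g • v).adicCompletion N) (g x)) ≤ _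
  rw [h2, H24TD.val_smul g v x]
  exact hx

lemma Sa_psi {N : Type} [Field N] [NumberField N] (g : N ≃ₐ[ℚ] N)
    (v : HeightOneSpectrum (𝓞 N)) :
    ∃ ψ : v.adicCompletion N →+* (g • v).adicCompletion N,
      ∀ x : N, ψ (algebraMap N (v.adicCompletion N) x) =
        algebraMap N ((g • v).adicCompletion N) (g x) :=
  ⟨Pool.Agent.H10.adicLift v _ (Pool.Agent.H10.continuous_fromVal v _ (Sa_nhds g v)),
    fun x => Pool.Agent.H10.adicLift_algebraMap v _ _ x⟩

lemma Sa_sol {N : Type} [Field N] [NumberField N] (g : N ≃ₐ[ℚ] N)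
    (w : HeightOneSpectrum (𝓞 N)) (x y : N)
    (h : H36MX.Sol (algebraMap N (w.adicCompletion N) x) (algebraMap N (w.adicCompletion N) y)) :
    H36MX.Sol (algebraMap N ((g • w).adicCompletion N) (g x))
      (algebraMap N ((g • w).adicCompletion N) (g y)) := by
  obtain ⟨ψ, hψ⟩ := Sa_psi g w
  obtain ⟨a, b, hab⟩ := h
  refine ⟨ψ a, ψ b, ?_⟩
  rw [← hψ, ← hψ, ← map_pow, ← map_pow, ← map_mul, ← map_mul, ← map_add, hab, map_one]

lemma Sa_inv {N : Type} [Field N] [NumberField N] (g : N ≃ₐ[ℚ] N) (x : N) : g⁻¹ (g x) = x :=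
  g.symm_apply_apply x

theorem hsv_smul {N : Type} [Field N] [NumberField N] (g : N ≃ₐ[ℚ] N)
    (w : HeightOneSpectrum (𝓞 N)) (x y : N) :
    H36MX.hsv (g • w) (g x) (g y) = H36MX.hsv w x y := by
  have key : H36MX.Sol (algebraMap N ((g • w).adicCompletion N) (g x))
      (algebraMap N ((g • w).adicCompletion N) (g y)) ↔
      H36MX.Sol (algebraMap N (w.adicCompletion N) x) (algebraMap N (w.adicCompletion N) y) := by
    refine ⟨fun h => ?_, Sa_sol g w x y⟩
    have h1 := Sa_sol g⁻¹ (g • w) (g x) (g y) h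
    rwa [inv_smul_smul, Sa_inv, Sa_inv] at h1
  unfold H36MX.hsv H36MX.hs
  simp only [key]

lemma Sa_Sq {N : Type} [Field N] [NumberField N] (g : N ≃ₐ[ℚ] N)
    (w : HeightOneSpectrum (𝓞 N)) {x : N} (hx : x ≠ 0) (h : sc x ∈ Sq w) :
    sc (g x) ∈ Sq (g • w) := by
  have hgx : g x ≠ 0 := H38T1.Eb_ne g hx
  obtain ⟨ψ, hψ⟩ := Sa_psi g w
  rw [H30ZO.mem_Sq hx] at h
  rw [H30ZO.mem_Sq hgx, ← hψ]
  exact h.map ψ

theorem Sq_smul {N : Type} [Field N] [NumberField N] (g : N ≃ₐ[ℚ] N)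
    (w : HeightOneSpectrum (𝓞 N)) (c : SC N) : g • c ∈ Sq (g • w) ↔ c ∈ Sq w := by
  have key : ∀ (g : N ≃ₐ[ℚ] N) (w : HeightOneSpectrum (𝓞 N)) (c : SC N), c ∈ Sq w →
      g • c ∈ Sq (g • w) := by
    intro g w c h
    obtain ⟨x, hx, rfl⟩ := H38T1.sc_surj c
    rw [H38T1.smul_sc g hx]
    exact Sa_Sq g w hx h
  refine ⟨fun h => ?_, key g w c⟩
  have h1 := key g⁻¹ (g • w) (g • c) h
  rwa [inv_smul_smul, inv_smul_smul] at h1

end H76SD
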