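import Pool.Agent.H26.OD.Sg
import Pool.Agent.H24.TD.Idx
import Pool.Agent.H24.TD.Pm
import Pool.Agent.H24.TD.Dg
import Pool.Agent.H30.OD.Od2
import Pool.Agent.H88.OD.Ga
import Pool.Agent.H36.MX.Hh
import Pool.Agent.H76.OD.Lt

/-!
Definitions for the self-duality (SD) in the project MP_78d38b_OD (no row, proved).

`Sd G A B`: `h(M) = h(M*)` for the number `h(M) = hq G M A B` of equivariant homomorphisms `M → A / B`.
`Mult G F`: `F` is a positive multiplicative function of the `G`-modules.
The decomposition group `Dec K v` acts on the completion of `F` at `v` and on the points of the curve.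
-/

set_option autoImplicit false
set_option linter.unusedSectionVars false
open scoped Classical

open WithZero NumberField IsDedekindDomain H38RT H76PP H30ZO H73P2 H30OD H36CY Pool.Agent.H10
open H38T1 (SC sc scu rep eo la si OddP)

namespace H76SD

/-- The numbers of homomorphisms from `M` and from its dual are the same. -/
def Sd (G : Type) {X : Type} [Group G] [AddCommGroup X] [DistribMulAction G X]
    (A B : AddSubgroup X) : Prop :=
  ∀ (M : Type) [AddCommGroup M] [DistribMulAction G M] [Finite M], (∀ m : M, m + m = 0) →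
    H24TD.hq G M A B = H24TD.hq G (H26OD.Du M) A B

/-- A positive multiplicative function of the modules. -/
structure Mult (G : Type) [Group G]
    (F : ∀ (M : Type) [AddCommGroup M] [DistribMulAction G M], ℕ) : Prop where
  pos : ∀ (M : Type) [AddCommGroup M] [DistribMulAction G M] [Finite M], 0 < F M
  iso : ∀ (M M' : Type) [AddCommGroup M] [DistribMulAction G M] [AddCommGroup M']
    [DistribMulAction G M'] (e : M ≃+ M'), (∀ (g : G) (m : M), e (g • m) = g • e m) → F M = F M'
  prod : ∀ (M M' : Type) [AddCommGroup M] [DistribMulAction G M] [AddCommGroup M']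
    [DistribMulAction G M'], F (M × M') = F M * F M'

section Comp

variable {K F : Type} [Field K] [NumberField K] [Field F] [NumberField F] [Algebra K F]
  (v : HeightOneSpectrum (𝓞 F))

/-- The integers of the completion. -/
noncomputable def OO {F : Type} [Field F] [NumberField F] (v : HeightOneSpectrum (𝓞 F)) :
    AddSubgroup (v.adicCompletion F) where
  carrier := {x | Valued.v x ≤ 1}
  zero_mem' := by
    change Valued.v (0 : v.adicCompletion F) ≤ _
    rw [map_zero]
    exact zero_le
  add_mem' := fun {x y} hx hy => (Valued.v.map_add x y).trans (max_le hx hy)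
  neg_mem' := fun {x} hx => by
    change Valued.v (-x) ≤ _
    rw [Valuation.map_neg]
    exact hx

lemma mem_OO {F : Type} [Field F] [NumberField F] {v : HeightOneSpectrum (𝓞 F)}
    {x : v.adicCompletion F} : x ∈ OO v ↔ Valued.v x ≤ 1 := Iff.rfl

/-- The elements of order at least `m`. -/
noncomputable def PP {F : Type} [Field F] [NumberField F] (v : HeightOneSpectrum (𝓞 F)) (m : ℕ) :
    AddSubgroup (v.adicCompletion F) where
  carrier := {x | Valued.v x ≤ exp (-(m : ℤ))}
  zero_mem' := by
    change Valued.v (0 : v.adicCompletion F) ≤ _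
    rw [map_zero]
    exact zero_le
  add_mem' := fun {x y} hx hy => (Valued.v.map_add x y).trans (max_le hx hy)
  neg_mem' := fun {x} hx => by
    change Valued.v (-x) ≤ _
    rw [Valuation.map_neg]
    exact hx

lemma mem_PP {F : Type} [Field F] [NumberField F] {v : HeightOneSpectrum (𝓞 F)} {m : ℕ}
    {x : v.adicCompletion F} : x ∈ PP v m ↔ Valued.v x ≤ exp (-(m : ℤ)) := Iff.rfl

/-- The integers of `F`. -/
noncomputable def OF (F : Type) [Field F] [NumberField F] : AddSubgroup F where
  carrier := {x | IsIntegral ℤ x}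
  zero_mem' := isIntegral_zero
  add_mem' := fun hx hy => hx.add hy
  neg_mem' := fun hx => hx.neg

lemma mem_OF {F : Type} [Field F] [NumberField F] {x : F} : x ∈ OF F ↔ IsIntegral ℤ x := Iff.rfl

lemma act_one (x : v.adicCompletion F) : act v (1 : Dec K v) x = x := by
  have h1 := act_ext v (f := fun x => act v (1 : Dec K v) x) (f' := fun x => x)
    (act_cont K v _) continuous_id (fun y => by

      rw [act_coe]
      rfl)
  exact congrFun h1 x

/-- The decomposition group acts on the completion. -/
noncomputable instance compAct : DistribMulAction (Dec K v) (v.adicCompletion F) where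
  smul g x := act v g x
  one_smul x := act_one v x
  mul_smul g h x := act_mul K v g h x
  smul_zero g := map_zero (act v g)
  smul_add g x y := map_add (act v g) x y

lemma comp_smul (g : Dec K v) (x : v.adicCompletion F) : g • x = act v g x := rfl

variable (a b : K)

lemma act_c (g : Dec K v) :
    (⟨0, 0, 0, algebraMap F (v.adicCompletion F) (algebraMap K F a),
      algebraMap F (v.adicCompletion F) (algebraMap K F b)⟩ :
        WeierstrassCurve (v.adicCompletion F)).map (act v g) =
      ⟨0, 0, 0, algebraMap F (v.adicCompletion F) (algebraMap K F a),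
        algebraMap F (v.adicCompletion F) (algebraMap K F b)⟩ :=
  map_c (act v g) (by rw [act_coe, AlgEquiv.commutes]) (by rw [act_coe, AlgEquiv.commutes])

/-- The points of `y^2 = x^3 + a x + b` (with `a`, `b` in `K`) over the completion of `F`. -/
abbrev PtK (a b : K) : Type := Pt v (algebraMap K F a) (algebraMap K F b)

/-- The decomposition group acts on the points. -/
noncomputable instance ptAct : DistribMulAction (Dec K v) (PtK v a b) where
  smul g P := Pool.Agent.H10.pm (act v g) (act_c v a b g) P
  one_smul P := by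
    exact pm_eq_self (act_c v a b 1) (act_one v) P
  mul_smul g h P := by
    change pm (act v (g * h)) (act_c v a b (g * h)) P =
      pm (act v g) (act_c v a b g) (pm (act v h) (act_c v a b h) P)
    rw [pm_pm]
    exact (pm_congr _ _ (fun x => by
      rw [act_mul]
      rfl) P)
  smul_zero g := map_zero (pm (act v g) (act_c v a b g))
  smul_add g P Q := map_add (pm (act v g) (act_c v a b g)) P Q

lemma pt_smul (g : Dec K v) (P : PtK v a b) : g • P = pm (act v g) (act_c v a b g) P := rfl

end Comp

section Ext

variable {K F L : Type} [Field K] [NumberField K] [Field F] [NumberField F] [Field L]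
  [NumberField L] [Algebra K F] [Algebra F L] {a b : K} {θ : L}

theorem int_up {x : K} (hx : ∀ v : HeightOneSpectrum (𝓞 K), v.valuation K x ≤ 1)
    (v : HeightOneSpectrum (𝓞 F)) : v.valuation F (algebraMap K F x) ≤ 1 := by
  obtain ⟨X, rfl⟩ := H76OD.Lt_int hx
  have h : algebraMap K F (X : K) = algebraMap (𝓞 F) F (algebraMap (𝓞 K) (𝓞 F) X) :=
    (IsScalarTower.algebraMap_apply (𝓞 K) (𝓞 F) F X).symm ▸
      (IsScalarTower.algebraMap_apply (𝓞 K) K F X).symm
  rw [h]
  exact v.valuation_le_one _

theorem haF (S : H88OD.Ext K F L a b θ) (v : HeightOneSpectrum (𝓞 F)) :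
    v.valuation F (algebraMap K F a) ≤ 1 := int_up S.ha v

theorem hbF (S : H88OD.Ext K F L a b θ) (v : HeightOneSpectrum (𝓞 F)) :
    v.valuation F (algebraMap K F b) ≤ 1 := int_up S.hb v

theorem dneF (S : H88OD.Ext K F L a b θ) :
    4 * (algebraMap K F a) ^ 3 + 27 * (algebraMap K F b) ^ 2 ≠ 0 := by
  have h : 4 * (algebraMap K F a) ^ 3 + 27 * (algebraMap K F b) ^ 2 =
      algebraMap K F (4 * a ^ 3 + 27 * b ^ 2) := by
    simp only [map_add, map_mul, map_pow, map_ofNat]
  rw [h, Ne, map_eq_zero]
  exact S.dne

theorem Lv_one (S : H88OD.Ext K F L a b θ) (v : HeightOneSpectrum (𝓞 F)) (c : SC L) :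
    S.Lv 1 v c ↔ Wc (algebraMap F (v.adicCompletion F)) (algebraMap K F a) (algebraMap K F b) θ c := by
  unfold H88OD.Ext.Lv
  simp only [one_pow, one_mul, map_one]

theorem Lr_one (S : H88OD.Ext K F L a b θ) (s : F →+* ℝ) (c : SC L) :
    S.Lr 1 s c ↔ Wc s (algebraMap K F a) (algebraMap K F b) θ c := by
  unfold H88OD.Ext.Lr
  simp only [one_pow, one_mul, map_one]

theorem Wc_smul (S : H88OD.Ext K F L a b θ) (g : F ≃ₐ[K] F) (v : HeightOneSpectrum (𝓞 F))
    (c : SC L) :
    Wc (algebraMap F ((H88OD.gq g • v).adicCompletion F)) (algebraMap K F a) (algebraMap K F b) θ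
      (S.ρ g • c) ↔
      Wc (algebraMap F (v.adicCompletion F)) (algebraMap K F a) (algebraMap K F b) θ c := by
  rw [← Lv_one S, ← Lv_one S]
  exact H88OD.Lv_smul S 1 g v c

theorem Wr_smul (S : H88OD.Ext K F L a b θ) (g : F ≃ₐ[K] F) (s : F →+* ℝ) (c : SC L) :
    Wc (s.comp ((g⁻¹ : F ≃ₐ[K] F) : F →+* F)) (algebraMap K F a) (algebraMap K F b) θ
      (S.ρ g • c) ↔ Wc s (algebraMap K F a) (algebraMap K F b) θ c := by
  rw [← Lr_one S, ← Lr_one S]
  exact H88OD.Lr_smul S 1 g s c

theorem odd_gal (S : H88OD.Ext K F L a b θ) : Odd (Nat.card (F ≃ₐ[K] F)) := by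
  have hfd : FiniteDimensional K F := Module.Finite.of_restrictScalars_finite ℚ K F
  have := S.gal
  rw [IsGalois.card_aut_eq_finrank K F]
  exact S.odd

theorem odd_dec (S : H88OD.Ext K F L a b θ) (v : HeightOneSpectrum (𝓞 F)) :
    Odd (Nat.card (Dec K v)) :=
  Odd.of_dvd_nat (odd_gal S) (Subgroup.card_subgroup_dvd_card _)

end Ext

end H76SD
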