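import Pool.Agent.H76.SD.Df
import Pool.Agent.H38.OD.Mb

/-!
ROW Rb (project MP_78d38b_OD). About 150 lines: a quotient with an invariant perfect pairing is self-dual.
PROOF. `Q := ↥(A.map (QuotientAddGroup.mk' B))` is finite (`B.relIndex A ≠ 0`), with the action of `G` of H24/TD/Emb (`Emb_act`, private there: copy it), `hq G M A B = Nat.card (M →+[G] Q)` (`Emb_cardQ`, copy) `= hq G M (⊤ : AddSubgroup Q) ⊥` (`H24TD.hq_std`; or directly `H24TD.hq_iso`).
`Q` is killed by two (`h2`). The pairing `p` descends to `Q`: `p x y` for `x, y ∈ A` depends only on the classes (`hl`, `hs`, `hn`: elements of `B` pair to zero with `A`). So there is an additive map `t : Q →+ H26OD.Du Q`, `t (class x) (class y) = p x y` (choose representatives; additivity by `hl`; `p (-x) y`: `-x` and `x` have the same class as `2 x ∈ B`), injective by `hn`, equivariant by `hg`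
(`(g • φ) y = φ (g⁻¹ • y)`, `p (g x) y = p x (g⁻¹ y)`). `Nat.card (Du Q) = Nat.card Q` (finite group killed by two: `AddCommGroup.zmodModule`, `Module.card_eq_pow_finrank` and the dual space, or `H26OD.card_du`), so `t` is bijective, and `hq G N (⊤ : AddSubgroup Q) ⊥ = hq G N (⊤ : AddSubgroup (Du Q)) ⊥` for all `N` (`H24TD.hq_iso` with `u = t`).
So for `M` finite, `2 M = 0`: `hq G M ⊤_Q ⊥ = hq G Q ⊤_M ⊥` (`H26OD.hq_symm`) `= hq G Q ⊤_(Du (Du M)) ⊥` (`H26OD.hq_bidual`) `= hq G (Du M) ⊤_(Du Q) ⊥` (`H26OD.hq_flip`, with `D := Du M`) `= hq G (Du M) ⊤_Q ⊥`. All statements of `H26OD` are in Pool/Agent/H38/OD/Mb.lean.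
-/

set_option autoImplicit false
set_option linter.unusedSectionVars false
open scoped Classical

open WithZero NumberField IsDedekindDomain H38RT H76PP H30ZO H73P2 H30OD H36CY H24TD H88OD Pool.Agent.H10
open H38T1 (SC sc scu rep eo la si OddP)

namespace H76SD

/-- The two groups of homomorphisms for a group with an injection in its dual. -/
private theorem Rb_self {G : Type} [Group G] [Finite G] (hG : Odd (Nat.card G)) {Q : Type}
    [AddCommGroup Q] [DistribMulAction G Q] [Finite Q] (hQ : ∀ q : Q, q + q = 0)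
    (t : Q →+ H26OD.Du Q) (ht : ∀ (g : G) x, t (g • x) = g • t x)
    (hinj : Function.Injective t) (M : Type) [AddCommGroup M] [DistribMulAction G M] [Finite M]
    (hM : ∀ m : M, m + m = 0) :
    hq G M (⊤ : AddSubgroup Q) ⊥ = hq G (H26OD.Du M) (⊤ : AddSubgroup Q) ⊥ := by
  let i1 : Module (ZMod 2) Q := AddCommGroup.zmodModule (fun x => by rw [two_nsmul]; exact hQ x)
  let i2 : Module (H26OD.RG G) Q := H24TD.Sim_mod G Q
  have h1 : Nat.card (H26OD.Du Q) = Nat.card Q := H26OD.card_du (G := G)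
  have hbij : Function.Bijective t := by
    rw [Nat.bijective_iff_injective_and_card]
    exact ⟨hinj, h1.symm⟩
  have key : hq G (H26OD.Du M) (⊤ : AddSubgroup Q) ⊥ =
      hq G (H26OD.Du M) (⊤ : AddSubgroup (H26OD.Du Q)) ⊥ := by
    refine hq_iso t ht H26OD.Ma_top H26OD.Ma_bot H26OD.Ma_top H26OD.Ma_bot le_top ?_ ?_
    · intro φ _
      obtain ⟨x, rfl⟩ := hbij.2 φ
      exact AddSubgroup.mem_sup_right ⟨x, AddSubgroup.mem_top _, rfl⟩
    · intro x _
      rw [AddSubgroup.mem_bot, AddSubgroup.mem_bot]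
      constructor
      · intro h
        exact hinj (by rw [h, map_zero])
      · intro h
        rw [h, map_zero]
  rw [key, H26OD.hq_flip, H26OD.hq_bidual hM]
  exact H26OD.hq_symm hG hM hQ

theorem sd_pair {G X : Type} [Group G] [Finite G] (hG : Odd (Nat.card G)) [AddCommGroup X]
    [DistribMulAction G X] {A B : AddSubgroup X} (hA : Stab G A) (hB : Stab G B) (hBA : B ≤ A)
    (h2 : dbl A ≤ B) (hfin : B.relIndex A ≠ 0) (p : X → X → ZMod 2)
    (hs : ∀ x ∈ A, ∀ y ∈ A, p x y = p y x)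
    (hl : ∀ x ∈ A, ∀ x' ∈ A, ∀ y ∈ A, p (x + x') y = p x y + p x' y)
    (hg : ∀ (g : G), ∀ x ∈ A, ∀ y ∈ A, p (g • x) (g • y) = p x y)
    (hn : ∀ x ∈ A, (x ∈ B ↔ ∀ y ∈ A, p x y = 0)) : Sd G A B := by
  intro M _ _ _ hM
  let actA : DistribMulAction G A :=
    { smul := fun g x => ⟨g • (x : X), hA g x x.2⟩
      one_smul := fun x => Subtype.ext (one_smul G (x : X))
      mul_smul := fun g h x => Subtype.ext (mul_smul g h (x : X))
      smul_zero := fun g => Subtype.ext (smul_zero g)
      smul_add := fun g x y => Subtype.ext (smul_add g (x : X) (y : X)) }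
  obtain ⟨C, hC⟩ : ∃ C : AddSubgroup A, C = B.addSubgroupOf A := ⟨_, rfl⟩
  have memC : ∀ x : A, x ∈ C ↔ (x : X) ∈ B := by
    intro x
    rw [hC]
    exact AddSubgroup.mem_addSubgroupOf
  have hsm : ∀ (g : G) (x : A), ((g • x : A) : X) = g • (x : X) := fun _ _ => rfl
  have hCs : Stab G C := by
    intro g x hx
    rw [memC] at hx ⊢
    exact hB g _ hx
  let gq : G → (A ⧸ C) →+ (A ⧸ C) := fun g =>
    QuotientAddGroup.map C C (DistribSMul.toAddMonoidHom A g) (fun x hx => hCs g x hx)
  have gq_mk : ∀ (g : G) (x : A), gq g (x : A ⧸ C) = ((g • x : A) : A ⧸ C) := fun _ _ => rfl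
  let actQ : DistribMulAction G (A ⧸ C) :=
    { smul := fun g q => gq g q
      one_smul := fun q => by
        obtain ⟨a, rfl⟩ := QuotientAddGroup.mk_surjective q
        change (((1 : G) • a : A) : A ⧸ C) = (a : A ⧸ C)
        rw [one_smul]
      mul_smul := fun g h q => by
        obtain ⟨a, rfl⟩ := QuotientAddGroup.mk_surjective q
        change (((g * h) • a : A) : A ⧸ C) = ((g • (h • a) : A) : A ⧸ C)
        rw [mul_smul]
      smul_zero := fun g => map_zero (gq g)
      smul_add := fun g x y => map_add (gq g) x y }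
  have q_mk : ∀ (g : G) (x : A), g • (x : A ⧸ C) = ((g • x : A) : A ⧸ C) := fun _ _ => rfl
  have hfQ : Finite (A ⧸ C) := by
    rw [hC]
    exact Nat.finite_of_card_ne_zero hfin
  have hQ : ∀ q : A ⧸ C, q + q = 0 := by
    intro q
    obtain ⟨a, rfl⟩ := QuotientAddGroup.mk_surjective q
    rw [← QuotientAddGroup.mk_add, QuotientAddGroup.eq_zero_iff, memC]
    refine h2 (mem_dbl.2 ⟨a, a.2, ?_⟩)
    rw [two_smul]
    rfl
  have key : ∀ (N : Type) [AddCommGroup N] [DistribMulAction G N],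
      hq G N A B = hq G N (⊤ : AddSubgroup (A ⧸ C)) ⊥ := by
    intro N _ _
    have e1 : hq G N (⊤ : AddSubgroup A) C = hq G N A B := by
      refine hq_iso A.subtype (fun g x => rfl) H26OD.Ma_top hCs hA hB ?_ ?_ ?_
      · rintro _ ⟨x, -, rfl⟩
        exact x.2
      · intro x hx
        exact AddSubgroup.mem_sup_right ⟨⟨x, hx⟩, AddSubgroup.mem_top _, rfl⟩
      · intro a _
        exact (memC a).symm
    have e2 : hq G N (⊤ : AddSubgroup A) C = hq G N (⊤ : AddSubgroup (A ⧸ C)) ⊥ := by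
      refine hq_iso (QuotientAddGroup.mk' C) (fun g x => rfl) H26OD.Ma_top hCs H26OD.Ma_top
        H26OD.Ma_bot le_top ?_ ?_
      · intro q _
        obtain ⟨a, rfl⟩ := QuotientAddGroup.mk_surjective q
        exact AddSubgroup.mem_sup_right ⟨a, AddSubgroup.mem_top _, rfl⟩
      · intro a _
        rw [AddSubgroup.mem_bot]
        exact QuotientAddGroup.eq_zero_iff a
    rw [← e1, e2]
  -- the pairing
  let pa : A → A →+ ZMod 2 := fun x => AddMonoidHom.mk' (fun y => p x y) (fun y y' => by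
    change p x (y + y') = p x y + p x y'
    rw [hs x x.2 _ (A.add_mem y.2 y'.2), hl y y.2 y' y'.2 x x.2, hs y y.2 x x.2,
      hs y' y'.2 x x.2])
  have pa_apply : ∀ x y : A, pa x y = p x y := fun _ _ => rfl
  have pa_ker : ∀ x y : A, y ∈ C → pa x y = 0 := by
    intro x y hy
    rw [pa_apply, hs x x.2 y y.2]
    exact (hn y y.2).1 ((memC y).1 hy) x x.2
  let pb : A →+ ((A ⧸ C) →+ ZMod 2) := AddMonoidHom.mk' (fun x =>
    QuotientAddGroup.lift C (pa x) (fun y hy => pa_ker x y hy)) (fun x x' => by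
      refine AddMonoidHom.ext fun q => ?_
      obtain ⟨y, rfl⟩ := QuotientAddGroup.mk_surjective q
      exact hl x x.2 x' x'.2 y y.2)
  have pb_apply : ∀ x y : A, pb x (y : A ⧸ C) = p x y := fun _ _ => rfl
  have pb_zero : ∀ x : A, pb x = 0 ↔ x ∈ C := by
    intro x
    rw [memC, hn x x.2]
    constructor
    · intro h y hy
      have h3 := pb_apply x ⟨y, hy⟩
      rw [h] at h3
      exact h3.symm
    · intro h
      refine AddMonoidHom.ext fun q => ?_
      obtain ⟨y, rfl⟩ := QuotientAddGroup.mk_surjective q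
      rw [pb_apply]
      exact h y y.2
  obtain ⟨t, ht⟩ : ∃ t : (A ⧸ C) →+ H26OD.Du (A ⧸ C),
      ∀ x y : A, t (x : A ⧸ C) (y : A ⧸ C) = p x y :=
    ⟨QuotientAddGroup.lift C pb (fun x hx => (pb_zero x).2 hx), fun x y => rfl⟩
  have t_inj : Function.Injective t := by
    rw [injective_iff_map_eq_zero]
    intro q hq0
    obtain ⟨x, rfl⟩ := QuotientAddGroup.mk_surjective q
    rw [QuotientAddGroup.eq_zero_iff, memC, hn x x.2]
    intro y hy
    have h3 := ht x ⟨y, hy⟩
    rw [hq0] at h3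
    exact h3.symm
  have t_smul : ∀ (g : G) q, t (g • q) = g • t q := by
    intro g q
    apply DFunLike.ext
    intro r
    obtain ⟨x, rfl⟩ := QuotientAddGroup.mk_surjective q
    obtain ⟨y, rfl⟩ := QuotientAddGroup.mk_surjective r
    rw [H26OD.Du_smul, q_mk, q_mk, ht, ht, hsm, hsm]
    have h3 := hg g x x.2 _ (hA g⁻¹ y y.2)
    rw [smul_inv_smul] at h3
    exact h3
  rw [key M, key (H26OD.Du M)]
  exact Rb_self hG hQ t t_smul t_inj M hM

end H76SD
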