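import Pool.Agent.H76.SD.Df

/-!
ROW Rc (project MP_78d38b_OD). About 100 lines: induced modules.
PROOF. `B.map u ≤ B'` (`x ∈ B ≤ A`, take `g = 1` in `hB`), so `ū := QuotientAddGroup.map B B' u : X ⧸ B →+ Y ⧸ B'`. For `f ∈ Hq G M A B` put `f' := ū.comp f`. `f' ∈ Hq D M A' B'`: `f m = class of x ∈ A`, `f' m = class of u x`, `u x ∈ A'`; for `g ∈ D`, `y` with `f' m = class of y`: `f (g • m) = class of (g • x)` (where `(g : D) • m = (g : G) • m` is `rfl`), `f' (g • m) = class of u (g • x) = g • u x`, and `u x - y ∈ B'` gives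
`g • u x - g • y ∈ B'` (`hB'`). Injective: `f₁' = f₂'`; fix `m`; `f₁ m = class x₁`, `f₂ m = class x₂` with `x₁, x₂ ∈ A`. For all `g : G`: `f_i (g • m) = class (g • x_i)`, so `u (g • x₁) - u (g • x₂) ∈ B'`, i.e. `u (g • (x₁ - x₂)) ∈ B'` for all `g`, so `x₁ - x₂ ∈ B` by `hB`. The set `Hq D M A' B'` is finite (`M` finite, values in the finite group `A'.map (mk' B')`; see `H24TD.hq_pos`): `Nat.card_le_card_of_injective`.
-/

set_option autoImplicit false
set_option linter.unusedSectionVars false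
open scoped Classical

open WithZero NumberField IsDedekindDomain H38RT H76PP H30ZO H73P2 H30OD H36CY H24TD H88OD Pool.Agent.H10
open H38T1 (SC sc scu rep eo la si OddP)

namespace H76SD

private theorem Rc_eq {Y : Type} [AddCommGroup Y] {B : AddSubgroup Y} {x y : Y} :
    (x : Y ⧸ B) = (y : Y ⧸ B) ↔ x - y ∈ B := by
  rw [QuotientAddGroup.eq, ← neg_mem_iff]
  have : -(-x + y) = x - y := by abel
  rw [this]

theorem hq_ind_le {G X Y : Type} [Group G] (D : Subgroup G) [AddCommGroup X] [DistribMulAction G X]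
    [AddCommGroup Y] [DistribMulAction D Y] (u : X →+ Y)
    (hu : ∀ (g : D) (x : X), u ((g : G) • x) = g • u x) {A B : AddSubgroup X}
    {A' B' : AddSubgroup Y} (hA : Stab G A) (hBA : B ≤ A) (hB' : Stab D B')
    (hB : ∀ x ∈ A, (x ∈ B ↔ ∀ g : G, u (g • x) ∈ B')) (hA' : ∀ x ∈ A, u x ∈ A')
    (hfin : B'.relIndex A' ≠ 0) (M : Type) [AddCommGroup M] [DistribMulAction G M] [Finite M] :
    hq G M A B ≤ hq D M A' B' := by
  have hBu : B ≤ B'.comap u := by
    intro x hx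
    have h := (hB x (hBA hx)).1 hx 1
    rw [one_smul] at h
    exact h
  obtain ⟨φ, hφ⟩ : ∃ φ : X ⧸ B →+ Y ⧸ B', ∀ x : X, φ (x : X ⧸ B) = ((u x : Y) : Y ⧸ B') :=
    ⟨QuotientAddGroup.map B B' u hBu, fun x => rfl⟩
  -- the set of targets is finite
  have h1 : Finite (Bas_phi A' B').range := by
    refine Nat.finite_of_card_ne_zero ?_
    rw [Bas_card]; exact hfin
  have h2 : Finite ↥(Hq D M A' B') := by
    refine Finite.of_injective
      (fun f : ↥(Hq D M A' B') => fun m : M => (⟨f.1 m, Bas_mem.mpr (f.2.1 m)⟩ : (Bas_phi A' B').range))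
      (fun f f' h => Subtype.ext (AddMonoidHom.ext fun m => ?_))
    exact congrArg Subtype.val (congrFun h m)
  have hmem : ∀ f ∈ Hq G M A B, φ.comp f ∈ Hq D M A' B' := by
    intro f hf
    refine ⟨fun m => ?_, fun g m y hy => ?_⟩
    · obtain ⟨x, hx, h⟩ := hf.1 m
      refine ⟨u x, hA' x hx, ?_⟩
      rw [AddMonoidHom.comp_apply, h, hφ]
    · obtain ⟨x, hx, h⟩ := hf.1 m
      rw [AddMonoidHom.comp_apply, h, hφ, Rc_eq] at hy
      have h3 := hf.2 (g : G) m x h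
      have h4 : f (g • m) = (((g : G) • x : X) : X ⧸ B) := h3
      rw [AddMonoidHom.comp_apply, h4, hφ, hu, Rc_eq, ← smul_sub]
      exact hB' g _ hy
  unfold hq
  refine Nat.card_le_card_of_injective
    (fun f : ↥(Hq G M A B) => (⟨φ.comp f.1, hmem f.1 f.2⟩ : ↥(Hq D M A' B'))) ?_
  intro f₁ f₂ h
  refine Subtype.ext (AddMonoidHom.ext fun m => ?_)
  have h5 : ∀ m', φ (f₁.1 m') = φ (f₂.1 m') := fun m' =>
    DFunLike.congr_fun (congrArg Subtype.val h) m'
  obtain ⟨x₁, hx₁, e₁⟩ := f₁.2.1 m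
  obtain ⟨x₂, hx₂, e₂⟩ := f₂.2.1 m
  rw [e₁, e₂, Rc_eq]
  refine (hB _ (A.sub_mem hx₁ hx₂)).2 fun g => ?_
  have h6 := h5 (g • m)
  rw [f₁.2.2 g m x₁ e₁, f₂.2.2 g m x₂ e₂, hφ, hφ, Rc_eq] at h6
  rw [smul_sub, map_sub]
  exact h6

end H76SD
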