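import Pool.Agent.H76.SD.Df

/-!
ROW Rd (project MP_78d38b_OD). About 120 lines: monotonicity and chains.
hq_mono: `Hq G M A B ⊆ Hq G M A' B` for `A ≤ A'`, the second set is finite (`M` finite, `B.relIndex A' ≠ 0`: values in the finite group `A'.map (mk' B)`, see the proof of `H24TD.hq_pos`).
hq_sec (second isomorphism theorem and monotonicity): `hq A (A ⊓ V) = hq (A ⊔ V) V` (`H24TD.hq_iso` with `u = id`) `≤ hq H V` (hq_mono; `A ⊔ V ≤ H`).
hq_chain: induction on `s`. Empty: `A ⊓ ⊤ = A`, `H24TD.hq_self`. `insert i s`: `B := A ⊓ ⨅ i ∈ s, V i`, `C := B ⊓ V i = A ⊓ ⨅ over insert`; `H24TD.hq_mul` with `C ≤ B ≤ A` and `dbl A ≤ C` (`dbl A ≤ A`, `dbl A ≤ dbl H ≤ V j`): `hq A C = hq B C * hq A B`, `hq B (B ⊓ V i) ≤ hq H (V i)` by hq_sec.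
-/

set_option autoImplicit false
set_option linter.unusedSectionVars false
open scoped Classical

open WithZero NumberField IsDedekindDomain H38RT H76PP H30ZO H73P2 H30OD H36CY H24TD H88OD Pool.Agent.H10
open H38T1 (SC sc scu rep eo la si OddP)

namespace H76SD

theorem hq_mono {G X : Type} [Group G] [AddCommGroup X] [DistribMulAction G X]
    {A A' B : AddSubgroup X} (hAA : A ≤ A') (hfin : B.relIndex A' ≠ 0) (M : Type) [AddCommGroup M]
    [DistribMulAction G M] [Finite M] : hq G M A B ≤ hq G M A' B := by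
  unfold hq
  have h1 : Finite (Bas_phi A' B).range := by
    refine Nat.finite_of_card_ne_zero ?_
    rw [Bas_card]
    exact hfin
  have h2 : Finite ↥(Hq G M A' B) := by
    refine Finite.of_injective
      (fun f : ↥(Hq G M A' B) => fun m : M =>
        (⟨f.1 m, Bas_mem.mpr (f.2.1 m)⟩ : (Bas_phi A' B).range))
      (fun f f' h => Subtype.ext (AddMonoidHom.ext fun m => ?_))
    exact congrArg Subtype.val (congrFun h m)
  have hsub : Hq G M A B ⊆ Hq G M A' B := by
    intro f hf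
    refine ⟨fun m => ?_, hf.2⟩
    obtain ⟨a, ha, e⟩ := hf.1 m
    exact ⟨a, hAA ha, e⟩
  exact Nat.card_mono (Set.toFinite _) hsub

private theorem Rd_inf {G X : Type} [Group G] [AddCommGroup X] [DistribMulAction G X]
    {A V : AddSubgroup X} (hA : Stab G A) (hV : Stab G V) : Stab G (A ⊓ V) :=
  fun g x hx => ⟨hA g x hx.1, hV g x hx.2⟩

private theorem Rd_sup {G X : Type} [Group G] [AddCommGroup X] [DistribMulAction G X]
    {A V : AddSubgroup X} (hA : Stab G A) (hV : Stab G V) : Stab G (A ⊔ V) := by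
  intro g x hx
  obtain ⟨a, ha, v, hv, rfl⟩ := AddSubgroup.mem_sup.1 hx
  rw [smul_add]
  exact AddSubgroup.mem_sup.2 ⟨g • a, hA g a ha, g • v, hV g v hv, rfl⟩

private theorem Rd_iInf {G X : Type} [Group G] [AddCommGroup X] [DistribMulAction G X]
    {A : AddSubgroup X} (hA : Stab G A) {ι : Type} (s : Finset ι) (V : ι → AddSubgroup X)
    (hV : ∀ i ∈ s, Stab G (V i)) : Stab G (A ⊓ ⨅ i ∈ s, V i) := by
  intro g x hx
  refine ⟨hA g x hx.1, ?_⟩
  have h2 : x ∈ ⨅ i ∈ s, V i := hx.2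
  rw [AddSubgroup.mem_iInf] at h2
  show g • x ∈ ⨅ i ∈ s, V i
  rw [AddSubgroup.mem_iInf]
  intro i
  rw [AddSubgroup.mem_iInf]
  intro hi
  have h3 := h2 i
  rw [AddSubgroup.mem_iInf] at h3
  exact hV i hi g x (h3 hi)

private theorem Rd_dbl {X : Type} [AddCommGroup X] {A B : AddSubgroup X} (h : A ≤ B) :
    dbl A ≤ dbl B := by
  intro x hx
  obtain ⟨a, ha, rfl⟩ := mem_dbl.1 hx
  exact mem_dbl.2 ⟨a, h ha, rfl⟩

private theorem Rd_dbl_le {X : Type} [AddCommGroup X] (A : AddSubgroup X) : dbl A ≤ A := by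
  intro x hx
  obtain ⟨a, ha, rfl⟩ := mem_dbl.1 hx
  exact A.zsmul_mem ha 2

theorem hq_sec {G X : Type} [Group G] [AddCommGroup X] [DistribMulAction G X]
    {A H V : AddSubgroup X} (hA : Stab G A) (hV : Stab G V) (hAH : A ≤ H) (hVH : V ≤ H)
    (hfin : V.relIndex H ≠ 0) (M : Type) [AddCommGroup M] [DistribMulAction G M] [Finite M] :
    hq G M A (A ⊓ V) ≤ hq G M H V := by
  have h1 : hq G M A (A ⊓ V) = hq G M (A ⊔ V) V := by
    refine hq_iso (AddMonoidHom.id X) (fun g x => rfl) hA (Rd_inf hA hV) (Rd_sup hA hV) hV ?_ ?_ ?_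
    · rw [AddSubgroup.map_id]
      exact le_sup_left
    · rw [AddSubgroup.map_id, sup_comm]
    · intro a ha
      exact ⟨fun h => ⟨ha, h⟩, fun h => h.2⟩
  rw [h1]
  exact hq_mono (sup_le hAH hVH) hfin M

theorem hq_chain {G X : Type} [Group G] [Finite G] (hG : Odd (Nat.card G)) [AddCommGroup X]
    [DistribMulAction G X] {A H : AddSubgroup X} (hA : Stab G A) (hH : Stab G H) (hAH : A ≤ H)
    {ι : Type} (s : Finset ι) (V : ι → AddSubgroup X) (hV : ∀ i ∈ s, Stab G (V i))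
    (hVH : ∀ i ∈ s, V i ≤ H) (h2 : ∀ i ∈ s, dbl H ≤ V i) (hfin : ∀ i ∈ s, (V i).relIndex H ≠ 0)
    (M : Type) [AddCommGroup M] [DistribMulAction G M] [Finite M] :
    hq G M A (A ⊓ ⨅ i ∈ s, V i) ≤ ∏ i ∈ s, hq G M H (V i) := by
  induction s using Finset.induction_on with
  | empty =>
    have e : A ⊓ ⨅ i ∈ (∅ : Finset ι), V i = A := by
      simp
    rw [e, hq_self hA, Finset.prod_empty]
  | insert i s hi ih =>
    have hVs : ∀ j ∈ s, Stab G (V j) := fun j hj => hV j (Finset.mem_insert_of_mem hj)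
    have ih' := ih hVs (fun j hj => hVH j (Finset.mem_insert_of_mem hj))
      (fun j hj => h2 j (Finset.mem_insert_of_mem hj)) (fun j hj => hfin j (Finset.mem_insert_of_mem hj))
    have hii := Finset.mem_insert_self i s
    obtain ⟨B, hB⟩ : ∃ B, B = A ⊓ ⨅ j ∈ s, V j := ⟨_, rfl⟩
    rw [← hB] at ih'
    have e : A ⊓ ⨅ j ∈ insert i s, V j = B ⊓ V i := by
      rw [Finset.iInf_insert, hB, inf_assoc, inf_comm (V i)]
    have hBst : Stab G B := by
      rw [hB]
      exact Rd_iInf hA s V hVs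
    have hBA : B ≤ A := by
      rw [hB]
      exact inf_le_left
    have hCst : Stab G (B ⊓ V i) := Rd_inf hBst (hV i hii)
    have hdbl : dbl A ≤ B ⊓ V i := by
      refine le_inf ?_ ((Rd_dbl hAH).trans (h2 i hii))
      rw [hB]
      refine le_inf (Rd_dbl_le A) ?_
      refine le_iInf fun j => le_iInf fun hj => ?_
      exact (Rd_dbl hAH).trans (h2 j (Finset.mem_insert_of_mem hj))
    rw [e, hq_mul hG hA hBst hCst inf_le_left hBA hdbl, Finset.prod_insert hi]
    exact Nat.mul_le_mul (hq_sec hBst (hV i hii) (hBA.trans hAH) (hVH i hii) (hfin i hii) M) ih'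

end H76SD
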