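import Pool.Agent.H76.SD.Df

/-!
ROW Re (project MP_78d38b_OD). About 120 lines: the numbers of homomorphisms are positive multiplicative functions of the module.
mult_hq: `pos`: `H24TD.hq_pos`. `iso`: `f ↦ f.comp e.symm` is a bijection `Hq D M A B → Hq D M' A B` (`(g : D) • m = (g : G) • m` is `rfl`). `prod`: `f ↦ (f.comp (AddMonoidHom.inl M M'), f.comp (AddMonoidHom.inr M M'))`, inverse `f.coprod f'`; the condition for `(m, m')`: `f (m, m') = f (m, 0) + f (0, m')`, `g • (m, m') = (g • m, g • m')`; for `x` with `f (m, m') = class x`: `f (m, 0) = class y`, `f (0, m') = class z`, `x - (y + z) ∈ B`, `g • x - g • y - g • z ∈ B` (`hB`). The action of `D` on `M × M'` as a subgroup of `G` is the product action by `rfl`.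
mult_hqG: the same with `G` itself (or mult_hq for `D = ⊤`; it is easier to prove a general lemma for a group `D` with a homomorphism to `G` and to specialise).
Mult.mul, Mult.finprod: `Nat.mul_pos`, `Finset.prod_pos`, `Finset.prod_mul_distrib`, `mul_mul_mul_comm`.
-/

set_option autoImplicit false
set_option linter.unusedSectionVars false
open scoped Classical

open WithZero NumberField IsDedekindDomain H38RT H76PP H30ZO H73P2 H30OD H36CY H24TD H88OD Pool.Agent.H10
open H38T1 (SC sc scu rep eo la si OddP)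

namespace H76SD

theorem Re_iso {D M M' X : Type} [Group D] [AddCommGroup X] [DistribMulAction D X]
    [AddCommGroup M] [DistribMulAction D M] [AddCommGroup M'] [DistribMulAction D M']
    (e : M ≃+ M') (he : ∀ (g : D) (m : M), e (g • m) = g • e m) (A B : AddSubgroup X) :
    hq D M A B = hq D M' A B := by
  have he' : ∀ (g : D) (m : M'), e.symm (g • m) = g • e.symm m := fun g m => by
    rw [AddEquiv.symm_apply_eq, he, AddEquiv.apply_symm_apply]
  unfold hq
  refine Nat.card_congr
    { toFun := fun f => ⟨f.1.comp e.symm.toAddMonoidHom, ?_, ?_⟩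
      invFun := fun f => ⟨f.1.comp e.toAddMonoidHom, ?_, ?_⟩
      left_inv := fun f => Subtype.ext (AddMonoidHom.ext fun m => ?_)
      right_inv := fun f => Subtype.ext (AddMonoidHom.ext fun m => ?_) }
  · intro m
    exact f.2.1 (e.symm m)
  · intro g m x h
    change f.1 (e.symm (g • m)) = _
    rw [he']
    exact f.2.2 g (e.symm m) x h
  · intro m
    exact f.2.1 (e m)
  · intro g m x h
    change f.1 (e (g • m)) = _
    rw [he]
    exact f.2.2 g (e m) x h
  · change f.1 (e.symm (e m)) = f.1 m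
    rw [AddEquiv.symm_apply_apply]
  · change f.1 (e (e.symm m)) = f.1 m
    rw [AddEquiv.apply_symm_apply]

theorem Re_prod {D M M' P X : Type} [Group D] [AddCommGroup X] [DistribMulAction D X]
    [AddCommGroup M] [DistribMulAction D M] [AddCommGroup M'] [DistribMulAction D M']
    [AddCommGroup P] [DistribMulAction D P] (e : P ≃+ M × M')
    (h₁ : ∀ (g : D) (p : P), (e (g • p)).1 = g • (e p).1)
    (h₂ : ∀ (g : D) (p : P), (e (g • p)).2 = g • (e p).2)
    {A B : AddSubgroup X} (hB : Stab D B) :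
    hq D P A B = hq D M A B * hq D M' A B := by
  have k₁ : ∀ (g : D) (m : M), e.symm (g • m, 0) = g • e.symm (m, 0) := fun g m => by
    rw [AddEquiv.symm_apply_eq]
    refine Prod.ext ?_ ?_
    · rw [h₁, AddEquiv.apply_symm_apply]
    · rw [h₂, AddEquiv.apply_symm_apply, smul_zero]
  have k₂ : ∀ (g : D) (m : M'), e.symm (0, g • m) = g • e.symm (0, m) := fun g m => by
    rw [AddEquiv.symm_apply_eq]
    refine Prod.ext ?_ ?_
    · rw [h₁, AddEquiv.apply_symm_apply, smul_zero]
    · rw [h₂, AddEquiv.apply_symm_apply]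
  unfold hq
  rw [← Nat.card_prod]
  refine Nat.card_congr
    { toFun := fun f => (⟨(f.1.comp e.symm.toAddMonoidHom).comp (AddMonoidHom.inl M M'), ?_, ?_⟩,
        ⟨(f.1.comp e.symm.toAddMonoidHom).comp (AddMonoidHom.inr M M'), ?_, ?_⟩)
      invFun := fun p => ⟨(p.1.1.coprod p.2.1).comp e.toAddMonoidHom, ?_, ?_⟩
      left_inv := fun f => Subtype.ext (AddMonoidHom.ext fun m => ?_)
      right_inv := fun p => ?_ }
  · intro m
    exact f.2.1 (e.symm (m, 0))
  · intro g m x h
    have h1 := f.2.2 g (e.symm (m, 0)) x h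
    rw [← k₁] at h1
    exact h1
  · intro m
    exact f.2.1 (e.symm (0, m))
  · intro g m x h
    have h1 := f.2.2 g (e.symm (0, m)) x h
    rw [← k₂] at h1
    exact h1
  · intro q
    obtain ⟨a, ha, h⟩ := p.1.2.1 (e q).1
    obtain ⟨a', ha', h'⟩ := p.2.2.1 (e q).2
    refine ⟨a + a', A.add_mem ha ha', ?_⟩
    change p.1.1 (e q).1 + p.2.1 (e q).2 = _
    rw [h, h']
    rfl
  · intro g q x h
    obtain ⟨a, ha, h1⟩ := p.1.2.1 (e q).1
    obtain ⟨a', ha', h1'⟩ := p.2.2.1 (e q).2
    have h2 := p.1.2.2 g (e q).1 a h1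
    have h2' := p.2.2.2 g (e q).2 a' h1'
    change p.1.1 (e (g • q)).1 + p.2.1 (e (g • q)).2 = _
    change p.1.1 (e q).1 + p.2.1 (e q).2 = _ at h
    rw [h₁, h₂, h2, h2', ← QuotientAddGroup.mk_add, ← smul_add]
    rw [h1, h1', ← QuotientAddGroup.mk_add] at h
    rw [QuotientAddGroup.eq] at h ⊢
    rw [← smul_neg, ← smul_add]
    exact hB g _ h
  · change f.1 (e.symm ((e m).1, 0)) + f.1 (e.symm (0, (e m).2)) = f.1 m
    rw [← map_add, ← map_add, Prod.mk_add_mk, add_zero, zero_add, Prod.mk.eta,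
      AddEquiv.symm_apply_apply]
  · refine Prod.ext (Subtype.ext (AddMonoidHom.ext fun m => ?_))
      (Subtype.ext (AddMonoidHom.ext fun m => ?_))
    · change p.1.1 (e (e.symm (m, 0))).1 + p.2.1 (e (e.symm (m, 0))).2 = p.1.1 m
      rw [AddEquiv.apply_symm_apply, map_zero, add_zero]
    · change p.1.1 (e (e.symm (0, m))).1 + p.2.1 (e (e.symm (0, m))).2 = p.2.1 m
      rw [AddEquiv.apply_symm_apply, map_zero, zero_add]

theorem mult_hq {G X : Type} [Group G] (D : Subgroup G) [AddCommGroup X] [DistribMulAction D X]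
    {A B : AddSubgroup X} (hA : Stab D A) (hB : Stab D B) (hfin : B.relIndex A ≠ 0) :
    Mult G (fun M _ _ => hq D M A B) where
  pos _ _ _ _ := hq_pos hA hB hfin
  iso _ _ _ _ _ _ e he := Re_iso (D := D) e (fun g m => he (g : G) m) A B
  prod M M' _ _ _ _ := Re_prod (D := D) (AddEquiv.refl (M × M')) (fun _ _ => rfl) (fun _ _ => rfl) hB

theorem mult_hqG {G X : Type} [Group G] [AddCommGroup X] [DistribMulAction G X]
    {A B : AddSubgroup X} (hA : Stab G A) (hB : Stab G B) (hfin : B.relIndex A ≠ 0) :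
    Mult G (fun M _ _ => hq G M A B) where
  pos _ _ _ _ := hq_pos hA hB hfin
  iso _ _ _ _ _ _ e he := Re_iso (D := G) e he A B
  prod M M' _ _ _ _ := Re_prod (D := G) (AddEquiv.refl (M × M')) (fun _ _ => rfl) (fun _ _ => rfl) hB

theorem Mult.mul {G : Type} [Group G]
    {F₁ F₂ : ∀ (M : Type) [AddCommGroup M] [DistribMulAction G M], ℕ} (h₁ : Mult G F₁)
    (h₂ : Mult G F₂) : Mult G (fun M _ _ => F₁ M * F₂ M) where
  pos M _ _ _ := Nat.mul_pos (h₁.pos M) (h₂.pos M)
  iso M M' _ _ _ _ e he := by rw [h₁.iso M M' e he, h₂.iso M M' e he]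
  prod M M' _ _ _ _ := by rw [h₁.prod M M', h₂.prod M M', mul_mul_mul_comm]

theorem Mult.finprod {G ι : Type} [Group G] (s : Finset ι)
    {F : ι → ∀ (M : Type) [AddCommGroup M] [DistribMulAction G M], ℕ} (h : ∀ i ∈ s, Mult G (F i)) :
    Mult G (fun M _ _ => ∏ i ∈ s, F i M) where
  pos M _ _ _ := Finset.prod_pos fun i hi => (h i hi).pos M
  iso M M' _ _ _ _ e he := Finset.prod_congr rfl fun i hi => (h i hi).iso M M' e he
  prod M M' _ _ _ _ := by
    rw [← Finset.prod_mul_distrib]
    exact Finset.prod_congr rfl fun i hi => (h i hi).prod M M'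

end H76SD
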