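import Pool.Agent.H76.SD.Df

/-!
ROW Rf (project MP_78d38b_OD). About 150 lines: two multiplicative functions, the first at most the second, equal for the regular module, are equal.
PROOF. `R := Fn G (ZMod 2)` with `(g • f) x = f (g⁻¹ * x)`. `M` finite, `2 M = 0`. Let `k := Nat.card (M →+ ZMod 2)` (finite) and enumerate the homomorphisms `φ : Fin k → (M →+ ZMod 2)` (surjective). `j : M →+ (Fin k → R)`, `j m i x := φ i (x⁻¹ • m)`: equivariant (`(g • f) x = f (g⁻¹ x)`: `φ i (x⁻¹ g m) = φ i ((g⁻¹ x)⁻¹ m)`), injective (homomorphisms to `ZMod 2` separate the points of a vector space over `ZMod 2`, `x = 1`).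
An additive left inverse `t` of `j` (`H24TD.Mul_sec` style: vector spaces, `LinearMap.exists_leftInverse_of_injective`), averaged: `π y := ∑ g, g • t (g⁻¹ • y)` is equivariant with `π (j m) = Nat.card G • m = m` (`|G|` odd, `2 m = 0`). `N := ker π` (with the action of `G`, a subtype; define the instance locally). `M × N ≃+ (Fin k → R)`, `(m, n) ↦ j m + n`, equivariant. So `F_i (Fin k → R) = F_i M * F_i N`, and `N` is finite, `2 N = 0`.
`F_i (Fin k → R) = F_i R ^ k`: induction on `k`: `Fin 0 → R` is a trivial module `Z`: `Z × Z ≃ Z` gives `F Z = F Z * F Z`, `F Z = 1` by `pos`; `Fin (k + 1) → R ≃ R × (Fin k → R)` (`Fin.consEquiv` or `Fin.cons`). Write `a_i = F_i M`, `b_i = F_i N`: `a_1 b_1 = F_1 R ^ k = F_2 R ^ k = a_2 b_2` (`F_1 R ≤ F_2 R` by `hle` for `R`, and `hR`), `a_1 ≤ a_2`, `b_1 ≤ b_2`, all positive: `a_1 = a_2`.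
-/

set_option autoImplicit false
set_option linter.unusedSectionVars false
open scoped Classical

open WithZero NumberField IsDedekindDomain H38RT H76PP H30ZO H73P2 H30OD H36CY H24TD H88OD Pool.Agent.H10
open H38T1 (SC sc scu rep eo la si OddP)

namespace H76SD

section Rf_aux

variable {G : Type} [Group G]

/-- an equivariant retract is a direct factor -/
lemma Rf_split {M P : Type} [AddCommGroup M] [DistribMulAction G M] [AddCommGroup P]
    [DistribMulAction G P] [Finite P] (h2 : ∀ y : P, y + y = 0) (j : M →+ P) (π : P →+ M)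
    (hj : ∀ (g : G) (m : M), j (g • m) = g • j m) (hπ : ∀ (g : G) (y : P), π (g • y) = g • π y)
    (hπj : ∀ m : M, π (j m) = m) :
    ∃ (N : Type) (_ : AddCommGroup N) (_ : DistribMulAction G N) (_ : Finite N)
      (e : (M × N) ≃+ P), (∀ n : N, n + n = 0) ∧ ∀ (g : G) (x : M × N), e (g • x) = g • e x := by
  have hk : ∀ (g : G) (y : P), y ∈ π.ker → g • y ∈ π.ker := by
    intro g y hy
    rw [AddMonoidHom.mem_ker] at hy ⊢
    rw [hπ, hy, smul_zero]
  let act : DistribMulAction G π.ker :=
    { smul := fun g y => ⟨g • (y : P), hk g y y.2⟩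
      one_smul := fun y => Subtype.ext (one_smul G (y : P))
      mul_smul := fun g h y => Subtype.ext (mul_smul g h (y : P))
      smul_zero := fun g => Subtype.ext (smul_zero g)
      smul_add := fun g x y => Subtype.ext (smul_add g (x : P) (y : P)) }
  have hmem : ∀ y : P, y - j (π y) ∈ π.ker := by
    intro y
    rw [AddMonoidHom.mem_ker, map_sub, hπj, sub_self]
  let e : (M × π.ker) ≃+ P :=
    { toFun := fun x => j x.1 + (x.2 : P)
      invFun := fun y => (π y, ⟨y - j (π y), hmem y⟩)
      left_inv := by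
        rintro ⟨m, n, hn⟩
        rw [AddMonoidHom.mem_ker] at hn
        have e1 : π (j m + n) = m := by rw [map_add, hπj, hn, add_zero]
        refine Prod.ext e1 (Subtype.ext ?_)
        change j m + n - j (π (j m + n)) = n
        rw [e1, add_sub_cancel_left]
      right_inv := by
        intro y
        change j (π y) + (y - j (π y)) = y
        rw [add_sub_cancel]
      map_add' := by
        rintro ⟨m, n⟩ ⟨m', n'⟩
        change j (m + m') + ((n : P) + n') = j m + n + (j m' + n')
        rw [map_add]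
        abel }
  refine ⟨π.ker, inferInstance, act, inferInstance, e, fun n => Subtype.ext (h2 n), ?_⟩
  rintro g ⟨m, n⟩
  change j (g • m) + g • (n : P) = g • (j m + n)
  rw [hj, smul_add]

lemma Rf_pow {F : ∀ (M : Type) [AddCommGroup M] [DistribMulAction G M], ℕ} (h : Mult G F)
    (R : Type) [AddCommGroup R] [DistribMulAction G R] [Finite R] (k : ℕ) :
    F (Fin k → R) = F R ^ k := by
  induction k with
  | zero =>
    have e : ((Fin 0 → R) × (Fin 0 → R)) ≃+ (Fin 0 → R) :=
      { toFun := fun x => x.1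
        invFun := fun x => (x, x)
        left_inv := fun x => Subsingleton.elim _ _
        right_inv := fun x => Subsingleton.elim _ _
        map_add' := fun x y => Subsingleton.elim _ _ }
    have h1 := h.iso _ _ e fun g m => Subsingleton.elim _ _
    rw [h.prod] at h1
    have h2 := h.pos (Fin 0 → R)
    rw [pow_zero]
    exact Nat.eq_of_mul_eq_mul_left h2 (by rw [h1, mul_one])
  | succ k ih =>
    let e : (Fin (k + 1) → R) ≃+ (R × (Fin k → R)) :=
      { toFun := fun f => (f 0, fun i => f i.succ)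
        invFun := fun x => Fin.cons x.1 x.2
        left_inv := by
          intro f
          funext i
          refine Fin.cases ?_ (fun i => ?_) i
          · rfl
          · rfl
        right_inv := by
          rintro ⟨x, f⟩
          rfl
        map_add' := fun x y => rfl }
    have h1 := h.iso _ _ e fun g m => rfl
    rw [h1, h.prod, ih, pow_succ, mul_comm]

lemma Rf_sep {M : Type} [AddCommGroup M] (h2 : ∀ m : M, m + m = 0) {m : M}
    (hm : ∀ φ : M →+ ZMod 2, φ m = 0) : m = 0 := by
  let _ : Module (ZMod 2) M := AddCommGroup.zmodModule (n := 2) (fun x => by rw [two_nsmul, h2])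
  have hp : Fact (Nat.Prime 2) := ⟨Nat.prime_two⟩
  rw [← Module.forall_dual_apply_eq_zero_iff (ZMod 2) m]
  intro f
  exact hm f.toAddMonoidHom

lemma Rf_inv {M P : Type} [AddCommGroup M] [AddCommGroup P] (h2 : ∀ m : M, m + m = 0)
    (h2' : ∀ m : P, m + m = 0) (j : M →+ P) (hj : Function.Injective j) :
    ∃ t : P →+ M, ∀ m, t (j m) = m := by
  let _ : Module (ZMod 2) M := AddCommGroup.zmodModule (n := 2) (fun x => by rw [two_nsmul, h2])
  let _ : Module (ZMod 2) P := AddCommGroup.zmodModule (n := 2) (fun x => by rw [two_nsmul, h2'])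
  have hp : Fact (Nat.Prime 2) := ⟨Nat.prime_two⟩
  obtain ⟨g, hg⟩ := LinearMap.exists_leftInverse_of_injective (AddMonoidHom.toZModLinearMap 2 j)
    (LinearMap.ker_eq_bot.2 hj)
  exact ⟨g.toAddMonoidHom, fun x => LinearMap.congr_fun hg x⟩

/-- averaging a left inverse -/
lemma Rf_avg [Finite G] (hG : Odd (Nat.card G)) {M P : Type} [AddCommGroup M]
    [DistribMulAction G M] [AddCommGroup P] [DistribMulAction G P] (h2 : ∀ m : M, m + m = 0)
    (h2' : ∀ m : P, m + m = 0) (j : M →+ P) (hj : Function.Injective j)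
    (hjg : ∀ (g : G) (m : M), j (g • m) = g • j m) :
    ∃ π : P →+ M, (∀ (g : G) (y : P), π (g • y) = g • π y) ∧ ∀ m : M, π (j m) = m := by
  have _ : Fintype G := Fintype.ofFinite G
  obtain ⟨t, ht⟩ := Rf_inv h2 h2' j hj
  obtain ⟨π, hπ⟩ : ∃ π : P →+ M, ∀ y, π y = ∑ g : G, g • t (g⁻¹ • y) := by
    refine ⟨∑ g : G, (DistribSMul.toAddMonoidHom M g).comp
      (t.comp (DistribSMul.toAddMonoidHom P g⁻¹)), fun y => ?_⟩
    rw [AddMonoidHom.finsetSum_apply]
    rfl
  refine ⟨π, fun h y => ?_, fun m => ?_⟩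
  · rw [hπ, hπ, Finset.smul_sum, ← Equiv.sum_comp (Equiv.mulLeft h)]
    refine Finset.sum_congr rfl fun g _ => ?_
    have e2 : (h * g)⁻¹ • h • y = g⁻¹ • y := by
      rw [← mul_smul, mul_inv_rev, inv_mul_cancel_right]
    rw [Equiv.coe_mulLeft, e2, mul_smul]
  · have e1 : ∀ g : G, g • t (g⁻¹ • j m) = m := by
      intro g
      rw [← hjg, ht, smul_inv_smul]
    rw [hπ, Finset.sum_congr rfl fun g _ => e1 g, Finset.sum_const, Finset.card_univ,
      ← Nat.card_eq_fintype_card]
    obtain ⟨k, hk⟩ := hG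
    rw [hk, add_nsmul, one_nsmul, mul_comm, mul_nsmul', two_nsmul, h2, nsmul_zero, zero_add]

end Rf_aux

theorem mult_eq {G : Type} [Group G] [Finite G] (hG : Odd (Nat.card G))
    {F₁ F₂ : ∀ (M : Type) [AddCommGroup M] [DistribMulAction G M], ℕ} (h₁ : Mult G F₁)
    (h₂ : Mult G F₂)
    (hle : ∀ (M : Type) [AddCommGroup M] [DistribMulAction G M] [Finite M],
      (∀ m : M, m + m = 0) → F₁ M ≤ F₂ M)
    (hR : F₂ (Fn G (ZMod 2)) ≤ F₁ (Fn G (ZMod 2)))
    (M : Type) [AddCommGroup M] [DistribMulAction G M] [Finite M] (hM : ∀ m : M, m + m = 0) :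
    F₁ M = F₂ M := by
  have hfin : Finite (Fn G (ZMod 2)) := inferInstanceAs (Finite (G → ZMod 2))
  have hR2 : ∀ f : Fn G (ZMod 2), f + f = 0 := by
    intro f
    funext x
    exact CharTwo.add_self_eq_zero (f x)
  have hRe : F₁ (Fn G (ZMod 2)) = F₂ (Fn G (ZMod 2)) := le_antisymm (hle _ hR2) hR
  have hΦ : Finite (M →+ ZMod 2) := Finite.of_injective (fun φ => (φ : M → ZMod 2))
    DFunLike.coe_injective
  obtain ⟨k, ⟨eΦ⟩⟩ := Finite.exists_equiv_fin (M →+ ZMod 2)
  let φ : Fin k → (M →+ ZMod 2) := eΦ.symm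
  let j : M →+ (Fin k → Fn G (ZMod 2)) :=
    { toFun := fun m i => (fun x : G => φ i (x⁻¹ • m))
      map_zero' := by
        funext i x
        change φ i (x⁻¹ • (0 : M)) = 0
        rw [smul_zero, map_zero]
      map_add' := by
        intro m m'
        funext i x
        change φ i (x⁻¹ • (m + m')) = φ i (x⁻¹ • m) + φ i (x⁻¹ • m')
        rw [smul_add, map_add] }
  have hjg : ∀ (g : G) (m : M), j (g • m) = g • j m := by
    intro g m
    funext i x
    change φ i (x⁻¹ • g • m) = φ i ((g⁻¹ • x)⁻¹ • m)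
    rw [← mul_smul, smul_eq_mul, mul_inv_rev, inv_inv]
  have hj : Function.Injective j := by
    rw [injective_iff_map_eq_zero]
    intro m hm
    refine Rf_sep hM fun ψ => ?_
    have h1 := congrFun (congrFun hm (eΦ ψ)) (1 : G)
    change (eΦ.symm (eΦ ψ)) ((1 : G)⁻¹ • m) = 0 at h1
    rwa [Equiv.symm_apply_apply, inv_one, one_smul] at h1
  have hP2 : ∀ y : Fin k → Fn G (ZMod 2), y + y = 0 := fun y => funext fun i => hR2 (y i)
  obtain ⟨π, hπg, hπj⟩ := Rf_avg hG hM hP2 j hj hjg
  obtain ⟨N, iN1, iN2, iN3, e, hN2, he⟩ := Rf_split hP2 j π hjg hπg hπj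
  have e1 := h₁.iso _ _ e he
  have e2 := h₂.iso _ _ e he
  rw [h₁.prod, Rf_pow h₁] at e1
  rw [h₂.prod, Rf_pow h₂, ← hRe, ← e1] at e2
  have p1 := h₁.pos M
  have p2 := h₁.pos N
  have l1 := hle M hM
  have l2 := hle N hN2
  rcases l1.lt_or_eq with h | h
  · exfalso
    have h3 : F₁ M * F₁ N < F₂ M * F₁ N := Nat.mul_lt_mul_of_pos_right h p2
    have h4 : F₂ M * F₁ N ≤ F₂ M * F₂ N := Nat.mul_le_mul_left _ l2
    omega
  · exact h

end H76SD
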