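import Pool.Agent.H76.SD.Df

/-!
ROW Rg (project MP_78d38b_OD). About 150 lines: the regular module.
PROOF of hq_R. `R := Fn G (ZMod 2)`, basis `e_x` (`x : G`), `e_x = Pi.single x 1`; `g • e_x = e_(g x)` since `(g • f) y = f (g⁻¹ y)`. Let `Q := A.map (mk' B) ≤ X ⧸ B` (killed by two by `h2`, `Nat.card Q = B.relIndex A`: `H24TD.Bas_card`). An `f ∈ Hq D R A B` is determined by the values `f e_x ∈ Q`, with `f e_(d x) = d f e_x` for `d ∈ D`; conversely every function `q : G → Q` with `q (d x) = d (q x)` comes from a unique `f` (`f r = ∑ x, if r x = 0 then 0 else q x`, additive because `Q` is killed by two). These functions are in bijection with arbitrary functions from a set of representatives of the cosets `D x` (right cosets of `D`: `Quotient (QuotientGroup.rightRel D)`), whose number is `D.index` (`QuotientGroup.card_quotient_rightRel`).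
So the number is `Nat.card Q ^ D.index`. The action on `Q`: `H24TD.Mul_ac hB` (Pool/Agent/H24/TD/Mul.lean: `Mul_ac`, `Mul_ac_mk`, `Mul_ac_mul`, `Mul_ac_mem`, `Mul_mem`).
hq_RG: the same with `D = G` (prove both from a general lemma for a group `D` with an injective homomorphism to `G`, or hq_RG directly: `f ↦ f e_1`).
-/

set_option autoImplicit false
set_option linter.unusedSectionVars false
open scoped Classical

open WithZero NumberField IsDedekindDomain H38RT H76PP H30ZO H73P2 H30OD H36CY H24TD H88OD Pool.Agent.H10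
open H38T1 (SC sc scu rep eo la si OddP)

namespace H76SD

section Rg_aux

variable {D ι X : Type*} [Group D] [MulAction D ι] [Fintype ι] [AddCommGroup X]
  [DistribMulAction D X] {A B : AddSubgroup X}

/-- evaluation -/
noncomputable def Rg_ev (y : ι) : Fn ι (ZMod 2) →+ ZMod 2 where
  toFun r := r y
  map_zero' := rfl
  map_add' := fun _ _ => rfl

/-- the unit vectors -/
noncomputable def Rg_e (x : ι) : Fn ι (ZMod 2) := fun y => if y = x then 1 else 0

lemma Rg_smul_e (d : D) (x : ι) : d • Rg_e x = Rg_e (d • x) := by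
  funext y
  rw [Fn.smul_apply]
  unfold Rg_e
  by_cases h : y = d • x
  · rw [if_pos h, if_pos (by rw [h, inv_smul_smul])]
  · rw [if_neg h, if_neg (fun h' => h (by rw [← h', smul_inv_smul]))]

lemma Rg_z2 (a : ZMod 2) (h : a ≠ 0) : a = 1 := by
  revert a
  decide

lemma Rg_dec {Y : Type*} [AddCommGroup Y] (f : Fn ι (ZMod 2) →+ Y) (r : Fn ι (ZMod 2)) :
    f r = ∑ x, if r x = 0 then 0 else f (Rg_e x) := by
  have h : r = ∑ x, if r x = 0 then (0 : Fn ι (ZMod 2)) else Rg_e x := by
    funext y
    change Rg_ev y r = Rg_ev y (∑ x, if r x = 0 then (0 : Fn ι (ZMod 2)) else Rg_e x)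
    rw [map_sum, Finset.sum_eq_single y]
    · by_cases hy : r y = 0
      · rw [if_pos hy, map_zero]
        exact hy
      · rw [if_neg hy]
        change r y = if y = y then 1 else 0
        rw [if_pos rfl]
        exact Rg_z2 _ hy
    · intro x _ hx
      by_cases hy : r x = 0
      · rw [if_pos hy, map_zero]
      · rw [if_neg hy]
        change (if y = x then (1 : ZMod 2) else 0) = 0
        rw [if_neg (fun h => hx h.symm)]
    · intro h
      exact absurd (Finset.mem_univ y) h
  conv_lhs => rw [h]
  rw [map_sum]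
  apply Finset.sum_congr rfl
  intro x _
  split_ifs
  · exact map_zero f
  · rfl

/-- the homomorphism with given values on the unit vectors -/
noncomputable def Rg_f {Y : Type*} [AddCommGroup Y] (q : ι → Y) (h : ∀ x, 2 • q x = 0) :
    Fn ι (ZMod 2) →+ Y where
  toFun r := ∑ x, if r x = 0 then 0 else q x
  map_zero' := by
    apply Finset.sum_eq_zero
    intro x _
    rw [if_pos]
    rfl
  map_add' := by
    intro r r'
    rw [← Finset.sum_add_distrib]
    apply Finset.sum_congr rfl
    intro x _
    rw [Fn.add_apply]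
    by_cases h1 : r x = 0
    · rw [if_pos h1, h1, zero_add, zero_add]
    · by_cases h2 : r' x = 0
      · rw [if_pos h2, h2, add_zero, add_zero]
      · rw [if_neg h1, if_neg h2, Rg_z2 _ h1, Rg_z2 _ h2, if_pos (by decide), ← two_nsmul, h x]

lemma Rg_f_e {Y : Type*} [AddCommGroup Y] (q : ι → Y) (h : ∀ x, 2 • q x = 0) (x : ι) :
    Rg_f q h (Rg_e x) = q x := by
  change (∑ y, if (Rg_e x : Fn ι (ZMod 2)) y = 0 then 0 else q y) = q x
  rw [Finset.sum_eq_single x]
  · rw [if_neg]
    change ¬ (if x = x then (1 : ZMod 2) else 0) = 0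
    rw [if_pos rfl]
    decide
  · intro y _ hy
    rw [if_pos]
    change (if y = x then (1 : ZMod 2) else 0) = 0
    rw [if_neg hy]
  · intro h
    exact absurd (Finset.mem_univ x) h

lemma Rg_card (A B : AddSubgroup X) :
    Nat.card ↥(A.map (QuotientAddGroup.mk' B)) = B.relIndex A := by
  rw [← Bas_card A B]
  have h : (Bas_phi A B).range = A.map (QuotientAddGroup.mk' B) := by
    ext y
    rw [Bas_mem, AddSubgroup.mem_map]
    constructor
    · rintro ⟨a, ha, rfl⟩
      exact ⟨a, ha, rfl⟩
    · rintro ⟨a, ha, rfl⟩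
      exact ⟨a, ha, rfl⟩
  rw [h]

theorem Rg_main (hfree : ∀ (d : D) (x : ι), d • x = x → d = 1) (hA : Stab D A) (hB : Stab D B)
    (h2 : dbl A ≤ B) :
    hq D (Fn ι (ZMod 2)) A B =
      B.relIndex A ^ Nat.card (Quotient (MulAction.orbitRel D ι)) := by
  set O := Quotient (MulAction.orbitRel D ι) with hO
  let mk : ι → O := fun x => Quotient.mk (MulAction.orbitRel D ι) x
  have hmk : ∀ (d : D) (x : ι), mk (d • x) = mk x := by
    intro d x
    apply Quotient.sound
    exact (MulAction.orbitRel_apply).2 ⟨d, rfl⟩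
  have hmo : ∀ o : O, mk (Quotient.out o) = o := fun o => Quotient.out_eq o
  have hrep : ∀ x : ι, ∃ d : D, d • Quotient.out (mk x) = x := by
    intro x
    have h := Quotient.exact (hmo (mk x)).symm
    exact (MulAction.orbitRel_apply).1 h
  choose s hs using hrep
  have hs1 : ∀ (d : D) (x : ι), s (d • x) = d * s x := by
    intro d x
    have h1 := hs (d • x)
    rw [hmk] at h1
    have h3 : (d * s x)⁻¹ * s (d • x) = 1 := by
      apply hfree _ (Quotient.out (mk x))
      rw [mul_smul, h1, inv_smul_eq_iff, mul_smul, hs x]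
    exact (inv_mul_eq_one.1 h3).symm
  have hs2 : ∀ o : O, s (Quotient.out o) = 1 := by
    intro o
    have h1 := hs (Quotient.out o)
    rw [hmo] at h1
    exact hfree _ _ h1
  have hmem : ∀ f : ↥(Hq D (Fn ι (ZMod 2)) A B),
      (∀ m, f.1 m ∈ A.map (QuotientAddGroup.mk' B)) ∧ ∀ (g : D) m, f.1 (g • m) = Mul_ac hB g (f.1 m) :=
    fun f => (Mul_mem hB f.1).1 f.2
  let Φ : ↥(Hq D (Fn ι (ZMod 2)) A B) → (O → ↥(A.map (QuotientAddGroup.mk' B))) :=
    fun f o => ⟨f.1 (Rg_e (Quotient.out o)), (hmem f).1 _⟩
  have hval : ∀ (f : ↥(Hq D (Fn ι (ZMod 2)) A B)) (x : ι),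
      f.1 (Rg_e x) = Mul_ac hB (s x) (Φ f (mk x)) := by
    intro f x
    conv_lhs => rw [← hs x]
    rw [← Rg_smul_e, (hmem f).2]
  have hbij : Function.Bijective Φ := by
    constructor
    · intro f f' h
      apply Subtype.ext
      apply AddMonoidHom.ext
      intro r
      rw [Rg_dec f.1 r, Rg_dec f'.1 r]
      apply Finset.sum_congr rfl
      intro x _
      rw [hval f x, hval f' x, h]
    · intro v
      have hq2 : ∀ x : ι, 2 • Mul_ac hB (s x) (v (mk x)) = 0 := fun x =>
        Mul_two h2 (Mul_ac_mem hA hB (s x) (v (mk x)).2)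
      have hq3 : ∀ (d : D) (x : ι), Mul_ac hB (s (d • x)) (v (mk (d • x)) : X ⧸ B) =
          Mul_ac hB d (Mul_ac hB (s x) (v (mk x))) := by
        intro d x
        rw [hs1, hmk, Mul_ac_mul]
      refine ⟨⟨Rg_f (fun x => Mul_ac hB (s x) (v (mk x))) hq2, ?_⟩, ?_⟩
      · rw [Mul_mem hB]
        constructor
        · intro r
          change (∑ x, if r x = 0 then 0 else Mul_ac hB (s x) (v (mk x) : X ⧸ B)) ∈ _
          apply sum_mem
          intro x _
          split_ifs
          · exact zero_mem _
          · exact Mul_ac_mem hA hB (s x) (v (mk x)).2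
        · intro d r
          change (∑ x, if (d • r) x = 0 then 0 else Mul_ac hB (s x) (v (mk x) : X ⧸ B)) =
            Mul_ac hB d (∑ x, if r x = 0 then 0 else Mul_ac hB (s x) (v (mk x) : X ⧸ B))
          rw [map_sum, ← Equiv.sum_comp (MulAction.toPerm d)]
          apply Finset.sum_congr rfl
          intro x _
          rw [MulAction.toPerm_apply, Fn.smul_apply, inv_smul_smul, hq3]
          split_ifs
          · rw [map_zero]
          · rfl
      · funext o
        apply Subtype.ext
        change Rg_f (fun x => Mul_ac hB (s x) (v (mk x) : X ⧸ B)) hq2 (Rg_e (Quotient.out o)) = v o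
        rw [Rg_f_e, hs2, hmo, Mul_ac_one]
  unfold hq
  rw [Nat.card_congr (Equiv.ofBijective Φ hbij), Nat.card_fun, Rg_card]

end Rg_aux

theorem hq_R {G X : Type} [Group G] [Finite G] (D : Subgroup G) [AddCommGroup X]
    [DistribMulAction D X] {A B : AddSubgroup X} (hA : Stab D A) (hB : Stab D B) (h2 : dbl A ≤ B)
    (hfin : B.relIndex A ≠ 0) : hq D (Fn G (ZMod 2)) A B = B.relIndex A ^ D.index := by
  have : Fintype G := Fintype.ofFinite G
  rw [Rg_main (D := D) (ι := G) (fun d x h => ?_) hA hB h2]
  · congr 1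
    change Nat.card (Quotient (QuotientGroup.rightRel D)) = D.index
    rw [Subgroup.index]
    exact Nat.card_congr (QuotientGroup.quotientRightRelEquivQuotientLeftRel D)
  · have h1 : (d : G) * x = x := h
    exact Subtype.ext (mul_eq_right.1 h1)

theorem hq_RG {G X : Type} [Group G] [Finite G] [AddCommGroup X] [DistribMulAction G X]
    {A B : AddSubgroup X} (hA : Stab G A) (hB : Stab G B) (h2 : dbl A ≤ B)
    (hfin : B.relIndex A ≠ 0) : hq G (Fn G (ZMod 2)) A B = B.relIndex A := by
  have : Fintype G := Fintype.ofFinite G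
  rw [Rg_main (D := G) (ι := G) (fun d x h => ?_) hA hB h2]
  · have h1 : Nat.card (Quotient (MulAction.orbitRel G G)) = 1 := by
      rw [Nat.card_eq_one_iff_unique]
      refine ⟨⟨fun a b => ?_⟩, ⟨Quotient.mk _ 1⟩⟩
      induction a using Quotient.inductionOn with
      | _ a =>
      induction b using Quotient.inductionOn with
      | _ b =>
      apply Quotient.sound
      exact (MulAction.orbitRel_apply).2 ⟨a * b⁻¹, by
        change a * b⁻¹ * b = a
        rw [inv_mul_cancel_right]⟩
    rw [h1, pow_one]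
  · have h1 : d * x = x := h
    exact mul_eq_right.1 h1

end H76SD
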