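import Pool.Agent.H76.SD.Rb

/-!
ROW Rh (project MP_78d38b_OD). About 100 lines: two special cases.
sd_triv: `D` trivial. `M` finite, `2 M = 0`: `M` and `Du M` are vector spaces over `ZMod 2` of the same finite cardinality, so there is an additive bijection `e : M ≃+ Du M` (`AddCommGroup.zmodModule`, `LinearEquiv` of finite dimensional spaces of equal dimension; `Nat.card (Du M) = Nat.card M`: `H26OD.card_du` or the dual space), equivariant because `g • m = m` for the only element `g = 1` of `D`; `f ↦ f.comp e.symm` is a bijection `Hq D M A B → Hq D (Du M) A B` (the second condition: `g = 1`, `one_smul`).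
sd_four: `A` has at most four elements, `2 A = 0`, so `Nat.card A ∈ {1, 2, 4}` (a vector space over `ZMod 2`). sd_pair with `B = ⊥` and `p x y := if Nat.card A ≤ 2 then (if x = 0 ∨ y = 0 then 0 else 1) else (if x = 0 ∨ y = 0 ∨ x = y then 0 else 1)`. It is symmetric, invariant under every injective map fixing zero (`g • x = 0 ↔ x = 0`, `g • x = g • y ↔ x = y`). Additivity in the first variable: if `Nat.card A ≤ 2`: `A = {0}` or `A = {0, c}`; case check. If `Nat.card A = 4`: for `x, x', y ∈ A`; trivial if one of `x, x', y` is zero or `x = x'` (then `x + x' = 0`); otherwise `x, x', x + x'` are the three nonzero elements and `y` is one of them: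
exactly one of the three terms `p x y, p x' y, p (x + x') y` is zero. Nondegenerate: `x ≠ 0`: for card `≤ 2` take `y = x`; for card 4 take `y ∉ {0, x}`.
-/

set_option autoImplicit false
set_option linter.unusedSectionVars false
open scoped Classical

open WithZero NumberField IsDedekindDomain H38RT H76PP H30ZO H73P2 H30OD H36CY H24TD H88OD Pool.Agent.H10
open H38T1 (SC sc scu rep eo la si OddP)

namespace H76SD

/-- The dual of a finite group killed by two is isomorphic to it. -/
theorem Rh_du {M : Type} [AddCommGroup M] [Finite M] (h2 : ∀ m : M, m + m = 0) :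
    Nonempty (M ≃+ H26OD.Du M) := by
  let i1 : Module (ZMod 2) M := AddCommGroup.zmodModule (fun x => by rw [two_nsmul]; exact h2 x)
  let b := Module.finBasis (ZMod 2) M
  let e1 : M ≃+ (M →ₗ[ZMod 2] ZMod 2) := b.toDualEquiv.toAddEquiv
  let e2 : (M →+ ZMod 2) ≃+ (M →ₗ[ZMod 2] ZMod 2) := AddMonoidHom.toZModLinearMapEquiv 2
  exact ⟨(e1.trans e2.symm : M ≃+ (M →+ ZMod 2))⟩

theorem Rh_le {X : Type} [AddCommGroup X] {A : AddSubgroup X} (hf : Finite A) (s : Finset X)
    (hs : ∀ x ∈ s, x ∈ A) : s.card ≤ Nat.card A := by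
  have h1 : (s : Set X).ncard ≤ (A : Set X).ncard :=
    Set.ncard_le_ncard (fun x hx => hs x (Finset.mem_coe.1 hx)) (Set.toFinite (A : Set X))
  rw [Set.ncard_coe_finset] at h1
  exact h1

theorem Rh_ge {X : Type} [AddCommGroup X] {A : AddSubgroup X} (s : Finset X)
    (hs : ∀ x ∈ A, x ∈ s) : Nat.card A ≤ s.card := by
  have h1 : (A : Set X).ncard ≤ (s : Set X).ncard :=
    Set.ncard_le_ncard (fun x hx => Finset.mem_coe.2 (hs x hx)) s.finite_toSet
  rw [Set.ncard_coe_finset] at h1
  exact h1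

theorem Rh_two {X : Type} [AddCommGroup X] {A : AddSubgroup X} (hf : Finite A)
    (hc : Nat.card A ≤ 2) {x y : X} (hx : x ∈ A) (hy : y ∈ A) (hx0 : x ≠ 0) (hy0 : y ≠ 0) :
    x = y := by
  by_contra hne
  have h1 := Rh_le hf ({0, x, y} : Finset X) (by
    intro z hz
    rcases Finset.mem_insert.1 hz with h | h
    · rw [h]
      exact A.zero_mem
    rcases Finset.mem_insert.1 h with h | h
    · rw [h]
      exact hx
    · rw [Finset.mem_singleton.1 h]
      exact hy)
  have h2 : ({0, x, y} : Finset X).card = 3 :=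
    Finset.card_eq_three.2 ⟨0, x, y, hx0.symm, hy0.symm, hne, rfl⟩
  omega

theorem Rh_four {X : Type} [AddCommGroup X] {A : AddSubgroup X} (hf : Finite A)
    (h2 : ∀ x ∈ A, x + x = 0) (hc : Nat.card A ≤ 4) {x x' y : X} (hx : x ∈ A) (hx' : x' ∈ A)
    (hy : y ∈ A) (hx0 : x ≠ 0) (hx0' : x' ≠ 0) (hy0 : y ≠ 0) (hne : x ≠ x') :
    y = x ∨ y = x' ∨ y = x + x' := by
  by_contra hcon
  push Not at hcon
  obtain ⟨c1, c2, c3⟩ := hcon
  have h1 := Rh_le hf ({x + x', 0, x, x', y} : Finset X) (by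
    intro z hz
    rcases Finset.mem_insert.1 hz with h | h
    · rw [h]
      exact A.add_mem hx hx'
    rcases Finset.mem_insert.1 h with h | h
    · rw [h]
      exact A.zero_mem
    rcases Finset.mem_insert.1 h with h | h
    · rw [h]
      exact hx
    rcases Finset.mem_insert.1 h with h | h
    · rw [h]
      exact hx'
    · rw [Finset.mem_singleton.1 h]
      exact hy)
  have e1 : x + x' ≠ 0 := fun h => hne (add_right_cancel (h.trans (h2 x' hx').symm))
  have e2 : x + x' ≠ x := fun h => hx0' (by simpa using h)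
  have e3 : x + x' ≠ x' := fun h => hx0 (by simpa using h)
  have h3 : ({x, x', y} : Finset X).card = 3 :=
    Finset.card_eq_three.2 ⟨x, x', y, hne, c1.symm, c2.symm, rfl⟩
  have h4 : (0 : X) ∉ ({x, x', y} : Finset X) := by
    rw [Finset.mem_insert, Finset.mem_insert, Finset.mem_singleton]
    rintro (h | h | h)
    · exact hx0 h.symm
    · exact hx0' h.symm
    · exact hy0 h.symm
  have h5 : x + x' ∉ ({0, x, x', y} : Finset X) := by
    rw [Finset.mem_insert, Finset.mem_insert, Finset.mem_insert, Finset.mem_singleton]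
    rintro (h | h | h | h)
    · exact e1 h
    · exact e2 h
    · exact e3 h
    · exact c3 h.symm
  have h6 : ({x + x', 0, x, x', y} : Finset X).card = 5 := by
    rw [Finset.card_insert_of_notMem h5, Finset.card_insert_of_notMem h4, h3]
  omega

theorem Rh_third {X : Type} [AddCommGroup X] {A : AddSubgroup X} (hc : ¬ Nat.card A ≤ 2) (x : X) :
    ∃ y ∈ A, y ≠ 0 ∧ y ≠ x := by
  by_contra hcon
  push Not at hcon
  have h1 := Rh_ge (A := A) ({0, x} : Finset X) (by
    intro z hz
    by_cases h : z = 0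
    · rw [h]
      exact Finset.mem_insert_self _ _
    · rw [hcon z hz h]
      exact Finset.mem_insert_of_mem (Finset.mem_singleton_self _))
  exact hc (h1.trans Finset.card_le_two)

/-- The pairing on a group of at most four elements. -/
noncomputable def Rh_p {X : Type} [AddCommGroup X] (A : AddSubgroup X) (x y : X) : ZMod 2 :=
  if x = 0 ∨ y = 0 ∨ (¬ Nat.card A ≤ 2 ∧ x = y) then 0 else 1

theorem Rh_p_zero {X : Type} [AddCommGroup X] {A : AddSubgroup X} {x y : X}
    (h : x = 0 ∨ y = 0 ∨ (¬ Nat.card A ≤ 2 ∧ x = y)) : Rh_p A x y = 0 := if_pos h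

theorem Rh_p_one {X : Type} [AddCommGroup X] {A : AddSubgroup X} {x y : X} (hx : x ≠ 0)
    (hy : y ≠ 0) (h : Nat.card A ≤ 2 ∨ x ≠ y) : Rh_p A x y = 1 := by
  refine if_neg ?_
  rintro (h1 | h1 | ⟨h1, h2⟩)
  · exact hx h1
  · exact hy h1
  · rcases h with h | h
    · exact h1 h
    · exact h h2

theorem Rh_p_add {X : Type} [AddCommGroup X] {A : AddSubgroup X} (hf : Finite A)
    (h2 : ∀ x ∈ A, x + x = 0) (hc : Nat.card A ≤ 4) {x x' y : X} (hx : x ∈ A) (hx' : x' ∈ A)
    (hy : y ∈ A) : Rh_p A (x + x') y = Rh_p A x y + Rh_p A x' y := by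
  by_cases hy0 : y = 0
  · rw [Rh_p_zero (Or.inr (Or.inl hy0)), Rh_p_zero (Or.inr (Or.inl hy0)),
      Rh_p_zero (Or.inr (Or.inl hy0)), add_zero]
  by_cases hx0 : x = 0
  · rw [hx0, zero_add, Rh_p_zero (x := 0) (Or.inl rfl), zero_add]
  by_cases hx0' : x' = 0
  · rw [hx0', add_zero, Rh_p_zero (x := 0) (Or.inl rfl), add_zero]
  by_cases hne : x = x'
  · rw [hne, h2 x' hx', Rh_p_zero (x := 0) (Or.inl rfl), CharTwo.add_self_eq_zero]
  have hc2 : ¬ Nat.card A ≤ 2 := fun h => hne (Rh_two hf h hx hx' hx0 hx0')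
  have e1 : x + x' ≠ 0 := fun h => hne (add_right_cancel (h.trans (h2 x' hx').symm))
  have e2 : x + x' ≠ x := fun h => hx0' (by simpa using h)
  have e3 : x + x' ≠ x' := fun h => hx0 (by simpa using h)
  rcases Rh_four hf h2 hc hx hx' hy hx0 hx0' hy0 hne with h | h | h
  · rw [h, Rh_p_one e1 hx0 (Or.inr e2), Rh_p_zero (x := x) (y := x) (Or.inr (Or.inr ⟨hc2, rfl⟩)),
      Rh_p_one hx0' hx0 (Or.inr (Ne.symm hne)), zero_add]
  · rw [h, Rh_p_one e1 hx0' (Or.inr e3), Rh_p_zero (x := x') (y := x') (Or.inr (Or.inr ⟨hc2, rfl⟩)),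
      Rh_p_one hx0 hx0' (Or.inr hne), add_zero]
  · rw [h, Rh_p_zero (x := x + x') (y := x + x') (Or.inr (Or.inr ⟨hc2, rfl⟩)),
      Rh_p_one hx0 e1 (Or.inr (Ne.symm e2)), Rh_p_one hx0' e1 (Or.inr (Ne.symm e3)),
      CharTwo.add_self_eq_zero]

theorem Rh_p_iff {X : Type} [AddCommGroup X] {A : AddSubgroup X} {x y z w : X}
    (h : (x = 0 ∨ y = 0 ∨ (¬ Nat.card A ≤ 2 ∧ x = y)) ↔
      (z = 0 ∨ w = 0 ∨ (¬ Nat.card A ≤ 2 ∧ z = w))) : Rh_p A x y = Rh_p A z w := by
  unfold Rh_p
  by_cases h1 : (x = 0 ∨ y = 0 ∨ (¬ Nat.card A ≤ 2 ∧ x = y))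
  · rw [if_pos h1, if_pos (h.1 h1)]
  · rw [if_neg h1, if_neg (fun h2 => h1 (h.2 h2))]

theorem sd_triv {D X : Type} [Group D] [Subsingleton D] [AddCommGroup X] [DistribMulAction D X]
    {A B : AddSubgroup X} : Sd D A B := by
  intro M _ _ _ hM
  obtain ⟨e⟩ := Rh_du hM
  refine Nat.card_congr
    { toFun := fun f => ⟨f.1.comp (e.symm : H26OD.Du M →+ M), ?_, ?_⟩
      invFun := fun f => ⟨f.1.comp (e : M →+ H26OD.Du M), ?_, ?_⟩
      left_inv := ?_
      right_inv := ?_ }
  · intro m
    exact f.2.1 (e.symm m)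
  · intro g m x h
    obtain rfl : g = 1 := Subsingleton.elim _ _
    rw [one_smul, one_smul]
    exact h
  · intro m
    exact f.2.1 (e m)
  · intro g m x h
    obtain rfl : g = 1 := Subsingleton.elim _ _
    rw [one_smul, one_smul]
    exact h
  · intro f
    apply Subtype.ext
    apply DFunLike.ext
    intro m
    change f.1 (e.symm (e m)) = f.1 m
    rw [AddEquiv.symm_apply_apply]
  · intro f
    apply Subtype.ext
    apply DFunLike.ext
    intro m
    change f.1 (e (e.symm m)) = f.1 m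
    rw [AddEquiv.apply_symm_apply]

theorem sd_four {G X : Type} [Group G] [Finite G] (hG : Odd (Nat.card G)) [AddCommGroup X]
    [DistribMulAction G X] {A : AddSubgroup X} (hA : Stab G A) (h2 : ∀ x ∈ A, x + x = 0)
    (hf : Finite A) (hc : Nat.card A ≤ 4) : Sd G A ⊥ := by
  refine sd_pair hG hA ?_ bot_le ?_ ?_ (Rh_p A) ?_ ?_ ?_ ?_
  · intro g x hx
    rw [AddSubgroup.mem_bot] at hx ⊢
    rw [hx, smul_zero]
  · intro x hx
    obtain ⟨a, ha, rfl⟩ := mem_dbl.1 hx
    rw [AddSubgroup.mem_bot, two_zsmul]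
    exact h2 a ha
  · rw [AddSubgroup.relIndex_bot_left]
    exact Nat.card_pos.ne'
  · intro x _ y _
    apply Rh_p_iff
    constructor
    · rintro (h | h | ⟨h, h'⟩)
      · exact Or.inr (Or.inl h)
      · exact Or.inl h
      · exact Or.inr (Or.inr ⟨h, h'.symm⟩)
    · rintro (h | h | ⟨h, h'⟩)
      · exact Or.inr (Or.inl h)
      · exact Or.inl h
      · exact Or.inr (Or.inr ⟨h, h'.symm⟩)
  · intro x hx x' hx' y hy
    exact Rh_p_add hf h2 hc hx hx' hy
  · intro g x _ y _
    apply Rh_p_iff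
    rw [smul_eq_zero_iff_eq, smul_eq_zero_iff_eq, smul_left_cancel_iff]
  · intro x hx
    constructor
    · intro h y _
      exact Rh_p_zero (Or.inl (AddSubgroup.mem_bot.1 h))
    · intro h
      rw [AddSubgroup.mem_bot]
      by_contra hx0
      by_cases hc2 : Nat.card A ≤ 2
      · have h1 := h x hx
        rw [Rh_p_one hx0 hx0 (Or.inl hc2)] at h1
        exact one_ne_zero h1
      · obtain ⟨y, hy, hy0, hyx⟩ := Rh_third hc2 x
        have h1 := h y hy
        rw [Rh_p_one hx0 hy0 (Or.inr (Ne.symm hyx))] at h1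
        exact one_ne_zero h1

end H76SD
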