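import Pool.Agent.H76.SD.Df

/-!
ROW Ri (project MP_78d38b_OD). About 120 lines: representatives of the orbits.
PROOF. The orbits of `G` on `S` are a finite partition. Choose one element of each orbit: e.g. `MulAction` structure from `α` (local instance `smul := α`), `R := S.image (fun i => (Quotient.mk (MulAction.orbitRel G I) i).out)`: the representative of the orbit of `i ∈ S` is `α g i` for some `g`, so it lies in `S`. Every `i ∈ S` is `α g j` with `j` the representative. Different elements of `R` lie in different orbits. The product over `S` is the product over `R` of the products over the orbits (`Finset.prod_fiberwise_of_maps_to` for the map `i ↦` representative),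
`f` is constant on the orbit of `j`, whose size is `(D j).index` (`MulAction.index_stabilizer` / `MulAction.card_orbit_mul_card_stabilizer_eq_card_group`, the stabilizer of `j` is `D j` by `hD`).
-/

set_option autoImplicit false
set_option linter.unusedSectionVars false
open scoped Classical

open WithZero NumberField IsDedekindDomain H38RT H76PP H30ZO H73P2 H30OD H36CY H24TD H88OD Pool.Agent.H10
open H38T1 (SC sc scu rep eo la si OddP)

namespace H76SD

theorem exists_reps {G I : Type} [Group G] [Finite G] (α : G → I → I) (h1 : ∀ i, α 1 i = i)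
    (hm : ∀ g h i, α (g * h) i = α g (α h i)) (D : I → Subgroup G)
    (hD : ∀ g i, g ∈ D i ↔ α g i = i) (S : Finset I) (hS : ∀ g, ∀ i ∈ S, α g i ∈ S) :
    ∃ R ⊆ S, (∀ i ∈ S, ∃ g, ∃ j ∈ R, i = α g j) ∧
      ∀ f : I → ℕ, (∀ g i, f (α g i) = f i) → ∏ i ∈ S, f i = ∏ i ∈ R, f i ^ (D i).index := by
  letI : MulAction G I := { smul := α, one_smul := h1, mul_smul := hm }
  have hsm : ∀ (g : G) (i : I), g • i = α g i := fun _ _ => rfl
  let r : I → I := fun i => (Quotient.mk (MulAction.orbitRel G I) i).out
  have hr : ∀ i, ∃ g : G, g • i = r i := fun i => by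
    have h : (MulAction.orbitRel G I) (r i) i := Quotient.mk_out (s := MulAction.orbitRel G I) i
    rw [MulAction.orbitRel_apply] at h
    exact MulAction.mem_orbit_iff.1 h
  have hrr : ∀ i, r (r i) = r i := fun i => by
    change (Quotient.mk (MulAction.orbitRel G I) (Quotient.mk (MulAction.orbitRel G I) i).out).out
      = (Quotient.mk (MulAction.orbitRel G I) i).out
    rw [Quotient.out_eq]
  have hro : ∀ (g : G) (i : I), r (g • i) = r i := fun g i => by
    have h : Quotient.mk (MulAction.orbitRel G I) (g • i) = Quotient.mk (MulAction.orbitRel G I) i := by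
      apply Quotient.sound
      change (MulAction.orbitRel G I) (g • i) i
      rw [MulAction.orbitRel_apply]
      exact MulAction.mem_orbit i g
    change (Quotient.mk (MulAction.orbitRel G I) (g • i)).out
      = (Quotient.mk (MulAction.orbitRel G I) i).out
    rw [h]
  have hrS : ∀ i ∈ S, r i ∈ S := fun i hi => by
    obtain ⟨g, hg⟩ := hr i
    rw [← hg, hsm]
    exact hS g i hi
  refine ⟨S.image r, ?_, ?_, ?_⟩
  · intro j hj
    obtain ⟨i, hi, rfl⟩ := Finset.mem_image.1 hj
    exact hrS i hi
  · intro i hi
    obtain ⟨g, hg⟩ := hr i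
    refine ⟨g⁻¹, r i, Finset.mem_image_of_mem r hi, ?_⟩
    rw [← hsm, ← hg, inv_smul_smul]
  · intro f hf
    rw [← Finset.prod_fiberwise_of_maps_to (g := r) (t := S.image r)
      (fun x hx => Finset.mem_image_of_mem r hx)]
    refine Finset.prod_congr rfl ?_
    intro j hj
    obtain ⟨i, hi, rfl⟩ := Finset.mem_image.1 hj
    have hc : ∀ x ∈ S.filter (fun x => r x = r i), f x = f (r i) := by
      intro x hx
      obtain ⟨hxS, hx⟩ := Finset.mem_filter.1 hx
      obtain ⟨g, hg⟩ := hr x
      rw [← hx, ← hg, hsm, hf]
    rw [Finset.prod_congr rfl hc, Finset.prod_const]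
    congr 1
    have hst : D (r i) = MulAction.stabilizer G (r i) := by
      ext g
      rw [hD, MulAction.mem_stabilizer_iff, hsm]
    rw [hst, MulAction.index_stabilizer, ← Set.ncard_coe_finset]
    congr 1
    ext x
    rw [Finset.mem_coe, Finset.mem_filter, MulAction.mem_orbit_iff]
    constructor
    · rintro ⟨-, hx⟩
      obtain ⟨g, hg⟩ := hr x
      refine ⟨g⁻¹, ?_⟩
      rw [← hx, ← hg, inv_smul_smul]
    · rintro ⟨g, rfl⟩
      refine ⟨?_, ?_⟩
      · rw [hsm]
        exact hS g _ (hrS i hi)
      · rw [hro, hrr]

end H76SD
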