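import Pool.Agent.H76.SD.Df
import Pool.Agent.H36.MX.Hg

/-!
ROW Sb (project MP_78d38b_OD). About 120 lines: nondegeneracy of the local Hilbert symbols, simultaneously at a finite set.
PROOF. `F₀ := w₀.adicCompletion N`, `HF F₀` is `H36MX.hf_all w₀`: there is `b ∈ F₀`, `b ≠ 0`, `hs x b = 1`. Squares are open: there is `M` such that every `t` in a completion (at a `w ∈ W`) with `Valued.v (t - 1) ≤ exp (-M)` is a square (for instance `e2 w`, `2 e2 w + 1 ≤ M`: see `H30ZO.Ac`/`H36MX` or `H54MT.tp_near_sq`; a Hensel lemma for `1 + 4 p` is `H30ZO.sqrt_alg`-like; `H36CY` has one too: grep for `IsSquare` with `Valued.v (x - 1) <`).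
Choose `y₀ : N` with `Valued.v (algebraMap y₀ - b) < Valued.v b * exp (-M)` (density, `H36CY.near_coe`) and `y : N` with `w₀.valuation N (y - y₀)` very small (smaller than `exp (-M) * w₀.valuation N y₀`) and `w.valuation N (y - 1) < exp (-M)` for the other `w ∈ W` (`H30OD.weak_app`). Then `y ≠ 0`, `y / b` is a square at `w₀`, so `hs x y = hs x b = 1` (`H36MX.hs_congr_right`), and `y` is a square at the other `w`, so `hs x y = 0` (`H36MX.hs_of_sq`, `hs_comm`). (If `W = {w₀}`: the same.)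
-/

set_option autoImplicit false
set_option linter.unusedSectionVars false
open scoped Classical

open WithZero NumberField IsDedekindDomain H38RT H76PP H30ZO H73P2 H30OD H36CY H24TD H88OD Pool.Agent.H10
open H38T1 (SC sc scu rep eo la si OddP)

namespace H76SD

private lemma Sb_low {ι : Type} (W : Finset ι) (f : ι → WithZero (Multiplicative ℤ))
    (hf : ∀ w ∈ W, f w ≠ 0) : ∃ ε : WithZero (Multiplicative ℤ), ε ≠ 0 ∧ ∀ w ∈ W, ε ≤ f w := by
  induction W using Finset.induction_on with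
  | empty => exact ⟨1, one_ne_zero, fun w hw => absurd hw (Finset.notMem_empty w)⟩
  | insert a s ha ih =>
    obtain ⟨ε, hε, h⟩ := ih (fun w hw => hf w (Finset.mem_insert_of_mem hw))
    refine ⟨min ε (f a), ?_, fun w hw => ?_⟩
    · rcases min_choice ε (f a) with h1 | h1
      · rw [h1]
        exact hε
      · rw [h1]
        exact hf a (Finset.mem_insert_self a s)
    · rcases Finset.mem_insert.mp hw with rfl | hw
      · exact min_le_right _ _
      · exact (min_le_left _ _).trans (h w hw)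

theorem exists_nd {N : Type} [Field N] [NumberField N] (W : Finset (HeightOneSpectrum (𝓞 N)))
    {x : N} (hx : x ≠ 0) {w₀ : HeightOneSpectrum (𝓞 N)} (hw₀ : w₀ ∈ W)
    (hns : ¬ IsSquare (algebraMap N (w₀.adicCompletion N) x)) :
    ∃ y : N, y ≠ 0 ∧ H36MX.hsv w₀ x y = 1 ∧ ∀ w ∈ W, w ≠ w₀ → H36MX.hsv w x y = 0 := by
  have hx0 : algebraMap N (w₀.adicCompletion N) x ≠ 0 := (map_ne_zero _).2 hx
  obtain ⟨b, hb, hb1⟩ := (H36MX.hf_all w₀).nd _ hx0 hns
  have hch := H36CY.char_zero w₀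
  have h4b : (4 : w₀.adicCompletion N) * b ≠ 0 := mul_ne_zero (by norm_num) hb
  obtain ⟨y₀, hy₀⟩ := H36CY.near_coe w₀ b h4b
  obtain ⟨r, hr, hyr⟩ := H36CY.sq_near hy₀
  have hy₀0 : y₀ ≠ 0 := by
    rintro rfl
    rw [map_zero] at hyr
    exact (mul_ne_zero hb (pow_ne_zero 2 hr)) hyr.symm
  have hz : ∀ w : HeightOneSpectrum (𝓞 N), (if w = w₀ then y₀ else 1) ≠ 0 := by
    intro w
    split_ifs
    · exact hy₀0
    · exact one_ne_zero
  obtain ⟨ε, hε, hεw⟩ := Sb_low W
    (fun w => w.valuation N (4 * (if w = w₀ then y₀ else 1)))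
    (fun w _ => (Valuation.ne_zero_iff _).2 (mul_ne_zero (by norm_num) (hz w)))
  obtain ⟨y, hy⟩ := weak_app W (fun w => if w = w₀ then y₀ else 1) hε
  have key : ∀ w ∈ W, ∃ s : w.adicCompletion N, s ≠ 0 ∧
      algebraMap N (w.adicCompletion N) y =
        algebraMap N (w.adicCompletion N) (if w = w₀ then y₀ else 1) * s ^ 2 :=
    fun w hw => H36CY.sq_near' w (lt_of_lt_of_le (hy w hw) (hεw w hw))
  obtain ⟨s, hs, hys⟩ := key w₀ hw₀
  rw [if_pos rfl] at hys
  have hy0 : y ≠ 0 := by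
    rintro rfl
    rw [map_zero] at hys
    exact (mul_ne_zero ((map_ne_zero _).2 hy₀0) (pow_ne_zero 2 hs)) hys.symm
  refine ⟨y, hy0, ?_, fun w hw hne => ?_⟩
  · unfold H36MX.hsv
    rw [H36MX.hs_congr_right hs hys, H36MX.hs_congr_right hr hyr]
    exact hb1
  · obtain ⟨t, ht, hyt⟩ := key w hw
    rw [if_neg hne, map_one, one_mul] at hyt
    unfold H36MX.hsv
    rw [H36MX.hs_comm]
    exact H36MX.hs_of_sq ((map_ne_zero _).2 hy0) ⟨t, by rw [hyt, sq]⟩

end H76SD
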