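import Pool.Agent.H76.SD.Rb
import Pool.Agent.H76.SD.Sa
import Pool.Agent.H76.SD.Sb

/-!
ROW Sc (project MP_78d38b_OD). About 100 lines: the local square classes are self-dual. Use only the STATEMENTS of Rb, Sa, Sb.
PROOF. sd_pair with `A = ⊤`, `B = ⨅ w ∈ W, Sq w`, `p c d := ∑ w ∈ W, H36MX.hsv w (rep c) (rep d)`. Symmetric: `H36MX.hs_comm`. Additive: `rep (c + c') = rep c * rep c' * r^2` up to a square (`H24TD.Lo_rep`, or `H36MX.Hh_rep`), `H36MX.HF.mul` (`hf_all`), `hs_congr`, `hs_sq`. Invariant: `W` is stable under `σ g`, so reindex the sum by `w ↦ σ g • w` (a bijection of `W`: injective on a finite set, `Finset.sum_nbij'` with `σ g⁻¹`); `rep (σ g • c) = σ g (rep c) * r^2` (`sc (σ g (rep c)) = σ g • sc (rep c) = σ g • c`), `hsv_smul`.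
Kernel: `c = sc x`, `x := rep c ≠ 0`. If `c ∈ Sq w` for all `w ∈ W` then `x` is a square at `w` (`mem_Sq`, `sc_rep`) and all symbols are 0. If `c ∉ Sq w₀` then exists_nd gives `y`, and `p c (sc y) = 1` (`rep (sc y) = y r^2`, `hs_congr_right`).
Finite index: `(Sq w).index = 4 * qq w ≠ 0` (`H30ZO.index_Sq`), finite intersections: `AddSubgroup.index_iInf_ne_zero` or induction with `relIndex`; `relIndex_top_right`. `dbl ⊤ ≤ B`: `2 • c = 0` (`H38T1.SC.two_smul`). Stab: `Sq_smul`.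
-/

set_option autoImplicit false
set_option linter.unusedSectionVars false
open scoped Classical

open WithZero NumberField IsDedekindDomain H38RT H76PP H30ZO H73P2 H30OD H36CY H24TD H88OD Pool.Agent.H10
open H38T1 (SC sc scu rep eo la si OddP)

namespace H76SD

private theorem Sc_left {N : Type} [Field N] [NumberField N] (w : HeightOneSpectrum (𝓞 N))
    {a x t : N} (ht : t ≠ 0) (h : a = x * t ^ 2) (y : N) : H36MX.hsv w a y = H36MX.hsv w x y := by
  unfold H36MX.hsv
  rw [h, map_mul, map_pow]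
  exact H36MX.hs_sq ((map_ne_zero (algebraMap N (w.adicCompletion N))).2 ht)

private theorem Sc_right {N : Type} [Field N] [NumberField N] (w : HeightOneSpectrum (𝓞 N))
    {a x t : N} (ht : t ≠ 0) (h : a = x * t ^ 2) (y : N) : H36MX.hsv w y a = H36MX.hsv w y x := by
  unfold H36MX.hsv
  rw [H36MX.hs_comm, h, map_mul, map_pow,
    H36MX.hs_sq ((map_ne_zero (algebraMap N (w.adicCompletion N))).2 ht), H36MX.hs_comm]

private theorem Sc_mem {N : Type} [Field N] [NumberField N] {W : Finset (HeightOneSpectrum (𝓞 N))}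
    {c : SC N} : c ∈ (⨅ w ∈ W, Sq w : AddSubgroup (SC N)) ↔ ∀ w ∈ W, c ∈ Sq w := by
  simp only [AddSubgroup.mem_iInf]

private theorem Sc_Sq {N : Type} [Field N] [NumberField N] {w : HeightOneSpectrum (𝓞 N)}
    {c : SC N} : c ∈ Sq w ↔ IsSquare (algebraMap N (w.adicCompletion N) (H38T1.rep c)) := by
  rw [← mem_Sq (H38T1.rep_ne c), H38T1.sc_rep]

theorem fin_places {N : Type} [Field N] [NumberField N] (W : Finset (HeightOneSpectrum (𝓞 N))) :
    (⨅ w ∈ W, Sq w : AddSubgroup (SC N)).relIndex ⊤ ≠ 0 := by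
  rw [AddSubgroup.relIndex_top_right]
  have h1 : (⨅ w ∈ W, Sq w : AddSubgroup (SC N)) = ⨅ w : W, Sq w.1 := by
    rw [iInf_subtype']
  rw [h1]
  apply AddSubgroup.index_iInf_ne_zero
  intro w
  rw [index_Sq]
  have h2 : qq w.1 ≠ 0 := by
    unfold H30ZO.qq H76PP.Nv
    refine pow_ne_zero _ fun h => w.1.ne_bot ?_
    exact Ideal.absNorm_eq_zero_iff.1 h
  omega

theorem sd_places {N D : Type} [Field N] [NumberField N] [Group D] [Finite D]
    (hD : Odd (Nat.card D)) (σ : D →* (N ≃ₐ[ℚ] N)) [DistribMulAction D (SC N)]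
    (hact : ∀ (g : D) (c : SC N), g • c = σ g • c) (W : Finset (HeightOneSpectrum (𝓞 N)))
    (hW : ∀ g, ∀ w ∈ W, σ g • w ∈ W) :
    Sd D (⊤ : AddSubgroup (SC N)) (⨅ w ∈ W, Sq w) := by
  have hinv : ∀ (g : D) (w : HeightOneSpectrum (𝓞 N)), σ g • (σ g⁻¹ • w) = w := by
    intro g w
    rw [map_inv, smul_inv_smul]
  have hinv' : ∀ (g : D) (w : HeightOneSpectrum (𝓞 N)), σ g⁻¹ • (σ g • w) = w := by
    intro g w
    rw [map_inv, inv_smul_smul]
  have hrep : ∀ (g : D) (c : SC N), ∃ t : N, t ≠ 0 ∧ H38T1.rep (g • c) = σ g (H38T1.rep c) * t ^ 2 := by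
    intro g c
    have h1 : g • c = sc (σ g (H38T1.rep c)) := by
      rw [hact, ← H38T1.smul_sc (σ g) (H38T1.rep_ne c), H38T1.sc_rep]
    rw [h1]
    exact Lo_rep_sc ((map_ne_zero (σ g)).2 (H38T1.rep_ne c))
  refine sd_pair hD (A := ⊤) (B := ⨅ w ∈ W, Sq w) (fun _ _ _ => AddSubgroup.mem_top _) ?_ le_top ?_
    (fin_places W) (fun c d => ∑ w ∈ W, H36MX.hsv w (H38T1.rep c) (H38T1.rep d)) ?_ ?_ ?_ ?_
  · intro g c hc
    rw [Sc_mem] at hc ⊢
    intro w hw
    have h1 := (Sq_smul (σ g) (σ g⁻¹ • w) c).2 (hc _ (hW g⁻¹ w hw))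
    rw [hinv] at h1
    rw [hact]
    exact h1
  · intro c hc
    obtain ⟨a, -, rfl⟩ := mem_dbl.1 hc
    have h1 : (2 : ℤ) • a = 0 := by
      have h2 := H38T1.SC.two_smul a
      rw [← h2]
      exact_mod_cast natCast_zsmul a 2
    rw [h1]
    exact AddSubgroup.zero_mem _
  · intro x _ y _
    exact Finset.sum_congr rfl fun w _ => H36MX.hs_comm _ _
  · intro x _ x' _ y _
    rw [← Finset.sum_add_distrib]
    refine Finset.sum_congr rfl fun w _ => ?_
    obtain ⟨t, ht, h⟩ := Lo_rep x x'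
    rw [Sc_left w ht h]
    unfold H36MX.hsv
    have hne : ∀ c : SC N, algebraMap N (w.adicCompletion N) (H38T1.rep c) ≠ 0 := fun c =>
      (map_ne_zero (algebraMap N (w.adicCompletion N))).2 (H38T1.rep_ne c)
    rw [map_mul]
    exact (H36MX.hf_all w).mul _ _ _ (hne x) (hne x') (hne y)
  · intro g x _ y _
    obtain ⟨t, ht, h⟩ := hrep g x
    obtain ⟨t', ht', h'⟩ := hrep g y
    have h1 : ∀ w : HeightOneSpectrum (𝓞 N), H36MX.hsv w (H38T1.rep (g • x)) (H38T1.rep (g • y)) =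
        H36MX.hsv w (σ g (H38T1.rep x)) (σ g (H38T1.rep y)) := by
      intro w
      rw [Sc_left w ht h, Sc_right w ht' h']
    rw [Finset.sum_congr rfl fun w _ => h1 w]
    refine Finset.sum_nbij' (fun w => σ g⁻¹ • w) (fun w => σ g • w) (fun w hw => hW g⁻¹ w hw)
      (fun w hw => hW g w hw) (fun w _ => hinv g w) (fun w _ => hinv' g w) fun w _ => ?_
    have h2 := hsv_smul (σ g) (σ g⁻¹ • w) (H38T1.rep x) (H38T1.rep y)
    rw [hinv] at h2
    exact h2
  · intro x _
    constructor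
    · intro hx y _
      rw [Sc_mem] at hx
      refine Finset.sum_eq_zero fun w hw => ?_
      exact H36MX.hs_of_sq ((map_ne_zero (algebraMap N (w.adicCompletion N))).2 (H38T1.rep_ne x))
        (Sc_Sq.1 (hx w hw))
    · intro hx
      by_contra hn
      rw [Sc_mem] at hn
      push Not at hn
      obtain ⟨w₀, hw₀, hns⟩ := hn
      rw [Sc_Sq] at hns
      obtain ⟨y, hy, h1, h2⟩ := exists_nd W (H38T1.rep_ne x) hw₀ hns
      have h3 := hx (sc y) (AddSubgroup.mem_top _)
      obtain ⟨t, ht, h⟩ := Lo_rep_sc hy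
      rw [Finset.sum_congr rfl fun w _ => Sc_right w ht h (H38T1.rep x),
        Finset.sum_eq_single w₀ (fun w hw hww => h2 w hw hww) (fun h => absurd hw₀ h), h1] at h3
      exact one_ne_zero h3

end H76SD
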