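import Pool.Agent.H76.SD.Sc
import Pool.Agent.H30.ZO.Ai
import Pool.Agent.H30.ZO.Aj

/-!
ROW Se (project MP_78d38b_OD). About 150 lines: the local classes of square norm are self-dual. Use only the STATEMENT of Sc.
PROOF. `D := Dec K v`. `S1 := Sqv F L v = ⨅ w ∈ W, Sq w`, `W := (fin_above v).toFinset` (places of `L` above `v`; H30ZO.mem_Sqv). sd_places for `N = L`, `σ g := S.ρ g` (`W` is stable: `H88OD.dn_smul`, and `gq g • v = v` for `g ∈ Dec K v`: `HeightOneSpectrum` determined by the valuation, `mem_Dec`, `H24TD.val_smul`; lemma dec_fix of the file Df if present) and for `N = F`, `W = {v}`, `σ g := gq g`, `SC F` with the action of `D` through `gq` (local instance `DistribMulAction.compHom`).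
Norm `Nm := scm (Algebra.norm F : L →* F) : SC L →+ SC F`, `ι := scm (algebraMap F L : F →* L)`, `Nm (ι e) = e` (as in H30ZO.Aj `Aj_N`: private, copy: `N (x) = x^3`), `HH F L = Nm.ker`. Nm is equivariant (`H88OD.norm_ρ`), `ι` too (`S.ρF`).
For every finite `M`: `hq D M ⊤ S1 = hq D M (HH ⊔ S1) S1 * hq D M ⊤ (HH ⊔ S1)` (`H24TD.hq_mul`, everything is killed by two), `hq D M (HH ⊔ S1) S1 = hq D M HH (S1 ⊓ HH)` (`H24TD.hq_iso`, `u = id`), `hq D M ⊤ (HH ⊔ S1) = hq D M (⊤ : AddSubgroup (SC F)) (Sq v)` (`hq_iso`, `u = Nm`: `Nm x ∈ Sq v ↔ x ∈ HH ⊔ S1`: `x = (x - ι (Nm x)) + ι (Nm x)`, `ι (Sq v) ≤ S1` (`Aj_up`, private: copy), `Nm S1 ≤ Sq v`: `H30ZO.norm_Sqv` (integrality of `a`, `b` at `v`: haF, hbF in Df)). The left side and the last factor are the same for `M` and `Du M`; cancel (`H24TD.hq_pos`, finite index by fin_places).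
-/

set_option autoImplicit false
set_option linter.unusedSectionVars false
open scoped Classical

open WithZero NumberField IsDedekindDomain H38RT H76PP H30ZO H73P2 H30OD H36CY H24TD H88OD Pool.Agent.H10
open H38T1 (SC sc scu rep eo la si OddP)

namespace H76SD

variable {K F L : Type} [Field K] [NumberField K] [Field F] [NumberField F] [Field L]
  [NumberField L] [Algebra K F] [Algebra F L] {a b : K} {θ : L}

private theorem Se_abs {D X Y : Type} [Group D] [Finite D] (hD : Odd (Nat.card D))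
    [AddCommGroup X] [DistribMulAction D X] [AddCommGroup Y] [DistribMulAction D Y]
    (N : X →+ Y) (ι : Y →+ X) (hN : ∀ (g : D) (x : X), N (g • x) = g • N x)
    (hNι : ∀ y, N (ι y) = y) (S : AddSubgroup X) (Q : AddSubgroup Y)
    (hS : Stab D S) (hQ : Stab D Q) (hSQ : ∀ x ∈ S, N x ∈ Q) (hQS : ∀ y ∈ Q, ι y ∈ S)
    (h2 : ∀ x : X, (2 : ℤ) • x = 0)
    (h1 : Sd D (⊤ : AddSubgroup X) S) (h3 : Sd D (⊤ : AddSubgroup Y) Q)
    (hfin : Q.relIndex ⊤ ≠ 0) : Sd D N.ker (S ⊓ N.ker) := by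
  have hT : Stab D (⊤ : AddSubgroup X) := fun g x _ => AddSubgroup.mem_top _
  have hT' : Stab D (⊤ : AddSubgroup Y) := fun g x _ => AddSubgroup.mem_top _
  have hK : Stab D N.ker := by
    intro g x hx
    rw [AddMonoidHom.mem_ker] at hx ⊢
    rw [hN, hx, smul_zero]
  have hSK : Stab D (S ⊓ N.ker) := fun g x hx => ⟨hS g x hx.1, hK g x hx.2⟩
  have hKS : Stab D (N.ker ⊔ S) := by
    intro g x hx
    obtain ⟨a, ha, b, hb, rfl⟩ := AddSubgroup.mem_sup.1 hx
    rw [smul_add]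
    exact AddSubgroup.mem_sup.2 ⟨_, hK g a ha, _, hS g b hb, rfl⟩
  have hdbl : dbl (⊤ : AddSubgroup X) ≤ S := by
    intro x hx
    obtain ⟨a, _, rfl⟩ := mem_dbl.1 hx
    rw [h2]
    exact S.zero_mem
  have key : ∀ (M : Type) [AddCommGroup M] [DistribMulAction D M],
      hq D M (⊤ : AddSubgroup X) S =
        hq D M N.ker (S ⊓ N.ker) * hq D M (⊤ : AddSubgroup Y) Q := by
    intro M _ _
    have e1 : hq D M N.ker (S ⊓ N.ker) = hq D M (N.ker ⊔ S) S := by
      refine hq_iso (AddMonoidHom.id X) (fun g x => rfl) hK hSK hKS hS ?_ ?_ ?_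
      · rw [AddSubgroup.map_id]
        exact le_sup_left
      · rw [AddSubgroup.map_id, sup_comm]
      · intro a ha
        exact ⟨fun h => ⟨h, ha⟩, fun h => h.1⟩
    have e2 : hq D M (⊤ : AddSubgroup X) (N.ker ⊔ S) = hq D M (⊤ : AddSubgroup Y) Q := by
      refine hq_iso N hN hT hKS hT' hQ le_top ?_ ?_
      · intro y _
        exact AddSubgroup.mem_sup.2 ⟨0, Q.zero_mem, y, ⟨ι y, AddSubgroup.mem_top _, hNι y⟩,
          zero_add _⟩
      · intro a _
        constructor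
        · intro h
          refine AddSubgroup.mem_sup.2 ⟨a - ι (N a), ?_, ι (N a), hQS _ h, sub_add_cancel _ _⟩
          rw [AddMonoidHom.mem_ker, map_sub, hNι, sub_self]
        · intro h
          obtain ⟨k, hk, s, hs, rfl⟩ := AddSubgroup.mem_sup.1 h
          rw [map_add, AddMonoidHom.mem_ker.1 hk, zero_add]
          exact hSQ s hs
    rw [hq_mul hD hT hKS hS le_sup_right le_top hdbl, e1, e2]
  intro M _ _ _ hM
  have e1 := key M
  have e2 := key (H26OD.Du M)
  rw [← h1 M hM, e1, ← h3 M hM] at e2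
  exact Nat.eq_of_mul_eq_mul_right (hq_pos hT' hQ hfin) e2

private theorem Se_Sqv (v : HeightOneSpectrum (𝓞 F)) :
    (⨅ w ∈ (fin_above (K := F) (L := L) v).toFinset, Sq w : AddSubgroup (SC L)) =
      Sqv F L v := by
  ext c
  rw [mem_Sqv]
  simp only [AddSubgroup.mem_iInf, Set.Finite.mem_toFinset, Set.mem_ofPred_eq]

private theorem Se_one (v : HeightOneSpectrum (𝓞 F)) :
    (⨅ w ∈ ({v} : Finset (HeightOneSpectrum (𝓞 F))), Sq w : AddSubgroup (SC F)) = Sq v := by
  ext c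
  simp only [AddSubgroup.mem_iInf, Finset.mem_singleton, forall_eq]

private theorem Se_fix (v : HeightOneSpectrum (𝓞 F)) (g : Dec K v) : gq g.1 • v = v := by
  apply HeightOneSpectrum.ext
  ext x
  change H38T1.gO (gq g.1)⁻¹ x ∈ v.asIdeal ↔ x ∈ v.asIdeal
  rw [← HeightOneSpectrum.valuation_lt_one_iff_mem (K := F),
    ← HeightOneSpectrum.valuation_lt_one_iff_mem (K := F)]
  change v.valuation F ((g⁻¹ : Dec K v).1 (x : F)) < 1 ↔ v.valuation F (x : F) < 1
  rw [(g⁻¹ : Dec K v).2 (x : F)]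

private theorem Se_N {a b : F} {θ : L} (h : Cub F L a b θ) (e : SC F) :
    scm (Algebra.norm F : L →* F) (scm (algebraMap F L : F →* L) e) = e := by
  obtain ⟨x, hx, rfl⟩ := H38T1.sc_surj e
  have hx' : (algebraMap F L) x ≠ 0 := (map_ne_zero (algebraMap F L)).2 hx
  rw [scm_sc _ hx]
  have h1 : ((algebraMap F L : F →* L) x : L) = algebraMap F L x := rfl
  rw [h1, scm_sc _ hx']
  have h2 : ((Algebra.norm F : L →* F) (algebraMap F L x) : F) = x * (x * x) := by
    rw [Algebra.norm_algebraMap, h.finrank]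
    ring
  rw [h2, H38T1.sc_mul hx (mul_ne_zero hx hx), (H38T1.sc_eq_zero (mul_ne_zero hx hx)).2 ⟨x, rfl⟩,
    add_zero]

private theorem Se_up (v : HeightOneSpectrum (𝓞 F)) {e : SC F} (he : e ∈ Sq v) :
    scm (algebraMap F L : F →* L) e ∈ Sqv F L v := by
  obtain ⟨x, hx, rfl⟩ := H38T1.sc_surj e
  have hx' : (algebraMap F L) x ≠ 0 := (map_ne_zero (algebraMap F L)).2 hx
  rw [mem_Sqv]
  rintro w rfl
  rw [scm_sc _ hx]
  have h1 : ((algebraMap F L : F →* L) x : L) = algebraMap F L x := rfl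
  rw [h1, mem_Sq hx']
  rw [mem_Sq hx] at he
  obtain ⟨y, hy⟩ := he
  refine ⟨(H36CY.over_dn (K := F) w).map y, ?_⟩
  rw [← Pool.Agent.H10.Over.map_algebraMap (H36CY.over_dn (K := F) w) x, hy, map_mul]

theorem sd_HH (S : Ext K F L a b θ) (v : HeightOneSpectrum (𝓞 F))
    [DistribMulAction (F ≃ₐ[K] F) (SC L)]
    (hact : ∀ (g : F ≃ₐ[K] F) (c : SC L), g • c = S.ρ g • c) :
    Sd (Dec K v) (HH F L) (Sqv F L v ⊓ HH F L) := by
  let gh : (F ≃ₐ[K] F) →* (F ≃ₐ[ℚ] F) :=
    { toFun := fun g => gq g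
      map_one' := rfl
      map_mul' := fun _ _ => rfl }
  letI actF : DistribMulAction (Dec K v) (SC F) :=
    DistribMulAction.compHom (SC F) (gh.comp (Dec K v).subtype)
  have hactF : ∀ (g : Dec K v) (c : SC F), g • c = gq g.1 • c := fun _ _ => rfl
  have hactL : ∀ (g : Dec K v) (c : SC L), g • c = S.ρ g.1 • c := fun g c => hact g.1 c
  have hD : Odd (Nat.card (Dec K v)) := odd_dec S v
  have hdn : ∀ (g : Dec K v) (w : HeightOneSpectrum (𝓞 L)), dn F w = v →
      dn F (S.ρ g.1 • w) = v := by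
    intro g w hw
    rw [dn_smul, hw, Se_fix]
  have h1 : Sd (Dec K v) (⊤ : AddSubgroup (SC L)) (Sqv F L v) := by
    rw [← Se_Sqv]
    refine sd_places hD (S.ρ.comp (Dec K v).subtype) hactL
      (fin_above (K := F) (L := L) v).toFinset ?_
    intro g w hw
    rw [Set.Finite.mem_toFinset, Set.mem_ofPred_eq] at hw ⊢
    exact hdn g w hw
  have h3 : Sd (Dec K v) (⊤ : AddSubgroup (SC F)) (Sq v) := by
    rw [← Se_one]
    refine sd_places hD (gh.comp (Dec K v).subtype) hactF {v} ?_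
    intro g w hw
    rw [Finset.mem_singleton] at hw ⊢
    rw [hw]
    exact Se_fix v g
  have hfin : (Sq v).relIndex (⊤ : AddSubgroup (SC F)) ≠ 0 := by
    have := fin_places ({v} : Finset (HeightOneSpectrum (𝓞 F)))
    rwa [Se_one] at this
  refine Se_abs hD (scm (Algebra.norm F : L →* F)) (scm (algebraMap F L : F →* L)) ?_
    (Se_N S.cub) (Sqv F L v) (Sq v) ?_ ?_
    (fun c hc => norm_Sqv S.cub v (haF S v) (hbF S v) hc) (fun e he => Se_up v he) ?_ h1 h3 hfin
  · intro g c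
    obtain ⟨x, hx, rfl⟩ := H38T1.sc_surj c
    have _ : FiniteDimensional F L := Module.Finite.of_restrictScalars_finite ℚ F L
    have hn : Algebra.norm F x ≠ 0 := Algebra.norm_ne_zero_iff.2 hx
    rw [hactL, hactF, H38T1.smul_sc _ hx, scm_sc _ (H38T1.Eb_ne _ hx), scm_sc _ hx]
    have e1 : ((Algebra.norm F : L →* F) (S.ρ g.1 x) : F) = gq g.1 (Algebra.norm F x) :=
      norm_ρ S g.1 x
    rw [e1]
    exact (H38T1.smul_sc _ hn).symm
  · intro g c hc
    rw [mem_Sqv] at hc ⊢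
    intro w hw
    have e2 := hdn g⁻¹ w hw
    have e3 : S.ρ (g⁻¹ : Dec K v).1 = (S.ρ g.1)⁻¹ := map_inv S.ρ g.1
    rw [e3] at e2
    have e4 := (Sq_smul (S.ρ g.1) ((S.ρ g.1)⁻¹ • w) c).2 (hc _ e2)
    rw [smul_inv_smul] at e4
    rw [hactL]
    exact e4
  · intro g c hc
    have e4 := (Sq_smul (gq g.1) v c).2 hc
    rw [Se_fix v g] at e4
    rw [hactF]
    exact e4
  · intro x
    have := H38T1.SC.two_smul x
    rw [← this]
    exact natCast_zsmul x 2

end H76SD
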