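import Pool.Agent.H76.SD.Df
import Pool.Agent.H30.ZO.Ci

/-!
ROW Sf (project MP_78d38b_OD). About 200 lines: the points modulo two and the local classes, equivariantly.
PROOF. `D := Dec K v`, `E := v.adicCompletion F`, `i : F →+* E`, `A := i a`, `B := i b` (`a`, `b` from `K`). For `P : PtK v a b`, `c : SC L` let `Rel P c := ∃ d : Fin 3 → F, ev θ d ≠ 0 ∧ sc (ev θ d) = c ∧ ∃ Q, Lb_P A B (fun j => i (d j)) (P + (Q + Q))` (`Lb_P` of Pool/Agent/H30/ZO; `H30OD.Rl` of Pool/Agent/H30/OD/Od1.lean with `ψ = RingHom.id`, where `Rl_one`, `Rl_add` and `Lb_map` are proved).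
(1) `Rel P c → Rel P' c' → Rel (P + P') (c + c')`: `Rl_add`; `ev θ (m3 d d') = ev θ d * ev θ d'` (`H30ZO.Na_ev_mul`), `sc_mul`. `Rel 0 0` (`Rl_one`). (2) For every `P` there is `c ∈ HH F L` with `Rel P c`: `H30ZO.rep_k` gives `x : F`, `y ≠ 0` with `P - (x, y)` a double; `c = sc (ev θ d)`, `d = ![f(x) x, -f(x), 0]` (see Cd.lean: Cd_d, Cd_nf, Cd_sq; copy these private lemmas). (3) `c ∈ W → ∃ P, Rel P c`: definition of `Wc`, `LC` (`Q = 0`). (4) `Rel P c`, `c ∈ HH` → `c ∈ W`: `Wc` with the point `P + 2Q` (`Lb_P` is the existence of `x, y, z` with `y ≠ 0`, `m3 d (x - T) = z^2`). (5) `Rel P c → (c ∈ Sqv F L v ↔ P ∈ D2 v _ _)`: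
if `c ∈ Sqv` then `i ∘ d = m3 z z` (`H30ZO.sq_alg`), so `x(P + 2Q) - T` is a square up to squares (`Cb_root`), and `P + 2 Q` is a double (`H30ZO.halve`, or `diff_D2`); if `P = 2 P'` then `P + 2Q = R + R` and `x(R + R) - T` is a square (`Lb_dbl`; to avoid the exceptions add a further double with `Lb_avoid`), so `i ∘ d` is a square (`Cb_root`) and `c ∈ Sqv` by `H30ZO.alg_sq`. (6) `Rel P c → Rel (g • P) (g • c)` for `g ∈ D`: `Lb_map` for `act v g` and `d ↦ (j ↦ g (d j))` (`H30OD.act_coe`, `S.ρ g (ev θ d) = ev θ (g ∘ d)`: `H88OD.Ga_ev` with `D = 1` or `S.ρF`, `S.ρθ`).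
`Z := {(P, c) | c ∈ HH, Rel P c}` is a stable additive subgroup of `PtK v a b × SC L` (negatives: `-P`: `Rel P c → Rel (-P) (-c)`, because `-c = c` and `x(-P) = x(P)`; or `-(P,c) = (P, c) - 2 (P, c)` and (1), (5)). `Z₀ := {(P, c) ∈ Z | P ∈ D2} = {(P, c) ∈ Z | c ∈ Sqv}` by (5). `H24TD.hq_iso` for the projection to `P` (`A = Z`, `B = Z₀`, `A' = ⊤`, `B' = D2`; surjective by (2)) and for the projection to `c` (`A' = W`, `B' = Sqv ⊓ HH`; surjective by (3), values in `W` by (4)) gives both sides `= hq D M Z Z₀`. Stab of `W`: `H88OD.Ga_Wc` with `D = 1` (lemma Wc_smul in Df).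
-/

set_option autoImplicit false
set_option linter.unusedSectionVars false
open scoped Classical

open WithZero WeierstrassCurve NumberField IsDedekindDomain H38RT H76PP H30ZO H73P2 H30OD H36CY H24TD H88OD Pool.Agent.H10
open H38T1 (SC sc scu rep eo la si OddP)

namespace H76SD

variable {K F L : Type} [Field K] [NumberField K] [Field F] [NumberField F] [Field L]
  [NumberField L] [Algebra K F] [Algebra F L] {a b : K} {θ : L}

private def Sf_d {F : Type*} [CommRing F] (a b x : F) : Fin 3 → F :=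
  ![(x ^ 3 + a * x + b) * x, -(x ^ 3 + a * x + b), 0]

private lemma Sf_nf {F : Type*} [CommRing F] (a b x : F) :
    Te_nf a b (Sf_d a b x) = (x ^ 3 + a * x + b) ^ 2 * (x ^ 3 + a * x + b) ^ 2 := by
  simp only [Te_nf, Sf_d, Matrix.cons_val_zero, Matrix.cons_val_one, Matrix.cons_val_two,
    Matrix.head_cons, Matrix.tail_cons]
  ring

private lemma Sf_map {F F' : Type*} [CommRing F] [CommRing F'] (i : F →+* F') (a b x : F) :
    (fun j => i (Sf_d a b x j)) = Sf_d (i a) (i b) (i x) := by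
  funext j
  fin_cases j <;> simp [Sf_d]

private lemma Sf_sq {F : Type*} [CommRing F] (a b x y : F) (h : y ^ 2 = x ^ 3 + a * x + b) :
    m3 a b (Sf_d a b x) ![x, -1, 0] = m3 a b ![y * x, -y, 0] ![y * x, -y, 0] := by
  unfold Sf_d
  rw [← h]
  funext j
  fin_cases j <;> simp [m3] <;> ring

private lemma Sf_two (c : SC L) : c + c = 0 := by
  obtain ⟨x, hx, rfl⟩ := H38T1.sc_surj c
  rw [← H38T1.sc_mul hx hx]
  exact (H38T1.sc_eq_zero (mul_ne_zero hx hx)).2 ⟨x, rfl⟩


private lemma Sf_map_nf {F F' : Type*} [CommRing F] [CommRing F'] (i : F →+* F') (a b : F)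
    (d : Fin 3 → F) : Te_nf (i a) (i b) (fun j => i (d j)) = i (Te_nf a b d) := by
  simp only [Te_nf, map_add, map_sub, map_mul, map_pow, map_neg, map_ofNat]

private lemma Rl_id {E : Type} [Field E] [CharZero E] {A B : E} {d : Fin 3 → E} {P : Pc A B} :
    Rl (RingHom.id E) A B d P ↔ ∃ Q : Pc A B, Lb_P A B d (P + (Q + Q)) := by
  have e : ∀ Q : Pc A B, (pm (RingHom.id E) (H30OD.map_c (RingHom.id E) rfl rfl) Q : Pc A B) =
      Q := by
    intro Q
    rcases Q with _ | ⟨x, y, h⟩ <;> rfl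
  constructor
  · rintro ⟨Q, h⟩
    refine ⟨Q, ?_⟩
    have h' : Lb_P A B d (P + ((pm (RingHom.id E) (H30OD.map_c (RingHom.id E) rfl rfl) Q : Pc A B) +
      (pm (RingHom.id E) (H30OD.map_c (RingHom.id E) rfl rfl) Q : Pc A B))) := h
    rwa [e] at h'
  · rintro ⟨Q, h⟩
    refine ⟨Q, ?_⟩
    change Lb_P A B d (P + ((pm (RingHom.id E) (H30OD.map_c (RingHom.id E) rfl rfl) Q : Pc A B) +
      (pm (RingHom.id E) (H30OD.map_c (RingHom.id E) rfl rfl) Q : Pc A B)))
    rw [e]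
    exact h

/-- The relation between points and classes. -/
def Sf_R (a b : K) (θ : L) (v : HeightOneSpectrum (𝓞 F)) (P : PtK v a b) (c : SC L) : Prop :=
  ∃ d : Fin 3 → F, ev θ d ≠ 0 ∧ sc (ev θ d) = c ∧ ∃ Q : PtK v a b,
    Lb_P (algebraMap F (v.adicCompletion F) (algebraMap K F a))
      (algebraMap F (v.adicCompletion F) (algebraMap K F b))
      (fun j => algebraMap F (v.adicCompletion F) (d j)) (P + (Q + Q))

theorem Sf_D (v : HeightOneSpectrum (𝓞 F)) {a b : K} (hD : 4 * a ^ 3 + 27 * b ^ 2 ≠ 0) :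
    4 * (algebraMap F (v.adicCompletion F) (algebraMap K F a)) ^ 3 +
      27 * (algebraMap F (v.adicCompletion F) (algebraMap K F b)) ^ 2 ≠ 0 := by
  have e : 4 * (algebraMap F (v.adicCompletion F) (algebraMap K F a)) ^ 3 +
      27 * (algebraMap F (v.adicCompletion F) (algebraMap K F b)) ^ 2 =
      algebraMap F (v.adicCompletion F) (algebraMap K F (4 * a ^ 3 + 27 * b ^ 2)) := by
    simp only [map_add, map_mul, map_pow, map_ofNat]
  rw [e]
  exact (map_ne_zero _).2 ((map_ne_zero _).2 hD)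

theorem Sf_zero (S : Ext K F L a b θ) (v : HeightOneSpectrum (𝓞 F)) :
    Sf_R a b θ v (0 : PtK v a b) (0 : SC L) := by
  have _ : CharZero (v.adicCompletion F) := H36CY.char_zero v
  have e : ev θ (![1, 0, 0] : Fin 3 → F) = 1 := by
    simp [ev]
  refine ⟨![1, 0, 0], ?_, ?_, ?_⟩
  · rw [e]
    exact one_ne_zero
  · rw [e]
    exact (H38T1.sc_eq_zero one_ne_zero).2 ⟨1, by ring⟩
  · have h := Rl_one (RingHom.id (v.adicCompletion F)) (Sf_D v S.dne)
      (H24PD.inf_fin v _ _)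
    have h2 := Rl_id.1 h
    have e2 : (fun j => algebraMap F (v.adicCompletion F) ((![1, 0, 0] : Fin 3 → F) j)) =
        ![1, 0, 0] := by
      funext j
      fin_cases j <;> simp
    rw [e2]
    exact h2

theorem Sf_add (S : Ext K F L a b θ) (v : HeightOneSpectrum (𝓞 F)) {P P' : PtK v a b}
    {c c' : SC L} (h : Sf_R a b θ v P c) (h' : Sf_R a b θ v P' c') :
    Sf_R a b θ v (P + P') (c + c') := by
  have _ : CharZero (v.adicCompletion F) := H36CY.char_zero v
  obtain ⟨d, d1, rfl, hd⟩ := h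
  obtain ⟨d', d1', rfl, hd'⟩ := h'
  have hmul := Te_ev_mul S.cub d d'
  refine ⟨m3 (algebraMap K F a) (algebraMap K F b) d d', ?_, ?_, ?_⟩
  · rw [← hmul]
    exact mul_ne_zero d1 d1'
  · rw [← hmul, H38T1.sc_mul d1 d1']
  · have h := Rl_id.1 (Rl_add (RingHom.id (v.adicCompletion F)) (Sf_D v S.dne)
      (H24PD.inf_fin v _ _) (Rl_id.2 hd) (Rl_id.2 hd'))
    have e2 : (fun j => algebraMap F (v.adicCompletion F)
        (m3 (algebraMap K F a) (algebraMap K F b) d d' j)) =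
        m3 (algebraMap F (v.adicCompletion F) (algebraMap K F a))
          (algebraMap F (v.adicCompletion F) (algebraMap K F b))
          (fun j => algebraMap F (v.adicCompletion F) (d j))
          (fun j => algebraMap F (v.adicCompletion F) (d' j)) := by
      funext j
      exact (Te_m3_map _ _ _ _ _ j).symm
    rw [e2]
    exact h

theorem Sf_neg (v : HeightOneSpectrum (𝓞 F)) {P : PtK v a b}
    {c : SC L} (h : Sf_R a b θ v P c) : Sf_R a b θ v (-P) (-c) := by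
  obtain ⟨d, d1, rfl, Q, hQ⟩ := h
  refine ⟨d, d1, (neg_eq_of_add_eq_zero_left (Sf_two _)).symm, -Q, ?_⟩
  have e : -P + (-Q + -Q) = -(P + (Q + Q)) := by abel
  rw [e]
  obtain ⟨x, y, n, z, hp, hy, hz⟩ := hQ
  refine ⟨x, -y, ?_, z, ?_, neg_ne_zero.2 hy, hz⟩
  · have h2 := (Affine.nonsingular_neg ..).2 n
    rw [Lb_negY] at h2
    exact h2
  · rw [hp, Affine.Point.neg_some]
    congr 1
    exact Lb_negY _ _ _ _

theorem Sf_ex (S : Ext K F L a b θ) (v : HeightOneSpectrum (𝓞 F)) (P : PtK v a b) :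
    ∃ c ∈ HH F L, Sf_R a b θ v P c := by
  have _ : CharZero (v.adicCompletion F) := H36CY.char_zero v
  have _ : FiniteDimensional F L := Module.Finite.of_restrictScalars_finite ℚ F L
  obtain ⟨x, y, n, hy, Q, hQ⟩ := rep_k v (haF S v) (hbF S v) (dneF S) P
  have he := Lb_eqn n
  have hf : x ^ 3 + algebraMap K F a * x + algebraMap K F b ≠ 0 := by
    intro e
    have h2 : (algebraMap F (v.adicCompletion F) x) ^ 3 +
        algebraMap F (v.adicCompletion F) (algebraMap K F a) *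
        algebraMap F (v.adicCompletion F) x +
        algebraMap F (v.adicCompletion F) (algebraMap K F b) =
        algebraMap F (v.adicCompletion F) (x ^ 3 + algebraMap K F a * x + algebraMap K F b) := by
      simp only [map_add, map_mul, map_pow]
    rw [h2, e, map_zero] at he
    exact hy (pow_eq_zero_iff (two_ne_zero) |>.1 he)
  have hne : ev θ (Sf_d (algebraMap K F a) (algebraMap K F b) x) ≠ 0 := by
    refine (Algebra.norm_ne_zero_iff (R := F) (S := L)).1 ?_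
    rw [Te_norm S.cub, Sf_nf]
    exact mul_ne_zero (pow_ne_zero _ hf) (pow_ne_zero _ hf)
  refine ⟨sc (ev θ (Sf_d (algebraMap K F a) (algebraMap K F b) x)), ?_, _, hne, rfl, -Q, ?_⟩
  · refine (mem_HH hne).2 ⟨(x ^ 3 + algebraMap K F a * x + algebraMap K F b) ^ 2, ?_⟩
    rw [Te_norm S.cub, Sf_nf]
  · have e : P + (-Q + -Q) = Affine.Point.some _ y n := by
      have e1 : P = Q + Q + Affine.Point.some _ y n := by
        rw [hQ]
        abel
      rw [e1]
      abel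
    rw [e, Sf_map]
    exact ⟨_, y, n, _, rfl, hy, Sf_sq _ _ _ _ he⟩

theorem Sf_pt (v : HeightOneSpectrum (𝓞 F)) {c : SC L}
    (hc : Wc (algebraMap F (v.adicCompletion F)) (algebraMap K F a) (algebraMap K F b) θ c) :
    ∃ P : PtK v a b, Sf_R a b θ v P c := by
  have _ : CharZero (v.adicCompletion F) := H36CY.char_zero v
  obtain ⟨d, d1, d2, x, y, z, hy, he, hm⟩ := hc
  have n := Lb_ns two_ne_zero hy he
  refine ⟨Affine.Point.some x y n, d, d1, d2, 0, ?_⟩
  rw [add_zero, add_zero]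
  exact ⟨x, y, n, z, rfl, hy, hm⟩

theorem Sf_Wc (v : HeightOneSpectrum (𝓞 F)) {P : PtK v a b} {c : SC L}
    (h : Sf_R a b θ v P c) :
    Wc (algebraMap F (v.adicCompletion F)) (algebraMap K F a) (algebraMap K F b) θ c := by
  obtain ⟨d, d1, d2, Q, x, y, n, z, -, hy, hz⟩ := h
  exact ⟨d, d1, d2, x, y, z, hy, Lb_eqn n, hz⟩

theorem Sf_D2 (S : Ext K F L a b θ) (v : HeightOneSpectrum (𝓞 F)) {P : PtK v a b} {c : SC L}
    (h : Sf_R a b θ v P c) :
    c ∈ Sqv F L v ↔ P ∈ D2 v (algebraMap K F a) (algebraMap K F b) := by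
  have _ : CharZero (v.adicCompletion F) := H36CY.char_zero v
  have _ : FiniteDimensional F L := Module.Finite.of_restrictScalars_finite ℚ F L
  obtain ⟨d, d1, rfl, Q, x, y, n, w, hP, hy, hw⟩ := h
  obtain ⟨A, hA⟩ : ∃ A, A = algebraMap F (v.adicCompletion F) (algebraMap K F a) := ⟨_, rfl⟩
  obtain ⟨B, hB⟩ : ∃ B, B = algebraMap F (v.adicCompletion F) (algebraMap K F b) := ⟨_, rfl⟩
  have hnf : Te_nf (algebraMap F (v.adicCompletion F) (algebraMap K F a))
      (algebraMap F (v.adicCompletion F) (algebraMap K F b))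
      (fun j => algebraMap F (v.adicCompletion F) (d j)) ≠ 0 := by
    rw [Sf_map_nf, ← Te_norm S.cub]
    exact (map_ne_zero _).2 (Algebra.norm_ne_zero_iff.2 d1)
  constructor
  · intro hc
    obtain ⟨z, hz⟩ := sq_alg S.cub v (haF S v) (hbF S v) d1 hc
    rw [← hz] at hw hnf
    rw [Te_nf_mul] at hnf
    obtain ⟨w', hw'⟩ := Cb_root (left_ne_zero_of_mul hnf) hw
    obtain ⟨R, hR⟩ := halve (Sf_D v S.dne) n hw'
    refine ⟨R - Q, ?_⟩
    change (2 : ℤ) • (R - Q) = P
    rw [two_zsmul]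
    have e : P = R + R - (Q + Q) := by
      rw [hR, ← hP]
      abel
    rw [e]
    abel
  · rintro ⟨P', hP'⟩
    have hP'' : (2 : ℤ) • P' = P := hP'
    have e : P + (Q + Q) = (P' + Q) + (P' + Q) := by
      rw [← hP'', two_zsmul]
      abel
    rw [e] at hP
    have h0 : (P' + Q) + (P' + Q) ≠ 0 := by
      rw [hP]
      intro h
      exact Affine.Point.some_ne_zero n h
    have h1 : (P' + Q) + (P' + Q) + ((P' + Q) + (P' + Q)) ≠ 0 := by
      rw [hP]
      intro h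
      have h2 : Affine.Point.some x y n = -Affine.Point.some x y n :=
        eq_neg_of_add_eq_zero_left h
      rw [Affine.Point.neg_some, Affine.Point.some.injEq] at h2
      have h3 := h2.2
      rw [Lb_negY] at h3
      have h4 : 2 * y = 0 := by linear_combination h3
      exact hy ((mul_eq_zero.1 h4).resolve_left two_ne_zero)
    obtain ⟨x', y', n', z, hP2, hy', hz⟩ := Lb_dbl two_ne_zero (P' + Q) h0 h1
    rw [hP, Affine.Point.some.injEq] at hP2
    obtain ⟨rfl, rfl⟩ := hP2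
    rw [one_m3] at hz
    -- `d (x - T) = w^2`, `x - T = z^2`
    have hnz : Te_nf (algebraMap F (v.adicCompletion F) (algebraMap K F a))
        (algebraMap F (v.adicCompletion F) (algebraMap K F b)) z ≠ 0 := by
      intro h
      have h5 : Te_nf (algebraMap F (v.adicCompletion F) (algebraMap K F a))
        (algebraMap F (v.adicCompletion F) (algebraMap K F b)) ![x, -1, 0] = 0 := by
        rw [hz, Te_nf_mul, h, zero_mul]
      have h6 : Te_nf (algebraMap F (v.adicCompletion F) (algebraMap K F a))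
        (algebraMap F (v.adicCompletion F) (algebraMap K F b)) ![x, -1, 0] = y ^ 2 := by
        rw [Lb_eqn n]
        simp only [Te_nf, Matrix.cons_val_zero, Matrix.cons_val_one, Matrix.cons_val_two,
          Matrix.head_cons, Matrix.tail_cons]
        ring
      rw [h6] at h5
      exact hy (pow_eq_zero_iff two_ne_zero |>.1 h5)
    rw [Cb_comm, hz] at hw
    obtain ⟨u, hu⟩ := Cb_root hnz hw
    exact alg_sq S.cub v d1 hu

theorem Sf_smul (S : Ext K F L a b θ) (v : HeightOneSpectrum (𝓞 F)) (g : Dec K v)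
    {P : PtK v a b} {c : SC L} (h : Sf_R a b θ v P c) :
    Sf_R a b θ v (g • P) (S.ρ g.1 • c) := by
  obtain ⟨d, d1, rfl, Q, hQ⟩ := h
  have hev : S.ρ g.1 (ev θ d) = ev θ (fun j => g.1 (d j)) := by
    unfold ev
    rw [map_add, map_add, map_mul, map_mul, map_pow, S.ρθ, S.ρF, S.ρF, S.ρF]
  refine ⟨fun j => g.1 (d j), ?_, ?_, g • Q, ?_⟩
  · rw [← hev]
    exact (map_ne_zero _).2 d1
  · rw [← hev, H38T1.smul_sc _ d1]
  · have h1 := Lb_map (act v g) (a' := algebraMap F (v.adicCompletion F) (algebraMap K F a))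
      (b' := algebraMap F (v.adicCompletion F) (algebraMap K F b))
      (by rw [act_coe, AlgEquiv.commutes]) (by rw [act_coe, AlgEquiv.commutes]) hQ
    have e1 : g • P + (g • Q + g • Q) = pm (act v g) (act_c v a b g) (P + (Q + Q)) := by
      rw [← pt_smul, smul_add, smul_add]
    have e2 : (fun j => algebraMap F (v.adicCompletion F) (g.1 (d j))) =
        fun j => act v g (algebraMap F (v.adicCompletion F) (d j)) := by
      funext j
      rw [act_coe]
    rw [e1, e2]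
    exact h1

theorem hq_W (S : Ext K F L a b θ) (v : HeightOneSpectrum (𝓞 F))
    [DistribMulAction (F ≃ₐ[K] F) (SC L)]
    (hact : ∀ (g : F ≃ₐ[K] F) (c : SC L), g • c = S.ρ g • c) {W : AddSubgroup (SC L)}
    (hW : ∀ c, c ∈ W ↔ c ∈ HH F L ∧
      Wc (algebraMap F (v.adicCompletion F)) (algebraMap K F a) (algebraMap K F b) θ c)
    (M : Type) [AddCommGroup M] [DistribMulAction (Dec K v) M] :
    hq (Dec K v) M (⊤ : AddSubgroup (PtK v a b)) (D2 v (algebraMap K F a) (algebraMap K F b)) =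
      hq (Dec K v) M W (Sqv F L v ⊓ HH F L) := by
  have hactD : ∀ (g : Dec K v) (c : SC L), g • c = S.ρ g.1 • c := fun g c => hact g.1 c
  have htop : Stab (Dec K v) (⊤ : AddSubgroup (PtK v a b)) := fun _ _ _ => AddSubgroup.mem_top _
  have hsD2 : Stab (Dec K v) (D2 v (algebraMap K F a) (algebraMap K F b) :
      AddSubgroup (PtK v a b)) := by
    rintro g _ ⟨P, rfl⟩
    refine ⟨g • P, ?_⟩
    change (2 : ℤ) • (g • P) = g • ((2 : ℤ) • P)
    exact (map_zsmul (DistribSMul.toAddMonoidHom (PtK v a b) g) 2 P).symm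
  -- the auxiliary group
  let Z : AddSubgroup (PtK v a b × SC L) :=
    { carrier := {p | p.2 ∈ HH F L ∧ Sf_R a b θ v p.1 p.2}
      zero_mem' := ⟨(HH F L).zero_mem, Sf_zero S v⟩
      add_mem' := fun {p q} hp hq => ⟨(HH F L).add_mem hp.1 hq.1, Sf_add S v hp.2 hq.2⟩
      neg_mem' := fun {p} hp => ⟨(HH F L).neg_mem hp.1, Sf_neg v hp.2⟩ }
  have mZ : ∀ (P : PtK v a b) (c : SC L), (P, c) ∈ Z ↔ c ∈ HH F L ∧ Sf_R a b θ v P c :=
    fun P c => Iff.rfl
  obtain ⟨Z₀, hZ₀⟩ : ∃ Z₀ : AddSubgroup (PtK v a b × SC L),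
      Z₀ = Z ⊓ (D2 v (algebraMap K F a) (algebraMap K F b) : AddSubgroup (PtK v a b)).comap
        (AddMonoidHom.fst (PtK v a b) (SC L)) := ⟨_, rfl⟩
  have mZ₀ : ∀ (P : PtK v a b) (c : SC L), (P, c) ∈ Z₀ ↔
      (P, c) ∈ Z ∧ P ∈ (D2 v (algebraMap K F a) (algebraMap K F b) :
        AddSubgroup (PtK v a b)) := fun P c => by
    rw [hZ₀]
    exact Iff.rfl
  have hsZ : Stab (Dec K v) Z := by
    rintro g ⟨P, c⟩ hp
    rw [mZ] at hp
    change (g • P, g • c) ∈ Z
    rw [mZ, hactD]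
    exact ⟨HH_smul S g.1 hp.1, Sf_smul S v g hp.2⟩
  have hsZ₀ : Stab (Dec K v) Z₀ := by
    rintro g ⟨P, c⟩ hp
    rw [mZ₀] at hp
    change (g • P, g • c) ∈ Z₀
    rw [mZ₀]
    exact ⟨hsZ g (P, c) hp.1, hsD2 g P hp.2⟩
  have hsW : Stab (Dec K v) W := by
    intro g c hc
    rw [hW] at hc ⊢
    obtain ⟨P, hP⟩ := Sf_pt v hc.2
    have h1 := Sf_smul S v g hP
    rw [hactD]
    exact ⟨HH_smul S g.1 hc.1, Sf_Wc v h1⟩
  have hsq : ∀ c, c ∈ Sqv F L v ⊓ HH F L → c ∈ W := fun c hc =>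
    (hW c).2 ⟨hc.2, Sqv_le S.cub v (haF S v) (hbF S v) (dneF S) hc.1⟩
  have hsS : Stab (Dec K v) (Sqv F L v ⊓ HH F L : AddSubgroup (SC L)) := by
    intro g c hc
    have h1 := (hW c).1 (hsq c hc)
    obtain ⟨P, hP⟩ := Sf_pt v h1.2
    have h2 := (Sf_D2 S v hP).1 hc.1
    have h3 := Sf_smul S v g hP
    have h4 := (Sf_D2 S v h3).2 (hsD2 g P h2)
    rw [hactD]
    exact ⟨h4, HH_smul S g.1 hc.2⟩
  have e1 : hq (Dec K v) M Z Z₀ = hq (Dec K v) M (⊤ : AddSubgroup (PtK v a b))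
      (D2 v (algebraMap K F a) (algebraMap K F b)) := by
    refine hq_iso (AddMonoidHom.fst (PtK v a b) (SC L)) (fun g x => rfl)
      hsZ hsZ₀ htop hsD2 le_top ?_ ?_
    · intro P _
      obtain ⟨c, hc, hP⟩ := Sf_ex S v P
      exact AddSubgroup.mem_sup_right ⟨(P, c), (mZ P c).2 ⟨hc, hP⟩, rfl⟩
    · rintro ⟨P, c⟩ hp
      change P ∈ (D2 v (algebraMap K F a) (algebraMap K F b) : AddSubgroup (PtK v a b)) ↔
        (P, c) ∈ Z₀
      rw [mZ₀]
      exact ⟨fun h => ⟨hp, h⟩, fun h => h.2⟩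
  have e2 : hq (Dec K v) M Z Z₀ = hq (Dec K v) M W (Sqv F L v ⊓ HH F L) := by
    refine hq_iso (AddMonoidHom.snd (PtK v a b) (SC L)) (fun g x => rfl)
      hsZ hsZ₀ hsW hsS ?_ ?_ ?_
    · rintro _ ⟨⟨P, c⟩, hp, rfl⟩
      have hp' := (mZ P c).1 hp
      exact (hW c).2 ⟨hp'.1, Sf_Wc v hp'.2⟩
    · intro c hc
      have h1 := (hW c).1 hc
      obtain ⟨P, hP⟩ := Sf_pt v h1.2
      exact AddSubgroup.mem_sup_right ⟨(P, c), (mZ P c).2 ⟨h1.1, hP⟩, rfl⟩
    · rintro ⟨P, c⟩ hp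
      have hp' := (mZ P c).1 hp
      change c ∈ Sqv F L v ⊓ HH F L ↔ (P, c) ∈ Z₀
      rw [mZ₀, ← Sf_D2 S v hp'.2]
      exact ⟨fun h => ⟨hp, h.1⟩, fun h => ⟨h.2, hp'.1⟩⟩
  rw [← e1, e2]

end H76SD
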