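import Pool.Agent.H76.SD.Df
import Pool.Agent.H30.ZO.Bh

/-!
ROW Sg (project MP_78d38b_OD). About 100 lines: the points and a subgroup of level `m`.
PROOF. `G := PtK v a b`, `H` stable: `g • P = pm (act v g) P` changes `(x, y)` to `(act x, act y)` with the same valuation (`H30OD.act_val`, `pm_some`), so `Lv` is preserved. `H.index ≠ 0`: `H30ZO.EE_fin` (discriminant not zero in the completion). `H` has no element of order two: `H30ZO.exists_EE` gives `H'` with the same elements (`AddSubgroup.ext`) and `∀ P ∈ H', 2 • P = 0 → P = 0`. So `tor H = ⊥`. `D2 v _ _ = dbl ⊤` and `T2 v _ _ = tor ⊤` (definitions; `AddMonoidHom.range_eq_map`, `top_inf_eq`). `T2` is finite (`H30ZO.nb_T2` needs `L`; directly: `(tor ⊤ : Set _).Finite`: the map `T2 → G ⧸ H` is injective since `H` has no two-torsion, and `G ⧸ H` is finite).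
hq_pt_EE: `H24TD.hq_index` with `N = H`, `N' = ⊤`: `hq ⊤ (dbl ⊤) * hq (tor H) ⊥ = hq H (dbl H) * hq (tor ⊤) ⊥` and `hq ⊥ ⊥ = 1` (`H24TD.hq_self`).
EE_dbl: `(dbl H).index ≠ 0`: `dbl H = H.map 2` has finite index in `dbl ⊤ = ⊤.map 2` (the index is at most `H.index`, `AddSubgroup.relIndex_map...` or directly: the map `G ⧸ H → (dbl ⊤) ⧸ (dbl H)`), and `dbl ⊤ = D2` has finite index by `hfin`.
-/

set_option autoImplicit false
set_option linter.unusedSectionVars false
open scoped Classical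

open WithZero NumberField IsDedekindDomain H38RT H76PP H30ZO H73P2 H30OD H36CY H24TD H88OD Pool.Agent.H10
open H38T1 (SC sc scu rep eo la si OddP)

namespace H76SD

variable {K F : Type} [Field K] [NumberField K] [Field F] [NumberField F] [Algebra K F]

theorem Sg_two {F : Type} [Field F] [NumberField F] (v : HeightOneSpectrum (𝓞 F)) :
    (2 : v.adicCompletion F) ≠ 0 := by
  have e : (2 : v.adicCompletion F) = algebraMap F (v.adicCompletion F) 2 := by rw [map_ofNat]
  rw [e]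
  exact (map_ne_zero _).2 two_ne_zero

theorem Sg_val {F : Type} [Field F] [NumberField F] (v : HeightOneSpectrum (𝓞 F)) {x : F}
    (h : v.valuation F x ≤ 1) : Valued.v (algebraMap F (v.adicCompletion F) x) ≤ 1 := by
  have e : Valued.v (algebraMap F (v.adicCompletion F) x) = v.valuation F x :=
    HeightOneSpectrum.valuedAdicCompletion_eq_valuation' v x
  rw [e]
  exact h

theorem Sg_D (v : HeightOneSpectrum (𝓞 F)) {a b : K} (hD : 4 * a ^ 3 + 27 * b ^ 2 ≠ 0) :
    4 * (algebraMap F (v.adicCompletion F) (algebraMap K F a)) ^ 3 +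
      27 * (algebraMap F (v.adicCompletion F) (algebraMap K F b)) ^ 2 ≠ 0 := by
  have e : 4 * (algebraMap F (v.adicCompletion F) (algebraMap K F a)) ^ 3 +
      27 * (algebraMap F (v.adicCompletion F) (algebraMap K F b)) ^ 2 =
      algebraMap F (v.adicCompletion F) (algebraMap K F (4 * a ^ 3 + 27 * b ^ 2)) := by
    simp only [map_add, map_mul, map_pow, map_ofNat]
  rw [e]
  exact (map_ne_zero _).2 ((map_ne_zero _).2 hD)

/-- The points of level `m` are stable. -/
theorem Sg_stab (v : HeightOneSpectrum (𝓞 F)) {a b : K} {m : ℕ}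
    {H : AddSubgroup (PtK v a b)} (hH : ∀ P, P ∈ H ↔ Lv Valued.v m P) : Stab (Dec K v) H := by
  intro g P hP
  rw [hH] at hP ⊢
  rcases hP with rfl | ⟨x, y, h, rfl, hx⟩
  · rw [smul_zero]
    exact Or.inl rfl
  · right
    rw [pt_smul]
    refine ⟨_, _, _, pm_some _ _ h, ?_⟩
    rw [act_val]
    exact hx

theorem Sg_tor (v : HeightOneSpectrum (𝓞 F)) {a b : K}
    (ha : v.valuation F (algebraMap K F a) ≤ 1)
    (hb : v.valuation F (algebraMap K F b) ≤ 1) {m : ℕ}
    (hm : 1 ≤ m) {H : AddSubgroup (PtK v a b)} (hH : ∀ P, P ∈ H ↔ Lv Valued.v m P) :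
    ∀ P ∈ H, (2 : ℤ) • P = 0 → P = 0 := by
  obtain ⟨H', h1, -, -, h4⟩ := exists_EE (Sg_two v) (V := Valued.v) (Sg_val v ha) (Sg_val v hb) hm
  intro P hP
  exact h4 P ((h1 P).2 ((hH P).1 hP))

theorem Sg_D2 (v : HeightOneSpectrum (𝓞 F)) (a b : K) :
    (D2 v (algebraMap K F a) (algebraMap K F b) : AddSubgroup (PtK v a b)) =
      dbl (⊤ : AddSubgroup (PtK v a b)) := AddMonoidHom.range_eq_map _

theorem Sg_T2 (v : HeightOneSpectrum (𝓞 F)) (a b : K) :
    (T2 v (algebraMap K F a) (algebraMap K F b) : AddSubgroup (PtK v a b)) =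
      tor (⊤ : AddSubgroup (PtK v a b)) := (top_inf_eq _).symm

theorem hq_pt_EE (v : HeightOneSpectrum (𝓞 F)) {a b : K} (hodd : Odd (Nat.card (Dec K v)))
    (hfinD : Finite (Dec K v)) (ha : v.valuation F (algebraMap K F a) ≤ 1)
    (hb : v.valuation F (algebraMap K F b) ≤ 1) (hD : 4 * a ^ 3 + 27 * b ^ 2 ≠ 0) {m : ℕ}
    (hm : 1 ≤ m) {H : AddSubgroup (PtK v a b)} (hH : ∀ P, P ∈ H ↔ Lv Valued.v m P)
    (M : Type) [AddCommGroup M] [DistribMulAction (Dec K v) M] [Finite M] :
    hq (Dec K v) M (⊤ : AddSubgroup (PtK v a b)) (D2 v (algebraMap K F a) (algebraMap K F b)) =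
      hq (Dec K v) M H (dbl H) *
        hq (Dec K v) M (T2 v (algebraMap K F a) (algebraMap K F b) : AddSubgroup (PtK v a b)) ⊥ := by
  have hst := Sg_stab v hH
  have htop : Stab (Dec K v) (⊤ : AddSubgroup (PtK v a b)) := fun _ _ _ => AddSubgroup.mem_top _
  have hbot : Stab (Dec K v) (⊥ : AddSubgroup (PtK v a b)) := by
    intro g x hx
    rw [AddSubgroup.mem_bot] at hx ⊢
    rw [hx, smul_zero]
  have ht := Sg_tor v ha hb hm hH
  have hi : H.index ≠ 0 := EE_fin v (Sg_val v ha) (Sg_val v hb) (Sg_D v hD) hm hH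
  have htor : tor H = ⊥ := by
    rw [eq_bot_iff]
    intro P hP
    rw [mem_tor] at hP
    rw [AddSubgroup.mem_bot]
    exact ht P hP.1 hP.2
  have hfin : (tor (⊤ : AddSubgroup (PtK v a b)) : Set (PtK v a b)).Finite := by
    have hFI : H.FiniteIndex := ⟨hi⟩
    have hF : Finite (PtK v a b ⧸ H) := inferInstance
    refine Set.Finite.of_finite_image (f := fun P : PtK v a b => (P : PtK v a b ⧸ H))
      (Set.toFinite _) ?_
    intro P hP Q hQ hPQ
    have h1 : -P + Q ∈ H := QuotientAddGroup.eq.1 hPQ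
    have h2 : (2 : ℤ) • (-P + Q) = 0 := by
      have hP2 : (2 : ℤ) • P = 0 := (mem_tor.1 hP).2
      have hQ2 : (2 : ℤ) • Q = 0 := (mem_tor.1 hQ).2
      rw [smul_add, smul_neg, hP2, hQ2, neg_zero, add_zero]
    have h3 := ht _ h1 h2
    exact neg_add_eq_zero.1 h3
  have h := hq_index (M := M) hodd hst htop le_top (by
    rw [AddSubgroup.relIndex_top_right]
    exact hi) hfin
  rw [htor, hq_self hbot, mul_one] at h
  rw [Sg_D2, Sg_T2]
  exact h

theorem EE_dbl (v : HeightOneSpectrum (𝓞 F)) {a b : K}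
    (ha : v.valuation F (algebraMap K F a) ≤ 1)
    (hb : v.valuation F (algebraMap K F b) ≤ 1) (hD : 4 * a ^ 3 + 27 * b ^ 2 ≠ 0) {m : ℕ}
    (hm : 1 ≤ m) {H : AddSubgroup (PtK v a b)} (hH : ∀ P, P ∈ H ↔ Lv Valued.v m P)
    (hfin : (D2 v (algebraMap K F a) (algebraMap K F b)).index ≠ 0) :
    (dbl H).relIndex H ≠ 0 := by
  have hi : H.index ≠ 0 := EE_fin v (Sg_val v ha) (Sg_val v hb) (Sg_D v hD) hm hH
  have h := herbrand H hi (Sg_tor v ha hb hm hH)
  intro h0
  apply hfin
  have h1 : (D2 v (algebraMap K F a) (algebraMap K F b)).index =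
      Nat.card (zsmulAddGroupHom (α := PtK v a b) (2 : ℤ)).ker * (dbl H).relIndex H := h
  rw [h1, h0, mul_zero]

end H76SD
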