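import Pool.Agent.H76.SD.Df
import Pool.Agent.H30.ZO.Bh

/-!
ROW Si (project MP_78d38b_OD). About 100 lines: `P^m` and the integers.
PROOF. `(PP v m).relIndex (OO v) ≠ 0`: the integers of the completion modulo `P^m` are finite: private lemmas `Bf_dense`, `Bf_res`, `Bf_net` of Pool/Agent/H30/ZO/Bf.lean (`∃ R finite, ∀ t, Valued.v t ≤ 1 → ∃ r ∈ R, Valued.v (t - r) ≤ exp (-N)`; copy them or use Mathlib: finiteness of the quotient). So every coset of `PP v m` in `OO v` contains an element congruent to an element of `R`: finitely many cosets. Stable: `H30OD.act_val`. No two-torsion: characteristic zero (`H36CY.char_zero`).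
`H24TD.hq_index` with `N = PP v m ≤ N' = OO v`: `hq (OO) (dbl OO) * hq (tor PP) ⊥ = hq PP (dbl PP) * hq (tor OO) ⊥`, both `tor` are `⊥` and `hq ⊥ ⊥ = 1`.
OO_dbl: `dbl (OO v) = PP v (e2 v)` (`V 2 = exp (-e2 v)`), finite index by the above.
-/

set_option autoImplicit false
set_option linter.unusedSectionVars false
open scoped Classical

open WithZero NumberField IsDedekindDomain H38RT H76PP H30ZO H73P2 H30OD H36CY H24TD H88OD Pool.Agent.H10
open H38T1 (SC sc scu rep eo la si OddP)

namespace H76SD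

variable {K F : Type} [Field K] [NumberField K] [Field F] [NumberField F] [Algebra K F]

section Net

variable {k : Type} [Field k] [NumberField k] (v : HeightOneSpectrum (𝓞 k))

private theorem Si_dense (x : v.adicCompletion k) :
    ∃ c : k, Valued.v (algebraMap k (v.adicCompletion k) c - x) < 1 := by
  have hd := HeightOneSpectrum.denseRange_algebraMap (K := k) v
  have hopen : IsOpen {y : v.adicCompletion k | Valued.v (y - x) < 1} := by
    have h1 : IsOpen {y : v.adicCompletion k | Valued.v y < 1} := by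
      obtain ⟨t, ht⟩ := v.valuedAdicCompletion_surjective k (1 : WithZero (Multiplicative ℤ))
      have := Valued.isOpen_ball (v.adicCompletion k) (Valued.v.restrict t)
      simp_rw [Valuation.restrict_lt_iff] at this
      rwa [ht] at this
    exact h1.preimage (continuous_sub_right x)
  obtain ⟨c, hc⟩ := hd.exists_mem_open hopen ⟨x, by simp⟩
  exact ⟨c, hc⟩

private theorem Si_val (x : k) :
    Valued.v (algebraMap k (v.adicCompletion k) x) = v.valuation k x :=
  v.valuedAdicCompletion_eq_valuation' (K := k) x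

private theorem Si_res : ∃ R : Set (v.adicCompletion k), R.Finite ∧
    ∀ t : v.adicCompletion k, Valued.v t ≤ 1 → ∃ r ∈ R, Valued.v (t - r) < 1 := by
  have hfin : Finite (𝓞 k ⧸ v.asIdeal) := Ideal.finiteQuotientOfFreeOfNeBot v.asIdeal v.ne_bot
  refine ⟨Set.range fun q : 𝓞 k ⧸ v.asIdeal =>
    algebraMap k (v.adicCompletion k) ((Quotient.out q : 𝓞 k) : k), Set.finite_range _, ?_⟩
  intro t ht
  obtain ⟨c, hc⟩ := Si_dense v t
  have h1 : v.valuation k c ≤ 1 := by
    rw [← Si_val v c]
    have e1 : algebraMap k (v.adicCompletion k) c =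
        (algebraMap k (v.adicCompletion k) c - t) + t := by ring
    rw [e1]
    exact Valuation.map_add_le _ hc.le ht
  obtain ⟨a, ha⟩ := H76PP.Tf_approx v h1
  refine ⟨_, ⟨Ideal.Quotient.mk v.asIdeal a, rfl⟩, ?_⟩
  have h3 : a - (Quotient.out (Ideal.Quotient.mk v.asIdeal a) : 𝓞 k) ∈ v.asIdeal := by
    rw [← Ideal.Quotient.eq]
    exact (Quotient.out_eq (Ideal.Quotient.mk v.asIdeal a)).symm
  have h4 : v.valuation k (((a - (Quotient.out (Ideal.Quotient.mk v.asIdeal a) : 𝓞 k) : 𝓞 k)) : k)
      < 1 := (v.valuation_lt_one_iff_mem _).2 h3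
  set o : 𝓞 k := (Quotient.out (Ideal.Quotient.mk v.asIdeal a) : 𝓞 k) with ho
  have e1 : t - algebraMap k (v.adicCompletion k) (o : k) =
      -(algebraMap k (v.adicCompletion k) c - t) +
        (algebraMap k (v.adicCompletion k) (c - (a : k)) +
          algebraMap k (v.adicCompletion k) ((a - o : 𝓞 k) : k)) := by
    have e0 : ((a - o : 𝓞 k) : k) = (a : k) - (o : k) := map_sub (algebraMap (𝓞 k) k) a o
    rw [e0, map_sub, map_sub]
    ring
  rw [e1]
  refine Valuation.map_add_lt _ ?_ (Valuation.map_add_lt _ ?_ ?_)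
  · rw [Valuation.map_neg]
    exact hc
  · rw [Si_val]
    exact ha
  · rw [Si_val]
    exact h4

private theorem Si_net (N : ℕ) : ∃ R : Set (v.adicCompletion k), R.Finite ∧
    ∀ t : v.adicCompletion k, Valued.v t ≤ 1 → ∃ r ∈ R, Valued.v (t - r) ≤ exp (-(N : ℤ)) := by
  obtain ⟨π, hπ⟩ := v.valuedAdicCompletion_surjective k (exp (-1 : ℤ))
  have hπ0 : π ≠ 0 := by
    rintro rfl
    rw [map_zero] at hπ
    exact exp_ne_zero hπ.symm
  have hpow : ∀ n : ℕ, Valued.v (π ^ n) = exp (-(n : ℤ)) := by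
    intro n
    rw [map_pow, hπ, ← exp_nsmul]
    congr 1
    simp
  obtain ⟨R₀, hR₀, hR⟩ := Si_res v
  induction N with
  | zero =>
    refine ⟨{0}, Set.finite_singleton 0, fun t ht => ⟨0, rfl, ?_⟩⟩
    simpa using ht
  | succ N ih =>
    obtain ⟨S, hS, hS'⟩ := ih
    refine ⟨Set.image2 (fun s r => s + π ^ N * r) S R₀, hS.image2 _ hR₀, fun t ht => ?_⟩
    obtain ⟨s, hs, hst⟩ := hS' t ht
    have h1 : Valued.v ((t - s) / π ^ N) ≤ 1 := by
      rw [map_div₀, hpow]
      exact div_le_one_of_le₀ hst zero_le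
    obtain ⟨r, hr, hrt⟩ := hR _ h1
    refine ⟨s + π ^ N * r, ⟨s, hs, r, hr, rfl⟩, ?_⟩
    have e1 : t - (s + π ^ N * r) = π ^ N * ((t - s) / π ^ N - r) := by
      field_simp
      ring
    have h2 : Valued.v ((t - s) / π ^ N - r) ≤ exp (-1 : ℤ) := by
      by_cases h0 : Valued.v ((t - s) / π ^ N - r) = 0
      · rw [h0]
        exact zero_le
      · rw [← log_le_iff_le_exp h0]
        have h3 := (log_lt_log h0 one_ne_zero).2 hrt
        rw [log_one] at h3
        omega
    rw [e1, map_mul, hpow]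
    have e2 : (-((N + 1 : ℕ) : ℤ)) = -(N : ℤ) + -1 := by push_cast; ring
    rw [e2, exp_add]
    exact mul_le_mul' le_rfl h2

end Net

theorem V_two {F : Type} [Field F] [NumberField F] (v : HeightOneSpectrum (𝓞 F)) :
    Valued.v (2 : v.adicCompletion F) = exp (-(e2 v : ℤ)) := by
  have h := v.valuedAdicCompletion_eq_valuation' (K := F) 2
  rw [← e2_spec v, ← h]
  congr 1
  exact (map_ofNat (algebraMap F (v.adicCompletion F)) 2).symm

theorem zs2 {F : Type} [Field F] [NumberField F] (v : HeightOneSpectrum (𝓞 F))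
    (x : v.adicCompletion F) : (2 : ℤ) • x = 2 * x := by
  rw [two_zsmul, two_mul]

theorem mem_dbl_PP {F : Type} [Field F] [NumberField F] (v : HeightOneSpectrum (𝓞 F)) (m : ℕ) :
    dbl (PP v m) = PP v (m + e2 v) := by
  have h2 := V_two v
  have h20 : (2 : v.adicCompletion F) ≠ 0 := by
    intro h
    rw [h, map_zero] at h2
    exact exp_ne_zero h2.symm
  have e1 : exp (-((m + e2 v : ℕ) : ℤ)) = exp (-(e2 v : ℤ)) * exp (-(m : ℤ)) := by
    rw [← exp_add]
    congr 1
    push_cast
    ring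
  ext x
  rw [mem_dbl, mem_PP, e1]
  constructor
  · rintro ⟨y, hy, rfl⟩
    rw [zs2, map_mul, h2]
    exact mul_le_mul' le_rfl (mem_PP.1 hy)
  · intro hx
    refine ⟨x / 2, ?_, ?_⟩
    · rw [mem_PP, map_div₀, h2]
      rw [div_le_iff₀ (zero_lt_iff.2 exp_ne_zero), mul_comm]
      exact hx
    · rw [zs2]
      field_simp

theorem dbl_OO {F : Type} [Field F] [NumberField F] (v : HeightOneSpectrum (𝓞 F)) :
    dbl (OO v) = PP v (e2 v) := by
  have e0 : OO v = PP v 0 := by
    ext x
    rw [mem_OO, mem_PP]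
    simp
  rw [e0, mem_dbl_PP, Nat.zero_add]

theorem PP_fin {F : Type} [Field F] [NumberField F] (v : HeightOneSpectrum (𝓞 F)) (m : ℕ) :
    (PP v m).relIndex (OO v) ≠ 0 := by
  obtain ⟨R, hR, hR'⟩ := Si_net v m
  choose r hr1 hr2 using hR'
  have hfR : Finite R := hR
  have hfin : Finite (OO v ⧸ (PP v m).addSubgroupOf (OO v)) := by
    refine Finite.of_injective
      (fun q : OO v ⧸ (PP v m).addSubgroupOf (OO v) =>
        (⟨r (q.out : v.adicCompletion F) q.out.2, hr1 _ _⟩ : R)) ?_
    intro q q' h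
    have h1 : r (q.out : v.adicCompletion F) q.out.2 = r (q'.out : v.adicCompletion F) q'.out.2 :=
      congrArg Subtype.val h
    rw [← QuotientAddGroup.out_eq' q, ← QuotientAddGroup.out_eq' q', QuotientAddGroup.eq,
      AddSubgroup.mem_addSubgroupOf]
    have h2 := hr2 (q.out : v.adicCompletion F) q.out.2
    have h3 := hr2 (q'.out : v.adicCompletion F) q'.out.2
    rw [← h1] at h3
    have e1 : ((-q.out + q'.out : OO v) : v.adicCompletion F) =
        ((q'.out : v.adicCompletion F) - r (q.out : v.adicCompletion F) q.out.2) -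
        ((q.out : v.adicCompletion F) - r (q.out : v.adicCompletion F) q.out.2) := by
      push_cast
      ring
    rw [e1, mem_PP]
    exact Valuation.map_sub_le _ h3 h2
  exact AddSubgroup.index_ne_zero_of_finite

theorem PP_stab (v : HeightOneSpectrum (𝓞 F)) (m : ℕ) : Stab (Dec K v) (PP v m) := by
  intro g x hx
  rw [comp_smul, mem_PP, act_val]
  exact hx

theorem OO_stab' (v : HeightOneSpectrum (𝓞 F)) : Stab (Dec K v) (OO v) := by
  intro g x hx
  rw [comp_smul, mem_OO, act_val]
  exact hx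

theorem tor_bot {F : Type} [Field F] [NumberField F] (v : HeightOneSpectrum (𝓞 F))
    (A : AddSubgroup (v.adicCompletion F)) : tor A = ⊥ := by
  have h20 : (2 : v.adicCompletion F) ≠ 0 := by
    intro h
    have h2 := V_two v
    rw [h, map_zero] at h2
    exact exp_ne_zero h2.symm
  rw [eq_bot_iff]
  intro x hx
  rw [mem_tor, zs2, mul_eq_zero] at hx
  rw [AddSubgroup.mem_bot]
  exact hx.2.resolve_left h20

theorem hq_PP_OO (v : HeightOneSpectrum (𝓞 F)) (hodd : Odd (Nat.card (Dec K v)))
    (hfinD : Finite (Dec K v)) (m : ℕ)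
    (M : Type) [AddCommGroup M] [DistribMulAction (Dec K v) M] [Finite M] :
    hq (Dec K v) M (PP v m) (dbl (PP v m)) = hq (Dec K v) M (OO v) (dbl (OO v)) := by
  have hle : PP v m ≤ OO v := by
    intro x hx
    rw [mem_PP] at hx
    rw [mem_OO]
    refine hx.trans ?_
    rw [← exp_zero, exp_le_exp]
    omega
  have h := hq_index (M := M) hodd (PP_stab v m) (OO_stab' v) hle (PP_fin v m)
    (by rw [tor_bot]; exact Set.finite_singleton 0)
  have hb : Stab (Dec K v) (⊥ : AddSubgroup (v.adicCompletion F)) := by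
    intro g x hx
    rw [AddSubgroup.mem_bot] at hx ⊢
    rw [hx, smul_zero]
  rw [tor_bot, tor_bot, hq_self hb, mul_one, mul_one] at h
  exact h.symm

theorem OO_dbl (v : HeightOneSpectrum (𝓞 F)) : (dbl (OO v)).relIndex (OO v) ≠ 0 := by
  rw [dbl_OO]
  exact PP_fin v _

theorem OO_stab (v : HeightOneSpectrum (𝓞 F)) :
    Stab (Dec K v) (OO v) ∧ Stab (Dec K v) (dbl (OO v)) := by
  refine ⟨OO_stab' v, ?_⟩
  rw [dbl_OO]
  exact PP_stab v _

end H76SD
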