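import Pool.Agent.H76.SD.Df
import Pool.Agent.H76.SD.Si
import Pool.Agent.H76.SD.Sg

/-!
ROW Sh (project MP_78d38b_OD). About 150 lines: the subgroup of level `m` modulo two is at least as large as `P^m / 2 P^m`.
PROOF. `e := e2 v`, `V := Valued.v`. `H30ZO.exists_EE` (for `m`): `V (zt (P + Q) - zt P - zt Q) ≤ exp (-(5 m))` for `P, Q ∈ H`, `zt (-P) = -zt P`; `5 m ≥ m + e` as `e ≤ 4 m`. `V (zt P) ≤ exp (-m)` for `P ∈ H` (`ZOBe_zt_le` in Be.lean, private: copy). `H30ZO.exists_zt`: `zt : H → P^m` is surjective.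
`H' := {P ∈ H | zt P ∈ PP v (m + e)}` is a subgroup (zt additive modulo `PP v (m + e)`), stable, `dbl H ≤ H' ≤ H` (`zt (2 P) ≡ 2 zt P`, `V (2 zt P) ≤ exp (-(e + m))`: `V 2 = exp (-e)`, `H30ZO.e2_spec`, `valuedAdicCompletion_eq_valuation'`). `zt (g • P) = act v g (zt P)`.
`hq H (dbl H) = hq H' (dbl H) * hq H H'` (`H24TD.hq_mul`) `≥ hq H H'` (`hq_pos` for `H'`, `dbl H`: finite index by `hfin`).
`Z := {(P, t) ∈ H × F_v | t ∈ PP v m ∧ zt P - t ∈ PP v (m + e)}` is a stable subgroup of `PtK v a b × v.adicCompletion F`, `Z₀ := {(P, t) ∈ Z | t ∈ PP v (m + e)} = {(P, t) ∈ Z | P ∈ H'}`. `H24TD.hq_iso` for both projections: `hq H H' = hq Z Z₀ = hq (PP v m) (PP v (m + e))` (surjective: `(P, zt P)` and exists_zt). `PP v (m + e) = dbl (PP v m)` (`x = 2 (x / 2)`; `dbl` is the image of `2 •`; `(2 : ℤ) • x = 2 * x`).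
-/

set_option autoImplicit false
set_option linter.unusedSectionVars false
open scoped Classical

open WithZero NumberField IsDedekindDomain H38RT H76PP H30ZO H73P2 H30OD H36CY H24TD H88OD Pool.Agent.H10
open H38T1 (SC sc scu rep eo la si OddP)

namespace H76SD

variable {K F : Type} [Field K] [NumberField K] [Field F] [NumberField F] [Algebra K F]

private theorem Sh_zt_le {F : Type} [Field F] {V : Valuation F (WithZero (Multiplicative ℤ))}
    {A B : F} (hA : V A ≤ 1) (hB : V B ≤ 1) {m : ℕ} (hm : 1 ≤ m) {P : Pc A B}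
    (hP : Lv V m P) : V (zt P) ≤ exp (-(m : ℤ)) := by
  rcases hP with rfl | ⟨x, y, h, rfl, hx⟩
  · rw [zt_zero, map_zero]
    exact zero_le
  rw [zt_some]
  have e1 : y ^ 2 = x ^ 3 + A * x + B := H73P2.Lb_eqn h
  have hx1 : 1 < V x := by
    refine lt_of_lt_of_le ?_ hx
    rw [← exp_zero, exp_lt_exp]
    omega
  have hx0 : V x ≠ 0 := (lt_trans zero_lt_one hx1).ne'
  have h3 : V x < V x ^ 3 := by
    have h4 : V x ^ 1 < V x ^ 3 := pow_lt_pow_right₀ hx1 (by norm_num)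
    rwa [pow_one] at h4
  have h5 : V (A * x + B) ≤ V x := by
    refine V.map_add_le ?_ (le_trans hB hx1.le)
    rw [map_mul]
    calc V A * V x ≤ 1 * V x := mul_le_mul_left hA _
      _ = V x := one_mul _
  have h6 : V y ^ 2 = V x ^ 3 := by
    rw [← map_pow, e1, add_assoc, Valuation.map_add_eq_of_lt_left, map_pow]
    rw [map_pow]
    exact lt_of_le_of_lt h5 h3
  have h7 : V (x / y) ^ 2 ≤ exp (-(m : ℤ)) ^ 2 := by
    rw [map_div₀, div_pow, h6]
    have h8 : V x ^ 2 / V x ^ 3 = (V x)⁻¹ := by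
      field_simp
    rw [h8, ← exp_nsmul]
    have h9 : (2 : ℕ) • (-(m : ℤ)) = -(2 * (m : ℤ)) := by
      rw [smul_neg, nsmul_eq_mul]
      push_cast
      rfl
    rw [h9, exp_neg]
    exact inv_anti₀ (by exact exp_pos) hx
  exact (pow_le_pow_iff_left₀ zero_le zero_le two_ne_zero).1 h7


theorem Sh_zt_smul (v : HeightOneSpectrum (𝓞 F)) {a b : K} (g : Dec K v) (P : PtK v a b) :
    zt (g • P) = act v g (zt P) := by
  rw [pt_smul]
  rcases P with _ | ⟨x, y, h⟩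
  · change (0 : v.adicCompletion F) = act v g 0
    rw [map_zero]
  · rw [pm_some, zt_some, zt_some, map_div₀]

theorem hq_EE_PP (v : HeightOneSpectrum (𝓞 F)) {a b : K} (hodd : Odd (Nat.card (Dec K v)))
    (hfinD : Finite (Dec K v)) (ha : v.valuation F (algebraMap K F a) ≤ 1)
    (hb : v.valuation F (algebraMap K F b) ≤ 1) {m : ℕ}
    (hm : 1 ≤ m) (he : e2 v ≤ 4 * m) {H : AddSubgroup (PtK v a b)}
    (hH : ∀ P, P ∈ H ↔ Lv Valued.v m P) (hfin : (dbl H).relIndex H ≠ 0)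
    (M : Type) [AddCommGroup M] [DistribMulAction (Dec K v) M] [Finite M] :
    hq (Dec K v) M (PP v m) (dbl (PP v m)) ≤ hq (Dec K v) M H (dbl H) := by
  have hA := Sg_val v ha
  have hB := Sg_val v hb
  obtain ⟨H₁, k1, k2, k3, -⟩ := exists_EE (Sg_two v) (V := Valued.v) hA hB hm
  have hadd : ∀ P ∈ H, ∀ Q ∈ H, zt (P + Q) - zt P - zt Q ∈ PP v (m + e2 v) := by
    intro P hP Q hQ
    rw [mem_PP]
    refine (k2 P ((k1 P).2 ((hH P).1 hP)) Q ((k1 Q).2 ((hH Q).1 hQ))).trans ?_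
    rw [exp_le_exp]
    push_cast
    omega
  have hzt : ∀ P ∈ H, zt P ∈ PP v m := fun P hP => Sh_zt_le hA hB hm ((hH P).1 hP)
  have hsH := Sg_stab v hH
  -- the subgroup `H'`
  let H' : AddSubgroup (PtK v a b) :=
    { carrier := {P | P ∈ H ∧ zt P ∈ PP v (m + e2 v)}
      zero_mem' := ⟨H.zero_mem, by
        rw [zt_zero]
        exact (PP v (m + e2 v)).zero_mem⟩
      add_mem' := by
        rintro P Q ⟨hP, hP'⟩ ⟨hQ, hQ'⟩
        refine ⟨H.add_mem hP hQ, ?_⟩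
        have e : zt (P + Q) = (zt (P + Q) - zt P - zt Q) + (zt P + zt Q) := by ring
        rw [e]
        exact (PP v (m + e2 v)).add_mem (hadd P hP Q hQ) ((PP v (m + e2 v)).add_mem hP' hQ')
      neg_mem' := by
        rintro P ⟨hP, hP'⟩
        refine ⟨H.neg_mem hP, ?_⟩
        rw [k3]
        exact (PP v (m + e2 v)).neg_mem hP' }
  have mH' : ∀ P, P ∈ H' ↔ P ∈ H ∧ zt P ∈ PP v (m + e2 v) := fun P => Iff.rfl
  have hsH' : Stab (Dec K v) H' := by
    intro g P hP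
    rw [mH'] at hP ⊢
    refine ⟨hsH g P hP.1, ?_⟩
    rw [Sh_zt_smul]
    exact PP_stab v _ g _ hP.2
  have hdbl : dbl H ≤ H' := by
    intro P hP
    obtain ⟨Q, hQ, rfl⟩ := mem_dbl.1 hP
    rw [mH']
    refine ⟨H.zsmul_mem hQ 2, ?_⟩
    rw [two_zsmul]
    have e : zt (Q + Q) = (zt (Q + Q) - zt Q - zt Q) + 2 * zt Q := by ring
    rw [e]
    refine (PP v (m + e2 v)).add_mem (hadd Q hQ Q hQ) ?_
    rw [← mem_dbl_PP, mem_dbl]
    exact ⟨zt Q, hzt Q hQ, zs2 v _⟩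
  have hle : H' ≤ H := fun P hP => ((mH' P).1 hP).1
  have hsd : Stab (Dec K v) (dbl H) := by
    intro g P hP
    obtain ⟨Q, hQ, rfl⟩ := mem_dbl.1 hP
    rw [mem_dbl]
    refine ⟨g • Q, hsH g Q hQ, ?_⟩
    exact (map_zsmul (DistribSMul.toAddMonoidHom (PtK v a b) g) 2 Q).symm
  -- the auxiliary group
  let Z : AddSubgroup (PtK v a b × v.adicCompletion F) :=
    { carrier := {p | p.1 ∈ H ∧ p.2 ∈ PP v m ∧ zt p.1 - p.2 ∈ PP v (m + e2 v)}
      zero_mem' := by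
        refine ⟨H.zero_mem, (PP v m).zero_mem, ?_⟩
        change zt (0 : PtK v a b) - 0 ∈ PP v (m + e2 v)
        rw [zt_zero, sub_zero]
        exact (PP v (m + e2 v)).zero_mem
      add_mem' := by
        rintro ⟨P, t⟩ ⟨Q, s⟩ ⟨hP, ht, hPt⟩ ⟨hQ, hs, hQs⟩
        refine ⟨H.add_mem hP hQ, (PP v m).add_mem ht hs, ?_⟩
        change zt (P + Q) - (t + s) ∈ PP v (m + e2 v)
        have e : zt (P + Q) - (t + s) = (zt (P + Q) - zt P - zt Q) + ((zt P - t) + (zt Q - s)) := by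
          ring
        rw [e]
        exact (PP v (m + e2 v)).add_mem (hadd P hP Q hQ) ((PP v (m + e2 v)).add_mem hPt hQs)
      neg_mem' := by
        rintro ⟨P, t⟩ ⟨hP, ht, hPt⟩
        refine ⟨H.neg_mem hP, (PP v m).neg_mem ht, ?_⟩
        change zt (-P) - (-t) ∈ PP v (m + e2 v)
        have e : zt (-P) - (-t) = -(zt P - t) := by rw [k3]; ring
        rw [e]
        exact (PP v (m + e2 v)).neg_mem hPt }
  have mZ : ∀ (P : PtK v a b) (t : v.adicCompletion F), (P, t) ∈ Z ↔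
      P ∈ H ∧ t ∈ PP v m ∧ zt P - t ∈ PP v (m + e2 v) := fun P t => Iff.rfl
  obtain ⟨Z₀, hZ₀⟩ : ∃ Z₀ : AddSubgroup (PtK v a b × v.adicCompletion F),
      Z₀ = Z ⊓ (PP v (m + e2 v)).comap (AddMonoidHom.snd (PtK v a b) (v.adicCompletion F)) :=
    ⟨_, rfl⟩
  have mZ₀ : ∀ (P : PtK v a b) (t : v.adicCompletion F), (P, t) ∈ Z₀ ↔
      (P, t) ∈ Z ∧ t ∈ PP v (m + e2 v) := fun P t => by
    rw [hZ₀]
    exact Iff.rfl
  have hsZ : Stab (Dec K v) Z := by
    rintro g ⟨P, t⟩ hp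
    rw [mZ] at hp
    change (g • P, g • t) ∈ Z
    rw [mZ]
    refine ⟨hsH g P hp.1, PP_stab v m g t hp.2.1, ?_⟩
    rw [Sh_zt_smul, comp_smul, ← map_sub, ← comp_smul]
    exact PP_stab v _ g _ hp.2.2
  have hsZ₀ : Stab (Dec K v) Z₀ := by
    rintro g ⟨P, t⟩ hp
    rw [mZ₀] at hp
    change (g • P, g • t) ∈ Z₀
    rw [mZ₀]
    exact ⟨hsZ g (P, t) hp.1, PP_stab v _ g t hp.2⟩
  have hPPle : PP v (m + e2 v) ≤ PP v m := by
    rw [← mem_dbl_PP]
    intro x hx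
    obtain ⟨y, hy, rfl⟩ := mem_dbl.1 hx
    exact (PP v m).zsmul_mem hy 2
  have e1 : hq (Dec K v) M Z Z₀ = hq (Dec K v) M H H' := by
    refine hq_iso (AddMonoidHom.fst (PtK v a b) (v.adicCompletion F)) (fun g x => rfl)
      hsZ hsZ₀ hsH hsH' ?_ ?_ ?_
    · rintro _ ⟨⟨P, t⟩, hp, rfl⟩
      exact ((mZ P t).1 hp).1
    · intro P hP
      refine AddSubgroup.mem_sup_right ⟨(P, zt P), ?_, rfl⟩
      refine (mZ P (zt P)).2 ⟨hP, hzt P hP, ?_⟩
      rw [sub_self]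
      exact (PP v (m + e2 v)).zero_mem
    · rintro ⟨P, t⟩ hp
      rw [mZ] at hp
      change P ∈ H' ↔ (P, t) ∈ Z₀
      rw [mH', mZ₀, mZ]
      constructor
      · rintro ⟨-, h⟩
        refine ⟨hp, ?_⟩
        have e : t = zt P - (zt P - t) := by ring
        rw [e]
        exact (PP v (m + e2 v)).sub_mem h hp.2.2
      · rintro ⟨-, h⟩
        refine ⟨hp.1, ?_⟩
        have e : zt P = (zt P - t) + t := by ring
        rw [e]
        exact (PP v (m + e2 v)).add_mem hp.2.2 h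
  have e2' : hq (Dec K v) M Z Z₀ = hq (Dec K v) M (PP v m) (PP v (m + e2 v)) := by
    refine hq_iso (AddMonoidHom.snd (PtK v a b) (v.adicCompletion F)) (fun g x => rfl)
      hsZ hsZ₀ (PP_stab v m) (PP_stab v _) ?_ ?_ ?_
    · rintro _ ⟨⟨P, t⟩, hp, rfl⟩
      exact ((mZ P t).1 hp).2.1
    · intro t ht
      obtain ⟨P, hP1, hP2⟩ := exists_zt v hA hB hm ht
      refine AddSubgroup.mem_sup_right ⟨(P, t), ?_, rfl⟩
      refine (mZ P t).2 ⟨(hH P).2 hP1, ht, ?_⟩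
      rw [hP2, sub_self]
      exact (PP v (m + e2 v)).zero_mem
    · rintro ⟨P, t⟩ hp
      change t ∈ PP v (m + e2 v) ↔ (P, t) ∈ Z₀
      rw [mZ₀]
      exact ⟨fun h => ⟨hp, h⟩, fun h => h.2⟩
  have hmul := hq_mul (M := M) hodd hsH hsH' hsd hdbl hle le_rfl
  have hri : (dbl H).relIndex H' ≠ 0 := by
    intro h0
    apply hfin
    rw [← AddSubgroup.relIndex_mul_relIndex (dbl H) H' H hdbl hle, h0, zero_mul]
  have hpos := hq_pos (M := M) hsH' hsd hri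
  rw [mem_dbl_PP, ← e2', e1, hmul]
  exact Nat.le_mul_of_pos_left _ hpos

end H76SD
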