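import Pool.Agent.H76.SD.Rh
import Pool.Agent.H30.ZO.Cg

/-!
ROW Sj (project MP_78d38b_OD). About 80 lines: the points of order two. Use only the STATEMENT of sd_four (Rh).
PROOF. An element of `T2` is `0` or `(r, 0)` with `r^3 + A r + B = 0` (Cg_y, Cg_eqn in Cg.lean, private: copy: `P + P = 0` iff `P = -P`, `y = -y`), and the cubic has at most three roots: so `T2` is finite with at most four elements (injection into `Option {roots}`, `Finset.card` of `Polynomial.roots` ≤ 3). `2 P = 0` by definition (`two_zsmul`). Stable: the action commutes with `2 •`. sd_four. T2_fin: see also `H30ZO.nb_T2`.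
-/

set_option autoImplicit false
set_option linter.unusedSectionVars false
open scoped Classical

open WithZero NumberField IsDedekindDomain H38RT H76PP H30ZO H73P2 H30OD H36CY H24TD H88OD Pool.Agent.H10
open H38T1 (SC sc scu rep eo la si OddP)

namespace H76SD

section Points

variable {F : Type} [Field F] {A B : F}

private theorem Sj_negY (x y : F) :
    (⟨0, 0, 0, A, B⟩ : WeierstrassCurve F).toAffine.negY x y = -y := by
  simp [WeierstrassCurve.Affine.negY]

private theorem Sj_eqn {x y : F}
    (h : (⟨0, 0, 0, A, B⟩ : WeierstrassCurve F).toAffine.Nonsingular x y) :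
    y ^ 2 = x ^ 3 + A * x + B := by
  have h1 := (WeierstrassCurve.Affine.equation_iff _ _).1 h.1
  linear_combination h1

private theorem Sj_ns {r : F} (hD : 4 * A ^ 3 + 27 * B ^ 2 ≠ 0) (hr : r ^ 3 + A * r + B = 0) :
    (⟨0, 0, 0, A, B⟩ : WeierstrassCurve F).toAffine.Nonsingular r 0 := by
  rw [WeierstrassCurve.Affine.nonsingular_iff, WeierstrassCurve.Affine.equation_iff]
  refine ⟨by linear_combination -hr, Or.inl ?_⟩
  intro h0
  apply hD
  linear_combination (27 * B - 18 * A * r) * hr - (6 * A * r ^ 2 - 9 * B * r + 4 * A ^ 2) * h0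

private theorem Sj_y {x y : F} (h2 : (2 : F) ≠ 0)
    (h : (⟨0, 0, 0, A, B⟩ : WeierstrassCurve F).toAffine.Nonsingular x y)
    (h0 : (2 : ℤ) • (WeierstrassCurve.Affine.Point.some x y h) = 0) :
    y = 0 ∧ x ^ 3 + A * x + B = 0 := by
  rw [two_zsmul, add_eq_zero_iff_eq_neg, WeierstrassCurve.Affine.Point.neg_some,
    WeierstrassCurve.Affine.Point.some.injEq, Sj_negY] at h0
  have hy : y = 0 := by
    have h3 : 2 * y = 0 := by linear_combination h0.2
    exact (mul_eq_zero.1 h3).resolve_left h2
  refine ⟨hy, ?_⟩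
  have h1 := Sj_eqn h
  rw [hy] at h1
  linear_combination -h1

private theorem Sj_fin : Finite {r : F | r ^ 3 + A * r + B = 0} ∧
    Nat.card {r : F | r ^ 3 + A * r + B = 0} ≤ 3 := by
  have hd : (Polynomial.X ^ 3 + Polynomial.C A * Polynomial.X + Polynomial.C B :
      Polynomial F).natDegree = 3 := by
    compute_degree!
  have hp : (Polynomial.X ^ 3 + Polynomial.C A * Polynomial.X + Polynomial.C B :
      Polynomial F) ≠ 0 := by
    intro h0
    rw [h0] at hd
    simp at hd
  have hsub : {r : F | r ^ 3 + A * r + B = 0} ⊆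
      ((Polynomial.X ^ 3 + Polynomial.C A * Polynomial.X + Polynomial.C B :
        Polynomial F).roots.toFinset : Set F) := fun r hr => by
    have hr' : r ^ 3 + A * r + B = 0 := hr
    rw [Finset.mem_coe, Multiset.mem_toFinset, Polynomial.mem_roots hp, Polynomial.IsRoot.def]
    simp [hr']
  refine ⟨((Finset.finite_toSet _).subset hsub).to_subtype, ?_⟩
  rw [Nat.card_coe_set_eq]
  refine (Set.ncard_le_ncard hsub (Finset.finite_toSet _)).trans ?_
  rw [Set.ncard_coe_finset]
  refine (Multiset.toFinset_card_le _).trans ?_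
  refine (Polynomial.card_roots' _).trans ?_
  rw [hd]

end Points

variable {K F : Type} [Field K] [NumberField K] [Field F] [NumberField F] [Algebra K F]

theorem T2_fin (v : HeightOneSpectrum (𝓞 F)) (a b : K) (hD : 4 * a ^ 3 + 27 * b ^ 2 ≠ 0) :
    Finite (T2 v (algebraMap K F a) (algebraMap K F b)) ∧
      Nat.card (T2 v (algebraMap K F a) (algebraMap K F b)) ≤ 4 := by
  have hmap0 : ∀ x : F, x ≠ 0 → algebraMap F (v.adicCompletion F) x ≠ 0 := fun x hx =>
    (map_ne_zero (algebraMap F (v.adicCompletion F))).2 hx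
  have h2 : (2 : v.adicCompletion F) ≠ 0 := by
    have := hmap0 2 two_ne_zero
    rwa [map_ofNat] at this
  have hDF : 4 * algebraMap K F a ^ 3 + 27 * algebraMap K F b ^ 2 ≠ 0 := by
    have h : 4 * (algebraMap K F a) ^ 3 + 27 * (algebraMap K F b) ^ 2 =
        algebraMap K F (4 * a ^ 3 + 27 * b ^ 2) := by
      simp only [map_add, map_mul, map_pow, map_ofNat]
    rw [h]
    exact (map_ne_zero (algebraMap K F)).2 hD
  have hD' : 4 * algebraMap F (v.adicCompletion F) (algebraMap K F a) ^ 3 +
      27 * algebraMap F (v.adicCompletion F) (algebraMap K F b) ^ 2 ≠ 0 := by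
    have := hmap0 _ hDF
    rw [map_add, map_mul, map_mul, map_pow, map_pow, map_ofNat, map_ofNat] at this
    exact this
  obtain ⟨hR, hRc⟩ := Sj_fin (A := algebraMap F (v.adicCompletion F) (algebraMap K F a))
    (B := algebraMap F (v.adicCompletion F) (algebraMap K F b))
  let φ : Option {r : v.adicCompletion F | r ^ 3 +
      algebraMap F (v.adicCompletion F) (algebraMap K F a) * r +
      algebraMap F (v.adicCompletion F) (algebraMap K F b) = 0} →
      Pt v (algebraMap K F a) (algebraMap K F b) := fun o =>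
    match o with
    | none => 0
    | some r => WeierstrassCurve.Affine.Point.some r.1 0 (Sj_ns hD' r.2)
  have hsub : ((T2 v (algebraMap K F a) (algebraMap K F b) :
      AddSubgroup (Pt v (algebraMap K F a) (algebraMap K F b))) :
        Set (Pt v (algebraMap K F a) (algebraMap K F b))) ⊆ Set.range φ := by
    intro P hP
    have hP' : (2 : ℤ) • P = 0 := hP
    rcases P with _ | ⟨x, y, hn⟩
    · exact ⟨none, rfl⟩
    · obtain ⟨hy, hx⟩ := Sj_y h2 hn hP'
      subst hy
      exact ⟨some ⟨x, hx⟩, rfl⟩
  refine ⟨((Set.finite_range φ).subset hsub).to_subtype, ?_⟩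
  have h1 : Nat.card (T2 v (algebraMap K F a) (algebraMap K F b)) =
      ((T2 v (algebraMap K F a) (algebraMap K F b) :
        AddSubgroup (Pt v (algebraMap K F a) (algebraMap K F b))) :
          Set (Pt v (algebraMap K F a) (algebraMap K F b))).ncard := Nat.card_coe_set_eq _
  rw [h1]
  refine (Set.ncard_le_ncard hsub (Set.finite_range φ)).trans ?_
  rw [← Set.image_univ]
  refine (Set.ncard_image_le Set.finite_univ).trans ?_
  rw [Set.ncard_univ, Finite.card_option]
  omega

theorem sd_T2 (v : HeightOneSpectrum (𝓞 F)) (a b : K) (hodd : Odd (Nat.card (Dec K v)))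
    (hfinD : Finite (Dec K v)) (hD : 4 * a ^ 3 + 27 * b ^ 2 ≠ 0) :
    Sd (Dec K v) (T2 v (algebraMap K F a) (algebraMap K F b) : AddSubgroup (PtK v a b)) ⊥ := by
  obtain ⟨hf, hc⟩ := T2_fin v a b hD
  refine sd_four hodd ?_ ?_ hf hc
  · intro g x hx
    have hx' : (2 : ℤ) • x = 0 := hx
    change (2 : ℤ) • (g • x) = 0
    rw [two_zsmul] at hx' ⊢
    rw [← smul_add, hx', smul_zero]
  · intro x hx
    have hx' : (2 : ℤ) • x = 0 := hx
    rwa [two_zsmul] at hx'

end H76SD
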