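import Pool.Agent.H76.SD.Rc
import Pool.Agent.H76.SD.Rd
import Pool.Agent.H76.SD.Si

/-!
ROW Sk (project MP_78d38b_OD). About 120 lines: the integers of `F` modulo two inject into the product over representatives. Use only the STATEMENTS of Rc, Rd, Si.
PROOF. `G := F ≃ₐ[K] F` acts on `F` (`g • x = g x`). `H := OF F`. For `v ∈ R` let `V v := {x ∈ OF F | ∀ g : G, v.valuation F (g x) ≤ v.valuation F 2}`, a stable subgroup with `dbl H ≤ V v ≤ H`. `⨅ v ∈ R, V v ⊓ H = dbl H`: let `x ∈ H` be in all `V v`; then `x / 2` is integral at all places: at `u` with `u.valuation 2 = 1` clear; if `u.valuation 2 < 1`, `u = gq g • v`, `v ∈ R`: `u.valuation F x = v.valuation F (g⁻¹ x) ≤ v.valuation F 2 = u.valuation F 2` (`H24TD.val_smul`); so `x / 2 ∈ OF F` (`H76OD.Lt_int` or `HeightOneSpectrum.mem_integers_of_valuation_le_one`; `IsIntegral ℤ` of elements of `𝓞 F`).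
hq_chain with `A = H = OF F`: `hq G M H (H ⊓ ⨅ v ∈ R, V v) ≤ ∏ v ∈ R, hq G M H (V v)`, and hq_ind_le with `D = Dec K v`, `u = algebraMap F (v.adicCompletion F)` as an additive map (`act_coe` for `hu`), `A' = OO v`, `B' = dbl (OO v)` (`u x ∈ dbl (OO v) ↔ v.valuation F x ≤ v.valuation F 2`: divide by 2): `hq G M H (V v) ≤ hq (Dec K v) M (OO v) (dbl (OO v))`. Finite index: `V v ≥ dbl H` and `(dbl (OF F)).relIndex (OF F) ≠ 0` (`𝓞 F` is a finitely generated group: OF_card in Sl, or hypothesis hfin here). `hG` is the oddness.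
-/

set_option autoImplicit false
set_option linter.unusedSectionVars false
open scoped Classical

open WithZero NumberField IsDedekindDomain H38RT H76PP H30ZO H73P2 H30OD H36CY H24TD H88OD Pool.Agent.H10
open H38T1 (SC sc scu rep eo la si OddP)

namespace H76SD

variable {K F : Type} [Field K] [NumberField K] [Field F] [NumberField F] [Algebra K F]

private theorem Sk_val {x : F} (hx : IsIntegral ℤ x) (v : HeightOneSpectrum (𝓞 F)) :
    v.valuation F x ≤ 1 := v.valuation_le_one (⟨x, hx⟩ : 𝓞 F)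

private theorem Sk_map {x : F} (hx : IsIntegral ℤ x) (g : F ≃ₐ[K] F) : IsIntegral ℤ (g x) :=
  map_isIntegral_int (g : F →+* F) hx

private theorem Sk_stab : Stab (F ≃ₐ[K] F) (OF F) := fun g _ hx => Sk_map hx g

/-- The integers which are divisible by two at all the places conjugate to `v`. -/
private def Sk_V (K : Type) {F : Type} [Field K] [NumberField K] [Field F] [NumberField F]
    [Algebra K F] (v : HeightOneSpectrum (𝓞 F)) : AddSubgroup F where
  carrier := {x | IsIntegral ℤ x ∧ ∀ g : F ≃ₐ[K] F, v.valuation F (g x) ≤ v.valuation F 2}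
  zero_mem' := ⟨isIntegral_zero, fun g => by rw [map_zero, map_zero]; exact zero_le⟩
  add_mem' := fun {x y} hx hy => ⟨hx.1.add hy.1, fun g => by
    rw [map_add]
    exact ((v.valuation F).map_add _ _).trans (max_le (hx.2 g) (hy.2 g))⟩
  neg_mem' := fun {x} hx => ⟨hx.1.neg, fun g => by
    rw [map_neg, Valuation.map_neg]
    exact hx.2 g⟩

private theorem Sk_mem {v : HeightOneSpectrum (𝓞 F)} {x : F} : x ∈ Sk_V K v ↔
    IsIntegral ℤ x ∧ ∀ g : F ≃ₐ[K] F, v.valuation F (g x) ≤ v.valuation F 2 := Iff.rfl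

private theorem Sk_Vstab (v : HeightOneSpectrum (𝓞 F)) : Stab (F ≃ₐ[K] F) (Sk_V K v) :=
  fun g _ hx => ⟨Sk_map hx.1 g, fun h => hx.2 (h * g)⟩

private theorem Sk_dbl (v : HeightOneSpectrum (𝓞 F)) : dbl (OF F) ≤ Sk_V K v := by
  intro x hx
  obtain ⟨y, hy, rfl⟩ := mem_dbl.1 hx
  have hy' : IsIntegral ℤ y := hy
  refine ⟨?_, fun g => ?_⟩
  · rw [two_zsmul]
    exact hy'.add hy'
  · rw [two_zsmul, ← two_mul, map_mul, map_mul, map_ofNat]
    exact mul_le_of_le_one_right' (Sk_val (Sk_map hy' g) v)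

private theorem Sk_inf (R : Finset (HeightOneSpectrum (𝓞 F)))
    (hR : ∀ v : HeightOneSpectrum (𝓞 F), v.valuation F 2 < 1 →
      ∃ g : F ≃ₐ[K] F, ∃ v' ∈ R, v = gq g • v') :
    OF F ⊓ ⨅ v ∈ R, Sk_V K v = dbl (OF F) := by
  apply le_antisymm
  · rintro x ⟨hx, hx2⟩
    have hx' : IsIntegral ℤ x := hx
    have h3 : ∀ v ∈ R, x ∈ Sk_V K v := by
      intro v hv
      have h4 : x ∈ ⨅ v ∈ R, Sk_V K v := hx2
      rw [AddSubgroup.mem_iInf] at h4
      have h5 := h4 v
      rw [AddSubgroup.mem_iInf] at h5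
      exact h5 hv
    have h20 : (2 : F) ≠ 0 := two_ne_zero
    have hall : ∀ u : HeightOneSpectrum (𝓞 F), u.valuation F (x / 2) ≤ 1 := by
      intro u
      have h6 : u.valuation F x ≤ u.valuation F 2 := by
        by_cases h2 : u.valuation F 2 < 1
        · obtain ⟨g, v', hv', rfl⟩ := hR u h2
          have h7 := (h3 v' hv').2 g⁻¹
          have e1 : gq g (g⁻¹ x) = x := by
            rw [gq_apply]
            exact g.apply_symm_apply x
          have e2 := H38T1.val_smul (gq g) v' (g⁻¹ x)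
          rw [e1] at e2
          have e3 := H38T1.val_smul (gq g) v' 2
          rw [map_ofNat] at e3
          rw [e2, e3]
          exact h7
        · push Not at h2
          exact (Sk_val hx' u).trans h2
      rw [map_div₀]
      exact div_le_one_of_le₀ h6 zero_le
    obtain ⟨A, hA⟩ := H76OD.Lt_int hall
    refine mem_dbl.2 ⟨x / 2, ?_, ?_⟩
    · rw [← hA]
      exact A.isIntegral_coe
    · rw [two_zsmul]
      exact add_halves x
  · intro x hx
    refine ⟨?_, ?_⟩
    · obtain ⟨y, hy, rfl⟩ := mem_dbl.1 hx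
      exact (OF F).zsmul_mem hy 2
    · change x ∈ ⨅ v ∈ R, Sk_V K v
      rw [AddSubgroup.mem_iInf]
      intro v
      rw [AddSubgroup.mem_iInf]
      intro _
      exact Sk_dbl v hx

private theorem Sk_iff {v : HeightOneSpectrum (𝓞 F)} {x : F} :
    algebraMap F (v.adicCompletion F) x ∈ dbl (OO v) ↔ v.valuation F x ≤ v.valuation F 2 := by
  rw [dbl_OO, mem_PP]
  have h1 : Valued.v (algebraMap F (v.adicCompletion F) x) = v.valuation F x :=
    v.valuedAdicCompletion_eq_valuation' (K := F) x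
  rw [h1, ← e2_spec v]

theorem hq_OF (hodd : Odd (Nat.card (F ≃ₐ[K] F))) (hfin : (dbl (OF F)).relIndex (OF F) ≠ 0)
    (R : Finset (HeightOneSpectrum (𝓞 F)))
    (hR : ∀ v : HeightOneSpectrum (𝓞 F), v.valuation F 2 < 1 →
      ∃ g : F ≃ₐ[K] F, ∃ v' ∈ R, v = gq g • v')
    (M : Type) [AddCommGroup M] [DistribMulAction (F ≃ₐ[K] F) M] [Finite M] :
    hq (F ≃ₐ[K] F) M (OF F) (dbl (OF F)) ≤ ∏ v ∈ R, hq (Dec K v) M (OO v) (dbl (OO v)) := by
  have hrel : ∀ v ∈ R, (Sk_V K v).relIndex (OF F) ≠ 0 := by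
    intro v _
    exact ne_zero_of_dvd_ne_zero hfin (AddSubgroup.relIndex_dvd_of_le_left (OF F) (Sk_dbl v))
  have h1 := hq_chain hodd (A := OF F) (H := OF F) Sk_stab Sk_stab le_rfl R (fun v => Sk_V K v)
    (fun v _ => Sk_Vstab v) (fun v _ x hx => hx.1) (fun v _ => Sk_dbl v) hrel M
  rw [Sk_inf R hR] at h1
  refine h1.trans (Finset.prod_le_prod (fun _ _ => Nat.zero_le _) fun v hv => ?_)
  have hle : Sk_V K v ≤ OF F := fun x hx => (Sk_mem.1 hx).1
  refine hq_ind_le (Dec K v) (algebraMap F (v.adicCompletion F)).toAddMonoidHom ?_ Sk_stab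
    hle (OO_stab v).2 ?_ ?_ (OO_dbl v) M
  · intro g x
    exact (act_coe K v g x).symm
  · intro x hx
    constructor
    · intro h g
      exact Sk_iff.2 (h.2 g)
    · intro h
      exact ⟨hx, fun g => Sk_iff.1 (h g)⟩
  · intro x hx
    have h2 : Valued.v (algebraMap F (v.adicCompletion F) x) = v.valuation F x :=
      v.valuedAdicCompletion_eq_valuation' (K := F) x
    refine mem_OO.2 ?_
    change Valued.v (algebraMap F (v.adicCompletion F) x) ≤ 1
    rw [h2]
    exact Sk_val hx v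

end H76SD
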