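import Pool.Agent.H76.SD.Df
import Pool.Agent.H38.OD.Mb

/-!
ROW Sl (project MP_78d38b_OD). About 70 lines: the integers of `F`.
PROOF. sd_OF: `H26OD.lattice_sub` for `N = OF F` (in `X = F`): stable (`g x` is integral: `IsIntegral.map`), finitely generated (`𝓞 F` is a finite `ℤ`-module: `AddSubgroup.FG` from `Submodule.FG`/`Module.Finite ℤ (𝓞 F)`, image under the injective map `𝓞 F → F`), `x + x = 0 → x = 0`.
OF_card: `𝓞 F` is free of rank `finrank ℚ F` over `ℤ` (`RingOfIntegers.rank`); the index of `2 • ⊤` is `2 ^ rank` (e.g. `Ideal.absNorm (span {2}) = |Algebra.norm ℤ 2| = 2 ^ finrank` : `Ideal.absNorm_span_singleton`, `Algebra.norm_algebraMap`, and `Ideal.absNorm` is the cardinality of the quotient; or see `H24TD.Ya_card`/ card_sq_one in Pool/Agent/H24/TD/Ya.lean).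
-/

set_option autoImplicit false
set_option linter.unusedSectionVars false
open scoped Classical

open WithZero NumberField IsDedekindDomain H38RT H76PP H30ZO H73P2 H30OD H36CY H24TD H88OD Pool.Agent.H10
open H38T1 (SC sc scu rep eo la si OddP)

namespace H76SD

variable {K F : Type} [Field K] [NumberField K] [Field F] [NumberField F] [Algebra K F]

theorem OF_map (F : Type) [Field F] [NumberField F] :
    OF F = (⊤ : AddSubgroup (𝓞 F)).map (algebraMap (𝓞 F) F).toAddMonoidHom := by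
  ext x
  rw [mem_OF, AddSubgroup.mem_map]
  constructor
  · intro h
    exact ⟨⟨x, h⟩, AddSubgroup.mem_top _, rfl⟩
  · rintro ⟨y, -, rfl⟩
    exact y.2

theorem OF_stab : Stab (F ≃ₐ[K] F) (OF F) ∧ Stab (F ≃ₐ[K] F) (dbl (OF F)) := by
  have h1 : Stab (F ≃ₐ[K] F) (OF F) := by
    intro g x hx
    rw [mem_OF] at hx ⊢
    exact hx.map ((g : F →+* F).toIntAlgHom)
  refine ⟨h1, fun g x hx => ?_⟩
  unfold dbl at hx ⊢
  rw [AddSubgroup.mem_map] at hx ⊢
  obtain ⟨y, hy, rfl⟩ := hx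
  refine ⟨g • y, h1 g y hy, ?_⟩
  change (2 : ℤ) • (g • y) = g • ((2 : ℤ) • y)
  rw [smul_comm]

theorem sd_OF (hodd : Odd (Nat.card (F ≃ₐ[K] F))) : Sd (F ≃ₐ[K] F) (OF F) (dbl (OF F)) := by
  intro M _ _ _ hM
  refine H26OD.lattice_sub hodd OF_stab.1 ?_ ?_ M hM
  · rw [OF_map]
    have h1 : Module.Finite ℤ (𝓞 F) := inferInstance
    have h2 : AddGroup.FG (𝓞 F) := Module.Finite.iff_addGroup_fg.1 h1
    obtain ⟨T, hT⟩ : (⊤ : AddSubgroup (𝓞 F)).FG := AddGroup.fg_def.1 h2
    refine ⟨T.image (algebraMap (𝓞 F) F), ?_⟩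
    rw [← hT, AddMonoidHom.map_closure, Finset.coe_image]
    rfl
  · intro x _ hx
    have h1 : (2 : F) * x = 0 := by rw [two_mul]; exact hx
    exact (mul_eq_zero.1 h1).resolve_left two_ne_zero

private theorem Sl_card (F : Type) [Field F] [NumberField F] :
    Nat.card (𝓞 F ⧸ (Ideal.span {(2 : 𝓞 F)})) = 2 ^ Module.finrank ℚ F := by
  have h1 := Ideal.absNorm_span_singleton (S := 𝓞 F) 2
  rw [Ideal.absNorm_apply, Submodule.cardQuot_apply] at h1
  rw [h1]
  have h2 : (2 : 𝓞 F) = algebraMap ℤ (𝓞 F) 2 := by simp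
  rw [h2, Algebra.norm_algebraMap, RingOfIntegers.rank, Int.natAbs_pow]
  rfl

theorem OF_card (F : Type) [Field F] [NumberField F] :
    (dbl (OF F)).relIndex (OF F) = 2 ^ Module.finrank ℚ F := by
  have h1 : dbl (OF F) = (dbl (⊤ : AddSubgroup (𝓞 F))).map (algebraMap (𝓞 F) F).toAddMonoidHom := by
    rw [OF_map]
    unfold dbl
    rw [AddSubgroup.map_map, AddSubgroup.map_map]
    rfl
  rw [h1, OF_map]
  have hinj : Function.Injective (algebraMap (𝓞 F) F).toAddMonoidHom :=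
    IsFractionRing.injective (𝓞 F) F
  rw [AddSubgroup.relIndex_map_map_of_injective _ _ hinj, AddSubgroup.relIndex_top_right,
    ← Sl_card F]
  have h2 : dbl (⊤ : AddSubgroup (𝓞 F)) = (Ideal.span {(2 : 𝓞 F)}).toAddSubgroup := by
    ext x
    unfold dbl
    rw [AddSubgroup.mem_map, Submodule.mem_toAddSubgroup, Ideal.mem_span_singleton']
    constructor
    · rintro ⟨y, -, rfl⟩
      refine ⟨y, ?_⟩
      change y * 2 = (2 : ℤ) • y
      rw [zsmul_eq_mul, mul_comm]
      norm_num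
    · rintro ⟨y, rfl⟩
      refine ⟨y, AddSubgroup.mem_top _, ?_⟩
      change (2 : ℤ) • y = y * 2
      rw [zsmul_eq_mul, mul_comm]
      norm_num
  rw [h2]
  rfl

end H76SD
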