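import Pool.Agent.H76.SD.Df
import Pool.Agent.H38.OD.Mb
import Pool.Agent.H30.ZO.Ga

/-!
ROW Sm (project MP_78d38b_OD). (helper38) About 150 lines: the classes of the units of square norm.
PROOF. `N1 := {u ∈ SUa L {w | dn F w ∈ Sf} | norm u = 1} ≤ Additive Lˣ` with the action of `G` through `S.ρ`: stable, finitely generated (S-units), without two-torsion (`-1` has norm `-1`): `H26OD.lattice_sub`. `cls : Additive Lˣ →+ SC L` maps `N1` onto `US ⊓ HH` (`x ↦ x^3 / N x`) with kernel `dbl N1`: `H24TD.hq_iso`.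
-/

set_option autoImplicit false
set_option linter.unusedSectionVars false
open scoped Classical

open WithZero NumberField IsDedekindDomain H38RT H76PP H30ZO H73P2 H30OD H36CY H24TD H88OD Pool.Agent.H10
open H38T1 (SC sc scu rep eo la si OddP)

namespace H76SD

variable {K F L : Type} [Field K] [NumberField K] [Field F] [NumberField F] [Field L]
  [NumberField L] [Algebra K F] [Algebra F L] {a b : K} {θ : L}

/-- The places of `L` above the set `Sf`. -/
def Sm_ab (L : Type) [Field L] [NumberField L] [Algebra F L] (Sf : Finset (HeightOneSpectrum (𝓞 F))) :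
    Set (HeightOneSpectrum (𝓞 L)) := {w | dn F w ∈ Sf}

theorem Sm_ab_fin (Sf : Finset (HeightOneSpectrum (𝓞 F))) : (Sm_ab L Sf).Finite := by
  have h1 : Sm_ab L Sf = ⋃ v ∈ Sf, {w : HeightOneSpectrum (𝓞 L) | dn F w = v} := by
    ext w
    simp only [Set.mem_iUnion, Set.mem_ofPred_eq, Sm_ab]
    constructor
    · intro hw
      exact ⟨dn F w, hw, rfl⟩
    · rintro ⟨v, hv, hw⟩
      rw [hw]
      exact hv
  rw [h1]
  exact Sf.finite_toSet.biUnion fun v _ => fin_above v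

/-- The `S`-units of norm one. -/
noncomputable def Sm_N1 (L : Type) [Field L] [NumberField L] [Algebra F L] (Sf : Finset (HeightOneSpectrum (𝓞 F))) :
    AddSubgroup (Additive Lˣ) :=
  SUa L (Sm_ab L Sf) ⊓
    (MonoidHom.toAdditive (Units.map (Algebra.norm F : L →* F)) : Additive Lˣ →+ Additive Fˣ).ker

theorem Sm_mem_N1 {Sf : Finset (HeightOneSpectrum (𝓞 F))} {u : Additive Lˣ} :
    u ∈ Sm_N1 L Sf ↔ u ∈ SUa L (Sm_ab L Sf) ∧
      Algebra.norm F ((Additive.toMul u : Lˣ) : L) = 1 := by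
  rw [Sm_N1, AddSubgroup.mem_inf, AddMonoidHom.mem_ker]
  refine and_congr Iff.rfl ?_
  constructor
  · intro h
    exact congrArg (fun z : Additive Fˣ => ((Additive.toMul z : Fˣ) : F)) h
  · intro h
    apply Additive.toMul.injective
    apply Units.ext
    exact h

theorem Sm_N1_fg (Sf : Finset (HeightOneSpectrum (𝓞 F))) : (Sm_N1 L Sf).FG := by
  obtain ⟨h1, -⟩ := H24TD.RkU_A (K := L) (Sm_ab_fin Sf)
  have hle : Sm_N1 L Sf ≤ SUa L (Sm_ab L Sf) := inf_le_left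
  have h2 : Module.Finite ℤ ↥(Sm_N1 L Sf) := by
    refine Module.Finite.of_injective
      ((AddSubgroup.inclusion hle).toIntLinearMap : ↥(Sm_N1 L Sf) →ₗ[ℤ] ↥(SUa L (Sm_ab L Sf))) ?_
    exact AddSubgroup.inclusion_injective hle
  rw [Module.Finite.iff_addGroup_fg] at h2
  exact (AddGroup.fg_iff_addSubgroup_fg _).1 h2

theorem Sm_N1_tor (S : Ext K F L a b θ) (Sf : Finset (HeightOneSpectrum (𝓞 F))) :
    ∀ u ∈ Sm_N1 L Sf, u + u = 0 → u = 0 := by
  intro u hu h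
  rw [Sm_mem_N1] at hu
  have h1 : ((Additive.toMul u : Lˣ) : L) * ((Additive.toMul u : Lˣ) : L) = 1 :=
    congrArg (fun z : Additive Lˣ => ((Additive.toMul z : Lˣ) : L)) h
  rcases mul_self_eq_one_iff.1 h1 with h2 | h2
  · apply Additive.toMul.injective
    apply Units.ext
    exact h2
  · exfalso
    have h3 := hu.2
    have h4 : (-1 : L) = algebraMap F L (-1) := by rw [map_neg, map_one]
    rw [h2, h4, Algebra.norm_algebraMap, S.cub.finrank] at h3
    have h5 : (-1 : F) ^ 3 = -1 := by norm_num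
    rw [h5] at h3
    have h6 : (2 : F) = 0 := by linear_combination -h3
    exact two_ne_zero h6

theorem Sm_ab_smul (S : Ext K F L a b θ) (Sf : Finset (HeightOneSpectrum (𝓞 F)))
    (hSf : ∀ g : F ≃ₐ[K] F, ∀ v ∈ Sf, gq g • v ∈ Sf) (g : F ≃ₐ[K] F)
    (w : HeightOneSpectrum (𝓞 L)) : S.ρ g • w ∈ Sm_ab L Sf ↔ w ∈ Sm_ab L Sf := by
  have key : ∀ (g : F ≃ₐ[K] F) (w : HeightOneSpectrum (𝓞 L)), w ∈ Sm_ab L Sf →
      S.ρ g • w ∈ Sm_ab L Sf := by
    intro g w hw
    unfold Sm_ab at hw ⊢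
    rw [Set.mem_ofPred_eq] at hw ⊢
    rw [dn_smul]
    exact hSf g _ hw
  refine ⟨fun h => ?_, key g w⟩
  have h1 := key g⁻¹ _ h
  rwa [ρ_inv, inv_smul_smul] at h1

theorem Sm_SUa_smul (S : Ext K F L a b θ) (Sf : Finset (HeightOneSpectrum (𝓞 F)))
    (hSf : ∀ g : F ≃ₐ[K] F, ∀ v ∈ Sf, gq g • v ∈ Sf) (g : F ≃ₐ[K] F)
    {u : Additive Lˣ} (hu : u ∈ SUa L (Sm_ab L Sf)) : S.ρ g • u ∈ SUa L (Sm_ab L Sf) := by
  intro w hw
  have h1 : S.ρ g⁻¹ • w ∉ Sm_ab L Sf := fun h => hw ((Sm_ab_smul S Sf hSf g⁻¹ w).1 h)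
  have h2 := hu _ h1
  have h3 := H38T1.val_smul (S.ρ g) (S.ρ g⁻¹ • w) ((Additive.toMul u : Lˣ) : L)
  rw [ρ_inv, smul_inv_smul] at h3
  rw [smul_val, h3, ← ρ_inv]
  exact h2

theorem Sm_N1_smul (S : Ext K F L a b θ) (Sf : Finset (HeightOneSpectrum (𝓞 F)))
    (hSf : ∀ g : F ≃ₐ[K] F, ∀ v ∈ Sf, gq g • v ∈ Sf) (g : F ≃ₐ[K] F)
    {u : Additive Lˣ} (hu : u ∈ Sm_N1 L Sf) : S.ρ g • u ∈ Sm_N1 L Sf := by
  rw [Sm_mem_N1] at hu ⊢
  refine ⟨Sm_SUa_smul S Sf hSf g hu.1, ?_⟩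
  rw [smul_val, norm_ρ, hu.2, map_one]

theorem Sm_UH_smul (S : Ext K F L a b θ) (Sf : Finset (HeightOneSpectrum (𝓞 F)))
    (hSf : ∀ g : F ≃ₐ[K] F, ∀ v ∈ Sf, gq g • v ∈ Sf) (g : F ≃ₐ[K] F)
    {c : SC L} (hc : c ∈ (US L (Sm_ab L Sf) ⊓ H30ZO.HH F L)) : S.ρ g • c ∈ (US L (Sm_ab L Sf) ⊓ H30ZO.HH F L) := by
  obtain ⟨⟨u, hu, rfl⟩, h2⟩ := hc
  refine ⟨⟨S.ρ g • u, Sm_SUa_smul S Sf hSf g hu, ?_⟩, HH_smul S g h2⟩
  exact cls_smul (S.ρ g) u

/-- The norm of a `S`-unit. -/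
theorem Sm_norm_val (Sf : Finset (HeightOneSpectrum (𝓞 F))) {u : Additive Lˣ}
    (hu : u ∈ SUa L (Sm_ab L Sf)) (v : HeightOneSpectrum (𝓞 F)) (hv : v ∉ Sf) :
    v.valuation F (Algebra.norm F ((Additive.toMul u : Lˣ) : L)) = 1 := by
  have _ : FiniteDimensional F L := Module.Finite.of_restrictScalars_finite ℚ F L
  have hne : ((Additive.toMul u : Lˣ) : L) ≠ 0 := Units.ne_zero _
  have h1 := ord_norm (K := F) v hne
  have h2 : ∑ᶠ w : {w : HeightOneSpectrum (𝓞 L) // dn F w = v},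
      (w.1.asIdeal.inertiaDeg (𝓞 F) : ℤ) * ord (w.1.valuation L) ((Additive.toMul u : Lˣ) : L) =
      0 := by
    rw [← finsum_zero (α := {w : HeightOneSpectrum (𝓞 L) // dn F w = v}) (M := ℤ)]
    refine finsum_congr fun w => ?_
    have h3 : w.1.valuation L ((Additive.toMul u : Lˣ) : L) = 1 := by
      refine hu w.1 fun h4 => hv ?_
      have h5 : dn F w.1 ∈ Sf := h4
      rw [w.2] at h5
      exact h5
    rw [ord, h3, log_one, neg_zero, mul_zero]
  rw [h2] at h1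
  have h6 : Algebra.norm F ((Additive.toMul u : Lˣ) : L) ≠ 0 := Algebra.norm_ne_zero_iff.2 hne
  have h7 : v.valuation F (Algebra.norm F ((Additive.toMul u : Lˣ) : L)) ≠ 0 :=
    (Valuation.ne_zero_iff _).2 h6
  rw [ord] at h1
  rw [← exp_log h7, ← exp_zero, exp_inj]
  omega

/-- Classes of square norm come from norm one elements. -/
theorem Sm_UH_eq (S : Ext K F L a b θ) (Sf : Finset (HeightOneSpectrum (𝓞 F))) :
    (Sm_N1 L Sf).map (cls L) = (US L (Sm_ab L Sf) ⊓ H30ZO.HH F L) := by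
  apply le_antisymm
  · rintro _ ⟨u, hu, rfl⟩
    have hu' := Sm_mem_N1.1 hu
    refine ⟨⟨u, hu'.1, rfl⟩, ?_⟩
    change cls L u ∈ H30ZO.HH F L
    rw [cls_eq, H30ZO.mem_HH (Units.ne_zero _), hu'.2]
    exact IsSquare.one
  · rintro _ ⟨⟨u, hu, rfl⟩, h2⟩
    have h2' : cls L u ∈ H30ZO.HH F L := h2
    rw [cls_eq, H30ZO.mem_HH (Units.ne_zero _)] at h2'
    obtain ⟨s, hs⟩ := h2'
    have hne : ((Additive.toMul u : Lˣ) : L) ≠ 0 := Units.ne_zero _
    have _ : FiniteDimensional F L := Module.Finite.of_restrictScalars_finite ℚ F L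
    have hN : Algebra.norm F ((Additive.toMul u : Lˣ) : L) ≠ 0 := Algebra.norm_ne_zero_iff.2 hne
    have hs0 : s ≠ 0 := by
      rintro rfl
      rw [mul_zero] at hs
      exact hN hs
    have hs1 : algebraMap F L s ≠ 0 := (map_ne_zero _).2 hs0
    -- the unit `s`
    obtain ⟨t, ht⟩ : ∃ t : Additive Lˣ, ((Additive.toMul t : Lˣ) : L) = algebraMap F L s :=
      ⟨Additive.ofMul (Units.mk0 _ hs1), rfl⟩
    have htS : t ∈ SUa L (Sm_ab L Sf) := by
      intro w hw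
      rw [ht]
      apply val_one
      have h3 := Sm_norm_val Sf hu (dn F w) hw
      rw [hs, map_mul] at h3
      have h4 : ∀ x : WithZero (Multiplicative ℤ), x * x = 1 → x = 1 := by
        intro x hx
        have hx0 : x ≠ 0 := by
          rintro rfl
          rw [mul_zero] at hx
          exact zero_ne_one hx
        have h5 : log (x * x) = 0 := by rw [hx, log_one]
        rw [log_mul hx0 hx0] at h5
        rw [← exp_log hx0, ← exp_zero, exp_inj]
        omega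
      exact h4 _ h3
    refine ⟨(u + u + u) - (t + t), ?_, ?_⟩
    · change (u + u + u) - (t + t) ∈ Sm_N1 L Sf
      rw [Sm_mem_N1]
      constructor
      · exact sub_mem (add_mem (add_mem hu hu) hu) (add_mem htS htS)
      · change Algebra.norm F ((((Additive.toMul u : Lˣ) * (Additive.toMul u : Lˣ) *
          (Additive.toMul u : Lˣ)) / ((Additive.toMul t : Lˣ) * (Additive.toMul t : Lˣ)) : Lˣ) : L)
          = 1
        rw [Units.val_div_eq_div_val, Units.val_mul, Units.val_mul, Units.val_mul, ht]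
        have h6 : ((Additive.toMul u : Lˣ) : L) * ((Additive.toMul u : Lˣ) : L) *
            ((Additive.toMul u : Lˣ) : L) / (algebraMap F L s * algebraMap F L s) *
              (algebraMap F L s * algebraMap F L s) = ((Additive.toMul u : Lˣ) : L) *
              ((Additive.toMul u : Lˣ) : L) * ((Additive.toMul u : Lˣ) : L) :=
          div_mul_cancel₀ _ (mul_ne_zero hs1 hs1)
        have h7 := congrArg (Algebra.norm F) h6
        rw [map_mul, map_mul, map_mul, map_mul, Algebra.norm_algebraMap, S.cub.finrank, hs] at h7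
        have h8 : s ^ 3 * s ^ 3 ≠ 0 := mul_ne_zero (pow_ne_zero 3 hs0) (pow_ne_zero 3 hs0)
        apply mul_right_cancel₀ h8
        rw [h7]
        ring
    · rw [map_sub, map_add, map_add, map_add]
      have h5 : ∀ c : SC L, c + c = 0 := fun c => by
        rw [← two_nsmul]
        exact H38T1.SC.two_smul c
      rw [h5, h5, zero_add, sub_zero]

/-- Squares of norm one are twice an element of norm one. -/
theorem Sm_N1_cls (S : Ext K F L a b θ) (Sf : Finset (HeightOneSpectrum (𝓞 F))) {u : Additive Lˣ}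
    (hu : u ∈ Sm_N1 L Sf) : cls L u = 0 ↔ u ∈ dbl (Sm_N1 L Sf) := by
  constructor
  · intro h
    have hu' := Sm_mem_N1.1 hu
    rw [cls_eq, H38T1.sc_eq_zero (Units.ne_zero _)] at h
    obtain ⟨s, hs⟩ := h
    have hs0 : s ≠ 0 := by
      rintro rfl
      rw [mul_zero] at hs
      exact Units.ne_zero _ hs
    have h1 : Algebra.norm F s * Algebra.norm F s = 1 := by
      rw [← map_mul, ← hs]
      exact hu'.2
    have hval : ∀ w : HeightOneSpectrum (𝓞 L), w ∉ Sm_ab L Sf → w.valuation L s = 1 := by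
      intro w hw
      have h3 := hu'.1 w hw
      rw [hs, map_mul] at h3
      have hx0 : w.valuation L s ≠ 0 := (Valuation.ne_zero_iff _).2 hs0
      have h5 : log (w.valuation L s * w.valuation L s) = 0 := by rw [h3, log_one]
      rw [log_mul hx0 hx0] at h5
      rw [← exp_log hx0, ← exp_zero, exp_inj]
      omega
    have key : ∀ r : L, r ≠ 0 → r * r = s * s → (∀ w : HeightOneSpectrum (𝓞 L),
        w ∉ Sm_ab L Sf → w.valuation L r = 1) → Algebra.norm F r = 1 → u ∈ dbl (Sm_N1 L Sf) := by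
      intro r hr0 hrs hrv hrn
      refine mem_dbl.2 ⟨Additive.ofMul (Units.mk0 r hr0), Sm_mem_N1.2 ⟨fun w hw => hrv w hw, hrn⟩, ?_⟩
      apply Additive.toMul.injective
      apply Units.ext
      change ((Additive.toMul ((2 : ℤ) • Additive.ofMul (Units.mk0 r hr0)) : Lˣ) : L) = _
      rw [two_zsmul]
      change r * r = _
      rw [hrs, hs]
    rcases mul_self_eq_one_iff.1 h1 with h2 | h2
    · exact key s hs0 rfl hval h2
    · refine key (-s) (neg_ne_zero.2 hs0) (by ring) (fun w hw => ?_) ?_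
      · rw [Valuation.map_neg]
        exact hval w hw
      · have h4 : -s = algebraMap F L (-1) * s := by rw [map_neg, map_one, neg_one_mul]
        rw [h4, map_mul, Algebra.norm_algebraMap, S.cub.finrank, h2]
        norm_num
  · intro h
    obtain ⟨y, -, rfl⟩ := mem_dbl.1 h
    rw [map_zsmul, two_zsmul, ← two_nsmul]
    exact H38T1.SC.two_smul _

theorem sd_X (S : Ext K F L a b θ) [DistribMulAction (F ≃ₐ[K] F) (SC L)]
    (hact : ∀ (g : F ≃ₐ[K] F) (c : SC L), g • c = S.ρ g • c)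
    (Sf : Finset (HeightOneSpectrum (𝓞 F))) (hSf : ∀ g : F ≃ₐ[K] F, ∀ v ∈ Sf, gq g • v ∈ Sf) :
    Sd (F ≃ₐ[K] F) (H24TD.US L {w : HeightOneSpectrum (𝓞 L) | dn F w ∈ Sf} ⊓ HH F L) ⊥ := by
  intro M _ _ _ hM
  let act : DistribMulAction (F ≃ₐ[K] F) (Additive Lˣ) :=
    DistribMulAction.compHom (Additive Lˣ) S.ρ
  have hst : Stab (F ≃ₐ[K] F) (Sm_N1 L Sf) := fun g u hu => Sm_N1_smul S Sf hSf g hu
  have hUst : Stab (F ≃ₐ[K] F) (US L (Sm_ab L Sf) ⊓ H30ZO.HH F L) := fun g u hu => by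
    rw [hact]
    exact Sm_UH_smul S Sf hSf g hu
  have key : ∀ (M : Type) [AddCommGroup M] [DistribMulAction (F ≃ₐ[K] F) M],
      hq (F ≃ₐ[K] F) M (Sm_N1 L Sf) (dbl (Sm_N1 L Sf)) =
        hq (F ≃ₐ[K] F) M (US L (Sm_ab L Sf) ⊓ H30ZO.HH F L) ⊥ := by
    intro M _ _
    refine hq_iso (cls L) (fun g x => ?_) hst (H26OD.Ma_dbl hst) hUst H26OD.Ma_bot ?_ ?_ ?_
    · rw [hact]
      exact cls_smul (S.ρ g) x
    · rw [Sm_UH_eq S]
    · rw [Sm_UH_eq S]
      exact le_sup_right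
    · intro u hu
      rw [AddSubgroup.mem_bot]
      exact Sm_N1_cls S Sf hu
  change hq (F ≃ₐ[K] F) M (US L (Sm_ab L Sf) ⊓ H30ZO.HH F L) ⊥ =
    hq (F ≃ₐ[K] F) (H26OD.Du M) (US L (Sm_ab L Sf) ⊓ H30ZO.HH F L) ⊥
  rw [← key M, ← key (H26OD.Du M)]
  exact H26OD.lattice_sub (odd_gal S) hst (Sm_N1_fg Sf) (Sm_N1_tor S Sf) M hM

end H76SD
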