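import Pool.Agent.H76.SD.Df
import Pool.Agent.H30.ZO.Aj
import Pool.Agent.H30.ZO.Ed
import Pool.Agent.H30.ZO.Ga
import Pool.Agent.H30.ZO.Gb
import Pool.Agent.H30.ZO.Gc

/-!
ROW Sn (project MP_78d38b_OD). About 120 lines: the count for the regular module.
PROOF. `h := S.cub`, `n := Module.finrank ℚ F`, `r := nrRealPlaces F + nrComplexPlaces F`, `t₀ := Nat.card {s : F →+* ℝ // nr F L s = 3}`. `H30ZO.idx_HH h v` (integrality: haF, hbF of Df): `4 * i_v ≤ 4 ^ nb v * qq v ^ 2`, so `i_v ≤ 4 ^ (nb v - 1) * qq v ^ 2` (`nb v ≥ 1`: there is a place above `v`; if `nb v = 0` then `4 i_v ≤ qq v ^ 2` also gives the bound since `0 - 1 = 0`). `∏_{v ∈ Sf \ Tf} qq v = 2 ^ n`: `H30ZO.prod_two` for the set `Sf \ Tf` (it contains the places with `v.valuation 2 < 1`: they are in `Sf` by h2 and not in `Tf` by hT2).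
Real places: `H30ZO.real_idx h hD s (hW s)`: `2 * j_s ≤ nr s + 1`, `nr s ≤ 3` and `nr s` is odd or: `j_s ≤ 1` unless `nr s = 3`, then `j_s ≤ 2` (see `nr_cases` used in Nb.lean); so `∏_s j_s ≤ 2 ^ t₀` (`Finset.prod_le_prod`, `∏ (if nr s = 3 then 2 else 1) = 2 ^ t₀`; see Nb.lean).
`H30ZO.card_X h Sf`: `|X| * 2 ^ (Sf.card + r) = 2 ^ (∑_{v ∈ Sf} nb v + r_L)`, `H30ZO.places_count h hD`: `r_L = r + n + t₀`. So `|X| * 2 ^ Sf.card = 2 ^ (∑_{Sf} nb v + n + t₀)`. With `∑_{Sf} nb = ∑_{Sf \ Tf} nb + 2 |Tf|`. The claim: `2 ^ |Tf| * 4 ^ (∑_{Sf \ Tf} (nb v - 1)) * 4 ^ n * 2 ^ t₀ ≤ |X| * 2 ^ n * 2 ^ (∑_{Sf \ Tf} (nb v - 1))`; multiply by `2 ^ Sf.card`; with `∑_{Sf \ Tf} (nb v - 1) + |Sf \ Tf| = ∑_{Sf \ Tf} nb v` (needs `nb v ≥ 1`: nb_pos) both sides are equal to the same power of two.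
-/

set_option autoImplicit false
set_option linter.unusedSectionVars false
open scoped Classical

open WithZero NumberField IsDedekindDomain H38RT H76PP H30ZO H73P2 H30OD H36CY H24TD H88OD Pool.Agent.H10
open H38T1 (SC sc scu rep eo la si OddP)

namespace H76SD

variable {K F L : Type} [Field K] [NumberField K] [Field F] [NumberField F] [Field L]
  [NumberField L] [Algebra K F] [Algebra F L] {a b : K} {θ : L}

theorem nb_pos (v : HeightOneSpectrum (𝓞 F)) : 1 ≤ nb F L v := by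
  obtain ⟨w, hw⟩ := exists_above (K := F) (L := L) v
  unfold H30ZO.nb
  exact (Set.ncard_pos (fin_above v)).2 ⟨w, hw⟩

lemma Sn_loc (S : Ext K F L a b θ) (v : HeightOneSpectrum (𝓞 F)) :
    (Sqv F L v ⊓ HH F L).relIndex (HH F L) ≤ 4 ^ (nb F L v - 1) * qq v ^ 2 := by
  have h1 := (idx_HH S.cub v (haF S v) (hbF S v)).2
  obtain ⟨m, hm⟩ : ∃ m, nb F L v = m + 1 := ⟨nb F L v - 1, by
    have := nb_pos (L := L) v
    omega⟩
  rw [hm] at h1 ⊢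
  rw [Nat.add_sub_cancel]
  have h2 : 4 ^ (m + 1) * qq v ^ 2 = 4 * (4 ^ m * qq v ^ 2) := by ring
  rw [h2] at h1
  exact Nat.le_of_mul_le_mul_left h1 (by norm_num)

lemma Sn_fin (S : Ext K F L a b θ) (R : Finset (HeightOneSpectrum (𝓞 F)))
    (h2 : ∀ v : HeightOneSpectrum (𝓞 F), v.valuation F 2 < 1 → v ∈ R) :
    ∏ v ∈ R, (Sqv F L v ⊓ HH F L).relIndex (HH F L) ≤
      4 ^ (∑ v ∈ R, (nb F L v - 1)) * (2 ^ Module.finrank ℚ F) ^ 2 := by
  rw [← prod_two R h2, ← Finset.prod_pow_eq_pow_sum, ← Finset.prod_pow, ← Finset.prod_mul_distrib]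
  exact Finset.prod_le_prod' fun v _ => Sn_loc S v

lemma Sn_real (S : Ext K F L a b θ) (Sr : Finset (F →+* ℝ)) (hSr : ∀ s, s ∈ Sr)
    (W : (F →+* ℝ) → AddSubgroup (SC L))
    (hW : ∀ s c, c ∈ W s ↔ c ∈ HH F L ∧ Wc s (algebraMap K F a) (algebraMap K F b) θ c) :
    ∏ s ∈ Sr, (W s).relIndex (HH F L) ≤ 2 ^ Nat.card {s : F →+* ℝ // nr F L s = 3} := by
  have h1 : Nat.card {s : F →+* ℝ // nr F L s = 3} = (Sr.filter fun s => nr F L s = 3).card :=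
    Nat.subtype_card (Sr.filter fun s => nr F L s = 3) (fun s => by
      rw [Finset.mem_filter]
      exact ⟨fun h => h.2, fun h => ⟨hSr s, h⟩⟩)
  rw [h1]
  have h2 : ∏ s ∈ Sr, (W s).relIndex (HH F L) ≤ ∏ s ∈ Sr, (if nr F L s = 3 then 2 else 1) := by
    refine Finset.prod_le_prod' fun s _ => ?_
    have h3 := (real_idx S.cub (dneF S) s (hW s)).2
    rcases nr_cases S.cub (dneF S) s with h4 | h4
    · rw [h4] at h3 ⊢
      simp only [OfNat.one_ne_ofNat, if_false]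
      omega
    · rw [h4] at h3 ⊢
      simp only [if_true]
      omega
  refine h2.trans (le_of_eq ?_)
  rw [Finset.prod_ite, Finset.prod_const, Finset.prod_const_one, mul_one]

theorem count (S : Ext K F L a b θ) (Sf Tf : Finset (HeightOneSpectrum (𝓞 F))) (hTS : Tf ⊆ Sf)
    (hT : ∀ v ∈ Tf, nb F L v = 2) (hT2 : ∀ v ∈ Tf, v.valuation F 2 = 1)
    (h2 : ∀ v : HeightOneSpectrum (𝓞 F), v.valuation F 2 < 1 → v ∈ Sf) {Y : ℕ}
    (hY : Y ≤ 2 ^ Tf.card) (Sr : Finset (F →+* ℝ)) (hSr : ∀ s, s ∈ Sr)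
    (W : (F →+* ℝ) → AddSubgroup (SC L))
    (hW : ∀ s c, c ∈ W s ↔ c ∈ HH F L ∧ Wc s (algebraMap K F a) (algebraMap K F b) θ c) :
    Y * (∏ v ∈ Sf \ Tf, (Sqv F L v ⊓ HH F L).relIndex (HH F L)) *
        (∏ s ∈ Sr, (W s).relIndex (HH F L)) ≤
      Nat.card ↥(H24TD.US L {w : HeightOneSpectrum (𝓞 L) | dn F w ∈ Sf} ⊓ HH F L) *
        2 ^ Module.finrank ℚ F * ∏ v ∈ Sf \ Tf, 2 ^ (nb F L v - 1) := by
  have hf := Sn_fin S (Sf \ Tf) (fun v hv => Finset.mem_sdiff.2 ⟨h2 v hv, fun h3 => by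
    rw [hT2 v h3] at hv
    exact lt_irrefl _ hv⟩)
  have hr := Sn_real S Sr hSr W hW
  have hX := card_X S.cub Sf
  rw [places_count S.cub (dneF S)] at hX
  rw [Finset.prod_pow_eq_pow_sum]
  obtain ⟨N, hN⟩ : ∃ N, N = ∑ v ∈ Sf \ Tf, (nb F L v - 1) := ⟨_, rfl⟩
  obtain ⟨t, ht⟩ : ∃ t, t = Nat.card {s : F →+* ℝ // nr F L s = 3} := ⟨_, rfl⟩
  obtain ⟨n, hn⟩ : ∃ n, n = Module.finrank ℚ F := ⟨_, rfl⟩
  obtain ⟨r, hr'⟩ : ∃ r, r = InfinitePlace.nrRealPlaces F + InfinitePlace.nrComplexPlaces F :=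
    ⟨_, rfl⟩
  obtain ⟨X, hXd⟩ : ∃ X, X =
      Nat.card ↥(H24TD.US L {w : HeightOneSpectrum (𝓞 L) | dn F w ∈ Sf} ⊓ HH F L) := ⟨_, rfl⟩
  rw [← hN, ← hn] at hf
  rw [← ht] at hr
  rw [← hXd, ← hr', ← hn, ← ht] at hX
  rw [← hN, ← hn, ← hXd]
  have hs1 : ∑ v ∈ Sf, nb F L v = ∑ v ∈ Sf \ Tf, nb F L v + 2 * Tf.card := by
    rw [← Finset.sum_sdiff hTS, Finset.sum_congr rfl hT, Finset.sum_const, smul_eq_mul, mul_comm 2]
  have hs2 : ∑ v ∈ Sf \ Tf, nb F L v = N + (Sf \ Tf).card := by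
    rw [hN, Finset.card_eq_sum_ones, ← Finset.sum_add_distrib]
    refine Finset.sum_congr rfl fun v _ => ?_
    have := nb_pos (L := L) v
    omega
  have hs3 : Sf.card = (Sf \ Tf).card + Tf.card := (Finset.card_sdiff_add_card_eq_card hTS).symm
  have hX2 : X = 2 ^ (N + Tf.card + n + t) := by
    have h5 : X * 2 ^ (Sf.card + r) = 2 ^ (N + Tf.card + n + t) * 2 ^ (Sf.card + r) := by
      rw [hX, ← pow_add]
      congr 1
      rw [hs1, hs2, hs3]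
      ring
    exact Nat.eq_of_mul_eq_mul_right (by positivity) h5
  calc Y * (∏ v ∈ Sf \ Tf, (Sqv F L v ⊓ HH F L).relIndex (HH F L)) *
        (∏ s ∈ Sr, (W s).relIndex (HH F L))
      ≤ 2 ^ Tf.card * (4 ^ N * (2 ^ n) ^ 2) * 2 ^ t :=
        Nat.mul_le_mul (Nat.mul_le_mul hY hf) hr
    _ = X * 2 ^ n * 2 ^ N := by
        rw [hX2]
        have h6 : (4 : ℕ) ^ N = 2 ^ N * 2 ^ N := by
          rw [← mul_pow]
          norm_num
        rw [h6]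
        ring

end H76SD
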