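import Pool.Agent.H76.SD.Df
import Pool.Agent.H76.SD.Sa

/-!
ROW Sp (project MP_78d38b_OD). About 100 lines: invariance under the group.
PROOF. inv_Sqv: the map `c ↦ g • c` is an additive automorphism of `SC L` which maps `HH F L` onto itself (`H88OD.HH_smul` for `g` and `g⁻¹`) and `Sqv F L v` onto `Sqv F L (gq g • v)` (places above `gq g • v` are the `S.ρ g • w`, `w` above `v`: `H88OD.dn_smul`; `c ∈ Sq w ↔ S.ρ g • c ∈ Sq (S.ρ g • w)`: Sq_smul of Sa (import it), or the argument of `Ga_psi` for `L`); `AddSubgroup.relIndex` is preserved by an automorphism (`AddSubgroup.relIndex_map_map_of_injective` or `relIndex_comap`). inv_nb: the bijection `w ↦ S.ρ g • w` (`Set.ncard_congr` or `Set.ncard_image_of_injective`). inv_real: the same with `Ws` (Wr_smul of Df).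
free_real: a real embedding is injective, so `s (g x) = s x` for all `x` gives `g = 1`.
dec_iff: `g ∈ Dec K v ↔ gq g • v = v`: `mem_Dec`, `H36CY.Stb K v g : ∀ y, v.valuation F (g y) = v.valuation F y`, `H24TD.val_smul`, and two places with the same valuation are equal (as in Hb.lean `Hb_ext`: `v.asIdeal` = the elements of `𝓞 F` of valuation `< 1`).
-/

set_option autoImplicit false
set_option linter.unusedSectionVars false
open scoped Classical

open WithZero NumberField IsDedekindDomain H38RT H76PP H30ZO H73P2 H30OD H36CY H24TD H88OD Pool.Agent.H10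
open H38T1 (SC sc scu rep eo la si OddP)

namespace H76SD

variable {K F L : Type} [Field K] [NumberField K] [Field F] [NumberField F] [Field L]
  [NumberField L] [Algebra K F] [Algebra F L] {a b : K} {θ : L}

private theorem Sp_HH (S : Ext K F L a b θ) (g : F ≃ₐ[K] F) (c : SC L) :
    S.ρ g • c ∈ HH F L ↔ c ∈ HH F L := by
  constructor
  · intro h
    have h1 := HH_smul S g⁻¹ h
    rwa [Ga_inv_smul] at h1
  · exact fun h => HH_smul S g h

private theorem Sp_rel (S : Ext K F L a b θ) (g : F ≃ₐ[K] F) (A B : AddSubgroup (SC L))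
    (hAB : ∀ c, S.ρ g • c ∈ A ↔ c ∈ B) : A.relIndex (HH F L) = B.relIndex (HH F L) := by
  have h1 : A.comap (DistribSMul.toAddMonoidHom (SC L) (S.ρ g)) = B := by
    ext c
    exact hAB c
  have h2 : (HH F L).map (DistribSMul.toAddMonoidHom (SC L) (S.ρ g)) = HH F L := by
    ext c
    constructor
    · rintro ⟨d, hd, rfl⟩
      exact HH_smul S g hd
    · intro hc
      refine ⟨(S.ρ g)⁻¹ • c, ?_, smul_inv_smul _ _⟩
      have h3 := HH_smul S g⁻¹ hc
      rwa [ρ_inv] at h3
  rw [← h1, AddSubgroup.relIndex_comap, h2]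

private theorem Sp_dn (S : Ext K F L a b θ) (g : F ≃ₐ[K] F) (v : HeightOneSpectrum (𝓞 F))
    (w : HeightOneSpectrum (𝓞 L)) : dn F (S.ρ g • w) = gq g • v ↔ dn F w = v := by
  rw [dn_smul]
  exact smul_left_cancel_iff _

private theorem Sp_ext {w w' : HeightOneSpectrum (𝓞 F)}
    (h : ∀ x : F, w.valuation F x = w'.valuation F x) : w = w' := by
  refine HeightOneSpectrum.ext (Ideal.ext fun x => ?_)
  rw [← w.valuation_lt_one_iff_mem (K := F) x, ← w'.valuation_lt_one_iff_mem (K := F) x, h]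

theorem inv_Sqv (S : Ext K F L a b θ) (g : F ≃ₐ[K] F) (v : HeightOneSpectrum (𝓞 F)) :
    (Sqv F L (gq g • v) ⊓ HH F L).relIndex (HH F L) =
      (Sqv F L v ⊓ HH F L).relIndex (HH F L) := by
  apply Sp_rel S g
  intro c
  rw [AddSubgroup.mem_inf, AddSubgroup.mem_inf, Sp_HH, mem_Sqv, mem_Sqv]
  constructor
  · rintro ⟨h1, h2⟩
    refine ⟨fun w hw => ?_, h2⟩
    have h3 := h1 (S.ρ g • w) ((Sp_dn S g v w).2 hw)
    exact (Sq_smul (S.ρ g) w c).1 h3
  · rintro ⟨h1, h2⟩
    refine ⟨fun w hw => ?_, h2⟩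
    have h0 : S.ρ g • (S.ρ g)⁻¹ • w = w := smul_inv_smul _ _
    have h3 := h1 ((S.ρ g)⁻¹ • w) ((Sp_dn S g v _).1 (by rw [h0]; exact hw))
    have h4 := (Sq_smul (S.ρ g) ((S.ρ g)⁻¹ • w) c).2 h3
    rwa [h0] at h4

theorem inv_nb (S : Ext K F L a b θ) (g : F ≃ₐ[K] F) (v : HeightOneSpectrum (𝓞 F)) :
    nb F L (gq g • v) = nb F L v := by
  have h : {w : HeightOneSpectrum (𝓞 L) | dn F w = gq g • v} =
      (fun w => S.ρ g • w) '' {w : HeightOneSpectrum (𝓞 L) | dn F w = v} := by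
    ext w
    constructor
    · intro hw
      have h0 : S.ρ g • (S.ρ g)⁻¹ • w = w := smul_inv_smul _ _
      refine ⟨(S.ρ g)⁻¹ • w, (Sp_dn S g v _).1 ?_, h0⟩
      rw [h0]
      exact hw
    · rintro ⟨w', hw', rfl⟩
      exact (Sp_dn S g v w').2 hw'
  unfold H30ZO.nb
  rw [h, Set.ncard_image_of_injective _ (MulAction.injective (S.ρ g))]

theorem inv_real (S : Ext K F L a b θ) (Ws : (F →+* ℝ) → AddSubgroup (SC L))
    (hWs : ∀ s c, c ∈ Ws s ↔ c ∈ HH F L ∧ Wc s (algebraMap K F a) (algebraMap K F b) θ c)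
    (g : F ≃ₐ[K] F) (s : F →+* ℝ) :
    (Ws (s.comp ((g : F ≃ₐ[K] F) : F →+* F))).relIndex (HH F L) =
      (Ws s).relIndex (HH F L) := by
  refine (Sp_rel S g (Ws s) (Ws (s.comp ((g : F ≃ₐ[K] F) : F →+* F))) fun c => ?_).symm
  rw [hWs, hWs, Sp_HH]
  have h1 := Wr_smul S g⁻¹ s (S.ρ g • c)
  rw [inv_inv, Ga_inv_smul] at h1
  rw [h1]

theorem free_real (g : F ≃ₐ[K] F) (s : F →+* ℝ)
    (h : s.comp ((g : F ≃ₐ[K] F) : F →+* F) = s) : g = 1 := by
  apply AlgEquiv.ext
  intro x
  apply s.injective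
  exact DFunLike.congr_fun h x

theorem dec_iff (g : F ≃ₐ[K] F) (v : HeightOneSpectrum (𝓞 F)) : g ∈ Dec K v ↔ gq g • v = v := by
  rw [mem_Dec]
  constructor
  · intro h
    apply Sp_ext
    intro x
    have h1 := H38T1.val_smul (gq g) v (g.symm x)
    have h2 : gq g (g.symm x) = x := g.apply_symm_apply x
    rw [h2] at h1
    have h3 := h (g.symm x)
    rw [g.apply_symm_apply] at h3
    rw [h1, h3]
  · intro h y
    have h1 := H38T1.val_smul (gq g) v y
    rw [h] at h1
    exact h1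

end H76SD
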