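import Pool.Agent.H76.SD.Sc
import Pool.Agent.H76.SD.Sf
import Pool.Agent.H76.SD.Sg
import Pool.Agent.H76.SD.Sh
import Pool.Agent.H76.SD.Si
import Pool.Agent.H76.SD.Sp

/-!
(project MP_78d38b_OD) The local inequality: `h(T2) h(O / 2 O) h(HH / W) ≤ h(HH / Sqv)`.
-/

set_option autoImplicit false
set_option linter.unusedSectionVars false
open scoped Classical

open WithZero NumberField IsDedekindDomain H38RT H76PP H30ZO H73P2 H30OD H36CY H24TD H88OD Pool.Agent.H10
open H38T1 (SC sc scu rep eo la si OddP)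

namespace H76SD

theorem SC_dbl {N : Type} [Field N] (A B : AddSubgroup (SC N)) : dbl A ≤ B := by
  rintro _ ⟨a, ha, rfl⟩
  have h : (zsmulAddGroupHom (2 : ℤ) : SC N →+ SC N) a = 0 := by
    change (2 : ℤ) • a = 0
    rw [two_zsmul, ← two_nsmul, H38T1.SC.two_smul]
  rw [h]
  exact B.zero_mem

variable {K F L : Type} [Field K] [NumberField K] [Field F] [NumberField F] [Field L]
  [NumberField L] [Algebra K F] [Algebra F L] {a b : K} {θ : L}

theorem Sqv_smul (S : Ext K F L a b θ) (g : F ≃ₐ[K] F) (v : HeightOneSpectrum (𝓞 F)) {c : SC L}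
    (hc : c ∈ Sqv F L v) : S.ρ g • c ∈ Sqv F L (gq g • v) := by
  rw [mem_Sqv] at hc ⊢
  intro w hw
  have h1 : w = S.ρ g • ((S.ρ g)⁻¹ • w) := (smul_inv_smul _ _).symm
  have h2 : dn F ((S.ρ g)⁻¹ • w) = v := by
    have h3 := dn_smul S g ((S.ρ g)⁻¹ • w)
    rw [smul_inv_smul, hw] at h3
    exact ((smul_left_cancel_iff _).1 h3).symm
  rw [h1]
  exact (Sq_smul (S.ρ g) _ c).2 (hc _ h2)

section Stab

variable (S : Ext K F L a b θ) [DistribMulAction (F ≃ₐ[K] F) (SC L)]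
  (hact : ∀ (g : F ≃ₐ[K] F) (c : SC L), g • c = S.ρ g • c)

include hact

theorem HH_stabG : Stab (F ≃ₐ[K] F) (HH F L) := by
  intro g c hc
  rw [hact]
  exact HH_smul S g hc

theorem HH_stab (D : Subgroup (F ≃ₐ[K] F)) : Stab D (HH F L) :=
  fun g c hc => HH_stabG S hact g.1 c hc

theorem Sqv_stab (v : HeightOneSpectrum (𝓞 F)) : Stab (Dec K v) (Sqv F L v ⊓ HH F L) := by
  intro g c hc
  refine ⟨?_, HH_stab S hact (Dec K v) g c hc.2⟩
  have h1 : g • c = S.ρ g.1 • c := hact g.1 c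
  rw [h1]
  have h2 := Sqv_smul S g.1 v hc.1
  rwa [(dec_iff g.1 v).1 g.2] at h2

theorem W_stab (v : HeightOneSpectrum (𝓞 F)) {W : AddSubgroup (SC L)}
    (hW : ∀ c, c ∈ W ↔ c ∈ HH F L ∧
      Wc (algebraMap F (v.adicCompletion F)) (algebraMap K F a) (algebraMap K F b) θ c) :
    Stab (Dec K v) W := by
  intro g c hc
  rw [hW] at hc ⊢
  refine ⟨HH_stab S hact (Dec K v) g c hc.1, ?_⟩
  have h1 : g • c = S.ρ g.1 • c := hact g.1 c
  rw [h1]
  have h2 := (Wc_smul S g.1 v c).2 hc.2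
  rwa [(dec_iff g.1 v).1 g.2] at h2

theorem loc_main (v : HeightOneSpectrum (𝓞 F)) {W : AddSubgroup (SC L)}
    (hW : ∀ c, c ∈ W ↔ c ∈ HH F L ∧
      Wc (algebraMap F (v.adicCompletion F)) (algebraMap K F a) (algebraMap K F b) θ c)
    (M : Type) [AddCommGroup M] [DistribMulAction (Dec K v) M] [Finite M] :
    hq (Dec K v) M (T2 v (algebraMap K F a) (algebraMap K F b) : AddSubgroup (PtK v a b)) ⊥ *
        hq (Dec K v) M (OO v) (dbl (OO v)) * hq (Dec K v) M (HH F L) W ≤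
      hq (Dec K v) M (HH F L) (Sqv F L v ⊓ HH F L) := by
  have hodd := odd_dec S v
  have hfinD : Finite (Dec K v) := inferInstance
  have ha := haF S v
  have hb := hbF S v
  have hD := S.dne
  have hDF := dneF S
  have hWH : W ≤ HH F L := fun c hc => ((hW c).1 hc).1
  have hSW : Sqv F L v ⊓ HH F L ≤ W := fun c hc => (hW c).2 ⟨hc.2, Sqv_le S.cub v ha hb hDF hc.1⟩
  have hfH : (Sqv F L v ⊓ HH F L).relIndex (HH F L) ≠ 0 := (idx_HH S.cub v ha hb).1
  have hfW : (Sqv F L v ⊓ HH F L).relIndex W ≠ 0 := by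
    intro h
    apply hfH
    rw [← AddSubgroup.relIndex_mul_relIndex _ W (HH F L) hSW hWH, h, zero_mul]
  have hD2 := (idx_W S.cub v ha hb hDF hW hfW).1
  rw [hq_mul (M := M) hodd (HH_stab S hact _) (W_stab S hact v hW) (Sqv_stab S hact v) hSW hWH
    (SC_dbl _ _)]
  refine Nat.mul_le_mul_right _ ?_
  rw [← hq_W S v hact hW M]
  have hm : 1 ≤ e2 v + 1 := by omega
  obtain ⟨H, hH, -⟩ := exists_EE (V := Valued.v) (two_ne_zero' (v.adicCompletion F))
    (A := algebraMap F (v.adicCompletion F) (algebraMap K F a))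
    (B := algebraMap F (v.adicCompletion F) (algebraMap K F b))
    (by rw [val_coe]; exact ha)
    (by rw [val_coe]; exact hb) hm
  have hfin := EE_dbl v ha hb hD hm hH hD2
  rw [hq_pt_EE v hodd hfinD ha hb hD hm hH M, mul_comm]
  refine Nat.mul_le_mul_right _ ?_
  rw [← hq_PP_OO v hodd hfinD (e2 v + 1) M]
  exact hq_EE_PP v hodd hfinD ha hb hm (by omega) hH hfin M

end Stab

end H76SD
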