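import Pool.Agent.H76.SD.Rc
import Pool.Agent.H76.SD.Rd
import Pool.Agent.H30.ZO.Cj
import Pool.Agent.H30.ZO.Nb
import Pool.Agent.H76.SD.Sv

/-!
ROW So (project MP_78d38b_OD). About 200 lines: the chain from the classes of the units to `Y`. Use only the STATEMENTS of Rc, Rd.
PROOF. `G := F ≃ₐ[K] F`, `X := US L {w | dn F w ∈ Sf} ⊓ HH F L`, `H := HH F L`, stable (`H88OD.HH_smul`; `US`: classes of units outside `Sf`, `dn_smul`). For `v ∈ R` let `V v := {c ∈ H | ∀ g : G, g • c ∈ Wv v}`, for `s ∈ Rr` let `V' s := {c ∈ H | ∀ g, g • c ∈ Ws s}`: stable subgroups of `H`, of finite index (the finite intersection of the preimages of subgroups of finite index under the automorphisms `c ↦ g • c` of `H`; `H30ZO.loc_idx`, `real_idx`).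
`X ⊓ ⨅_{v ∈ R} V v ⊓ ⨅_{s ∈ Rr} V' s ≤ Y`: let `c` be in the left side. `v ∈ Sf \ Tf`: `v = gq g • v'`, `v' ∈ R`, `g⁻¹ • c ∈ Wv v'`, so `c ∈ Wc at v` (Wc_smul of Df). `v ∉ Sf`: `c` is the class of an element with `w.valuation = 1` for all `w` above `v`, so even at `w`, and `Wc` holds at `v` by `H30ZO.good_W` (`v.valuation F 2 = 1`, `v.valuation F (4 a^3 + 27 b^2) = 1` for `v ∉ Sf`: hS2, hSD) as in Nb.lean. `v ∈ Tf`: no condition. Real `s`: the same with Rr (Wr_smul of Df).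
`hq G M X ⊥ = hq G M (X ⊓ I) ⊥ * hq G M X (X ⊓ I)` with `I` the intersection (`H24TD.hq_mul`), `hq G M (X ⊓ I) ⊥ ≤ hq G M Y ⊥` (hq_mono; `Y` finite), `hq G M X (X ⊓ I) ≤ ∏_{v ∈ R} hq G M H (V v) * ∏_{s ∈ Rr} hq G M H (V' s)` (hq_chain with the index type `Sum`, or twice), and `hq G M H (V v) ≤ hq (Dec K v) M H (Wv v)`, `hq G M H (V' s) ≤ hq (⊥ : Subgroup G) M H (Ws s)` by hq_ind_le with `u = id`.
-/

set_option autoImplicit false
set_option linter.unusedSectionVars false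
open scoped Classical

open WithZero NumberField IsDedekindDomain H38RT H76PP H30ZO H73P2 H30OD H36CY H24TD H88OD Pool.Agent.H10
open H38T1 (SC sc scu rep eo la si OddP)

namespace H76SD

variable {K F L : Type} [Field K] [NumberField K] [Field F] [NumberField F] [Field L]
  [NumberField L] [Algebra K F] [Algebra F L] {a b : K} {θ : L}


theorem So_stab (S : Ext K F L a b θ) [DistribMulAction (F ≃ₐ[K] F) (SC L)]
    (hact : ∀ (g : F ≃ₐ[K] F) (c : SC L), g • c = S.ρ g • c)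
    (Sf : Finset (HeightOneSpectrum (𝓞 F))) (hSf : ∀ g : F ≃ₐ[K] F, ∀ v ∈ Sf, gq g • v ∈ Sf) :
    Stab (F ≃ₐ[K] F)
      (H24TD.US L {w : HeightOneSpectrum (𝓞 L) | dn F w ∈ Sf} ⊓ HH F L) := by
  intro g c hc
  refine ⟨?_, HH_stabG S hact g c hc.2⟩
  obtain ⟨u, hu, rfl⟩ := hc.1
  refine ⟨S.ρ g • u, fun w hw => ?_, ?_⟩
  · have h1 : w = S.ρ g • ((S.ρ g)⁻¹ • w) := (smul_inv_smul _ _).symm
    rw [h1, smul_val, H24TD.val_smul]
    refine hu _ fun h2 => hw ?_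
    change dn F w ∈ Sf
    rw [h1, dn_smul]
    exact hSf g _ h2
  · rw [hact]
    rfl

/-- The largest stable subgroup of `A` in `W`. -/
def So_core (G : Type) [Group G] [DistribMulAction G (SC L)] (A W : AddSubgroup (SC L)) :
    AddSubgroup (SC L) where
  carrier := {c | c ∈ A ∧ ∀ g : G, g • c ∈ W}
  zero_mem' := ⟨A.zero_mem, fun g => by rw [smul_zero]; exact W.zero_mem⟩
  add_mem' := fun {x y} hx hy => ⟨A.add_mem hx.1 hy.1, fun g => by
    rw [smul_add]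
    exact W.add_mem (hx.2 g) (hy.2 g)⟩
  neg_mem' := fun {x} hx => ⟨A.neg_mem hx.1, fun g => by
    rw [smul_neg]
    exact W.neg_mem (hx.2 g)⟩

theorem So_core_mem {G : Type} [Group G] [DistribMulAction G (SC L)] {A W : AddSubgroup (SC L)}
    {c : SC L} : c ∈ So_core G A W ↔ c ∈ A ∧ ∀ g : G, g • c ∈ W := Iff.rfl

theorem So_core_stab {G : Type} [Group G] [DistribMulAction G (SC L)] {A W : AddSubgroup (SC L)}
    (hA : Stab G A) : Stab G (So_core G A W) := by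
  intro g c hc
  refine ⟨hA g c hc.1, fun h => ?_⟩
  rw [← mul_smul]
  exact hc.2 _

theorem So_core_idx {G : Type} [Group G] [Finite G] [DistribMulAction G (SC L)]
    {A W : AddSubgroup (SC L)} (hA : Stab G A) (h : W.relIndex A ≠ 0) :
    (So_core G A W).relIndex A ≠ 0 := by
  have h1 : So_core G A W =
      A ⊓ ⨅ g : G, W.comap (DistribSMul.toAddMonoidHom (SC L) g) := by
    ext c
    rw [So_core_mem, AddSubgroup.mem_inf, AddSubgroup.mem_iInf]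
    rfl
  rw [h1, AddSubgroup.inf_relIndex_left]
  have := Fintype.ofFinite G
  refine AddSubgroup.relIndex_iInf_ne_zero fun g => ?_
  rw [AddSubgroup.relIndex_comap]
  have h2 : A.map (DistribSMul.toAddMonoidHom (SC L) g) = A := by
    apply le_antisymm
    · rintro _ ⟨c, hc, rfl⟩
      exact hA g c hc
    · intro c hc
      exact ⟨g⁻¹ • c, hA _ _ hc, smul_inv_smul g c⟩
  rw [h2]
  exact h

theorem chain_Y (hos : H73P2.OrdSub) (S : Ext K F L a b θ)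
    [DistribMulAction (F ≃ₐ[K] F) (SC L)]
    (hact : ∀ (g : F ≃ₐ[K] F) (c : SC L), g • c = S.ρ g • c)
    (Sf Tf R : Finset (HeightOneSpectrum (𝓞 F))) (hTS : Tf ⊆ Sf)
    (hSf : ∀ g : F ≃ₐ[K] F, ∀ v ∈ Sf, gq g • v ∈ Sf)
    (hS2 : ∀ v : HeightOneSpectrum (𝓞 F), v ∉ Sf → v.valuation F 2 = 1)
    (hSD : ∀ v : HeightOneSpectrum (𝓞 F), v ∉ Sf →
      v.valuation F (algebraMap K F (4 * a ^ 3 + 27 * b ^ 2)) = 1)
    (hR : ∀ v ∈ Sf \ Tf, ∃ g : F ≃ₐ[K] F, ∃ v' ∈ R, v = gq g • v')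
    (Rr : Finset (F →+* ℝ))
    (hRr : ∀ s : F →+* ℝ, ∃ g : F ≃ₐ[K] F, ∃ s' ∈ Rr,
      s = s'.comp ((g : F ≃ₐ[K] F) : F →+* F))
    (Wv : HeightOneSpectrum (𝓞 F) → AddSubgroup (SC L))
    (hWv : ∀ v c, c ∈ Wv v ↔ c ∈ HH F L ∧
      Wc (algebraMap F (v.adicCompletion F)) (algebraMap K F a) (algebraMap K F b) θ c)
    (Ws : (F →+* ℝ) → AddSubgroup (SC L))
    (hWs : ∀ s c, c ∈ Ws s ↔ c ∈ HH F L ∧ Wc s (algebraMap K F a) (algebraMap K F b) θ c)
    {Y : AddSubgroup (SC L)} (hYf : Finite Y)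
    (hY : ∀ c, c ∈ Y ↔ c ∈ HH F L ∧ (∀ v : HeightOneSpectrum (𝓞 F), v ∉ Tf →
      Wc (algebraMap F (v.adicCompletion F)) (algebraMap K F a) (algebraMap K F b) θ c) ∧
      ∀ s : F →+* ℝ, Wc s (algebraMap K F a) (algebraMap K F b) θ c)
    (M : Type) [AddCommGroup M] [DistribMulAction (F ≃ₐ[K] F) M] [Finite M] :
    hq (F ≃ₐ[K] F) M (H24TD.US L {w : HeightOneSpectrum (𝓞 L) | dn F w ∈ Sf} ⊓ HH F L) ⊥ ≤
      hq (F ≃ₐ[K] F) M Y ⊥ * (∏ v ∈ R, hq (Dec K v) M (HH F L) (Wv v)) *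
        ∏ s ∈ Rr, hq (⊥ : Subgroup (F ≃ₐ[K] F)) M (HH F L) (Ws s) := by
  have hodd := odd_gal S
  have hfinG : Finite (F ≃ₐ[K] F) := inferInstance
  have hDF := dneF S
  have hXs := So_stab S hact Sf hSf
  have hHs := HH_stabG S hact
  set X := H24TD.US L {w : HeightOneSpectrum (𝓞 L) | dn F w ∈ Sf} ⊓ HH F L with hX
  set V : HeightOneSpectrum (𝓞 F) ⊕ (F →+* ℝ) → AddSubgroup (SC L) :=
    Sum.elim (fun v => So_core (F ≃ₐ[K] F) (HH F L) (Wv v))
      (fun s => So_core (F ≃ₐ[K] F) (HH F L) (Ws s)) with hV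
  have hVs : ∀ i, Stab (F ≃ₐ[K] F) (V i) := by
    rintro (v | s)
    · exact So_core_stab hHs
    · exact So_core_stab hHs
  have hVH : ∀ i, V i ≤ HH F L := by
    rintro (v | s) c hc
    · exact hc.1
    · exact hc.1
  have hfv : ∀ v, (Wv v).relIndex (HH F L) ≠ 0 := fun v =>
    (loc_idx S.cub v (haF S v) (hbF S v) hDF (hWv v)).1
  have hfs : ∀ s, (Ws s).relIndex (HH F L) ≠ 0 := fun s => (real_idx S.cub hDF s (hWs s)).1
  have hVf : ∀ i, (V i).relIndex (HH F L) ≠ 0 := by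
    rintro (v | s)
    · exact So_core_idx hHs (hfv v)
    · exact So_core_idx hHs (hfs s)
  have h2 : ∀ A B : AddSubgroup (SC L), dbl A ≤ B := SC_dbl
  have hbot : Stab (F ≃ₐ[K] F) (⊥ : AddSubgroup (SC L)) := by
    intro g x hx
    rw [AddSubgroup.mem_bot] at hx ⊢
    rw [hx, smul_zero]
  set I := ⨅ i ∈ R.disjSum Rr, V i with hI
  have hIm : ∀ c, c ∈ I ↔ ∀ i ∈ R.disjSum Rr, c ∈ V i := by
    intro c
    rw [hI]
    simp only [AddSubgroup.mem_iInf]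
  have hIs : Stab (F ≃ₐ[K] F) (X ⊓ I) := by
    intro g c hc
    exact ⟨hXs g c hc.1, (hIm _).2 fun i hi => hVs i g c ((hIm c).1 hc.2 i hi)⟩
  have e1 := hq_mul (M := M) hodd hXs hIs hbot bot_le inf_le_left (h2 X ⊥)
  have e2 : hq (F ≃ₐ[K] F) M X (X ⊓ I) ≤ ∏ i ∈ R.disjSum Rr, hq (F ≃ₐ[K] F) M (HH F L) (V i) :=
    hq_chain hodd hXs hHs inf_le_right (R.disjSum Rr) V (fun i _ => hVs i) (fun i _ => hVH i)
      (fun i _ => h2 _ _) (fun i _ => hVf i) M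
  have e3 : ∀ v, hq (F ≃ₐ[K] F) M (HH F L) (V (Sum.inl v)) ≤
      hq (Dec K v) M (HH F L) (Wv v) := by
    intro v
    refine hq_ind_le (Dec K v) (AddMonoidHom.id (SC L)) (fun g x => rfl) hHs (hVH _)
      (W_stab S hact v (hWv v)) (fun x hx => ?_) (fun x hx => hx) (hfv v) M
    change x ∈ So_core (F ≃ₐ[K] F) (HH F L) (Wv v) ↔ _
    rw [So_core_mem]
    exact and_iff_right hx
  have e4 : ∀ s, hq (F ≃ₐ[K] F) M (HH F L) (V (Sum.inr s)) ≤
      hq (⊥ : Subgroup (F ≃ₐ[K] F)) M (HH F L) (Ws s) := by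
    intro s
    refine hq_ind_le (⊥ : Subgroup (F ≃ₐ[K] F)) (AddMonoidHom.id (SC L)) (fun g x => rfl) hHs
      (hVH _) (fun g x hx => ?_) (fun x hx => ?_) (fun x hx => hx) (hfs s) M
    · have hg : g = 1 := Subsingleton.elim _ _
      rw [hg, one_smul]
      exact hx
    · change x ∈ So_core (F ≃ₐ[K] F) (HH F L) (Ws s) ↔ _
      rw [So_core_mem]
      exact and_iff_right hx
  have e5 : X ⊓ I ≤ Y := by
    intro c hc
    have hcX : c ∈ X := hc.1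
    have hcH : c ∈ HH F L := hcX.2
    have hcI : ∀ i ∈ R.disjSum Rr, c ∈ V i := (hIm c).1 hc.2
    rw [hY]
    refine ⟨hcH, fun v hv => ?_, fun s => ?_⟩
    · by_cases hvS : v ∈ Sf
      · obtain ⟨g, v', hv', rfl⟩ := hR v (Finset.mem_sdiff.2 ⟨hvS, hv⟩)
        have h3 : c ∈ So_core (F ≃ₐ[K] F) (HH F L) (Wv v') :=
          hcI (Sum.inl v') (Finset.inl_mem_disjSum.2 hv')
        have h4 := h3.2 g⁻¹
        rw [hWv, hact] at h4
        have h5 := (Wc_smul S g v' _).2 h4.2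
        rw [← mul_smul, ← map_mul, mul_inv_cancel, map_one, one_smul] at h5
        exact h5
      · refine ((hWv v c).1 (good_W hos S.cub v (haF S v) (hbF S v) (hS2 v hvS) ?_ (hWv v) hcH
          fun w hw => ?_)).2
        · have h3 := hSD v hvS
          rwa [map_add, map_mul, map_mul, map_pow, map_pow, map_ofNat, map_ofNat] at h3
        · obtain ⟨u, hu, rfl⟩ := hcX.1
          have h3 : w.valuation L ((Additive.toMul u : Lˣ) : L) = 1 := by
            refine hu w fun h4 => hvS ?_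
            rw [← hw]
            exact h4
          rw [cls_eq, H38T1.eo_sc (Units.ne_zero _)]
          rw [ord, h3, log_one, neg_zero, Int.cast_zero]
    · obtain ⟨g, s', hs', rfl⟩ := hRr s
      have h3 : c ∈ So_core (F ≃ₐ[K] F) (HH F L) (Ws s') :=
        hcI (Sum.inr s') (Finset.inr_mem_disjSum.2 hs')
      have h4 := h3.2 g
      rw [hWs, hact] at h4
      have h5 := (Wr_smul S g⁻¹ s' (S.ρ g • c)).2 h4.2
      rw [← mul_smul, ← map_mul, inv_mul_cancel, map_one, one_smul, inv_inv] at h5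
      exact h5
  have e6 : hq (F ≃ₐ[K] F) M (X ⊓ I) ⊥ ≤ hq (F ≃ₐ[K] F) M Y ⊥ := by
    refine hq_mono e5 ?_ M
    rw [AddSubgroup.relIndex_bot_left]
    exact Nat.card_pos.ne'
  calc hq (F ≃ₐ[K] F) M X ⊥
      = hq (F ≃ₐ[K] F) M (X ⊓ I) ⊥ * hq (F ≃ₐ[K] F) M X (X ⊓ I) := e1
    _ ≤ hq (F ≃ₐ[K] F) M Y ⊥ * ∏ i ∈ R.disjSum Rr, hq (F ≃ₐ[K] F) M (HH F L) (V i) :=
        Nat.mul_le_mul e6 e2
    _ = hq (F ≃ₐ[K] F) M Y ⊥ * ((∏ v ∈ R, hq (F ≃ₐ[K] F) M (HH F L) (V (Sum.inl v))) *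
          ∏ s ∈ Rr, hq (F ≃ₐ[K] F) M (HH F L) (V (Sum.inr s))) := by
        rw [Finset.prod_disjSum]
    _ ≤ hq (F ≃ₐ[K] F) M Y ⊥ * ((∏ v ∈ R, hq (Dec K v) M (HH F L) (Wv v)) *
          ∏ s ∈ Rr, hq (⊥ : Subgroup (F ≃ₐ[K] F)) M (HH F L) (Ws s)) :=
        Nat.mul_le_mul le_rfl (Nat.mul_le_mul
          (Finset.prod_le_prod (fun _ _ => Nat.zero_le _) fun v _ => e3 v)
          (Finset.prod_le_prod (fun _ _ => Nat.zero_le _) fun s _ => e4 s))
    _ = _ := (mul_assoc _ _ _).symm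

end H76SD
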