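import Pool.Agent.H76.SD.Re
import Pool.Agent.H76.SD.Rf
import Pool.Agent.H76.SD.Rg
import Pool.Agent.H76.SD.Rh
import Pool.Agent.H76.SD.Ri
import Pool.Agent.H76.SD.Se
import Pool.Agent.H76.SD.Sj
import Pool.Agent.H76.SD.Sk
import Pool.Agent.H76.SD.Sl
import Pool.Agent.H76.SD.Sm
import Pool.Agent.H76.SD.Sn
import Pool.Agent.H76.SD.So
import Pool.Agent.H76.SD.Sv
import Pool.Agent.H30.OD.Card
import Pool.Agent.H24.TD.Vp

/-!
(project MP_78d38b_OD) The theorem (SD): the relaxed two-Selmer group over `F` is self-dual as a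
module over the Galois group if it has the smallest possible order.
-/

set_option autoImplicit false
set_option linter.unusedSectionVars false
open scoped Classical

open WithZero NumberField IsDedekindDomain H38RT H76PP H30ZO H73P2 H30OD H36CY H24TD H88OD Pool.Agent.H10
open H38T1 (SC sc scu rep eo la si OddP)

namespace H76SD

variable {K F L : Type} [Field K] [NumberField K] [Field F] [NumberField F] [Field L]
  [NumberField L] [Algebra K F] [Algebra F L] {a b : K} {θ : L}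

theorem gq_mul (g h : F ≃ₐ[K] F) : gq (g * h) = gq g * gq h := rfl

theorem gq_one_smul (v : HeightOneSpectrum (𝓞 F)) : gq (1 : F ≃ₐ[K] F) • v = v := by
  have h : gq (1 : F ≃ₐ[K] F) = 1 := rfl
  rw [h, one_smul]

theorem val_gq (g : F ≃ₐ[K] F) (v : HeightOneSpectrum (𝓞 F)) (x : K) :
    (gq g • v).valuation F (algebraMap K F x) = v.valuation F (algebraMap K F x) := by
  have h := H24TD.val_smul (gq g) v (algebraMap K F x)
  rwa [gq_apply, AlgEquiv.commutes] at h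

theorem bot_stab {G X : Type} [Group G] [AddCommGroup X] [DistribMulAction G X] :
    Stab G (⊥ : AddSubgroup X) := by
  intro g x hx
  rw [AddSubgroup.mem_bot] at hx ⊢
  rw [hx, smul_zero]

theorem X_stab (S : Ext K F L a b θ) [DistribMulAction (F ≃ₐ[K] F) (SC L)]
    (hact : ∀ (g : F ≃ₐ[K] F) (c : SC L), g • c = S.ρ g • c)
    (Sf : Finset (HeightOneSpectrum (𝓞 F))) (hSf : ∀ g : F ≃ₐ[K] F, ∀ v ∈ Sf, gq g • v ∈ Sf) :
    Stab (F ≃ₐ[K] F)
      (H24TD.US L {w : HeightOneSpectrum (𝓞 L) | dn F w ∈ Sf} ⊓ HH F L) := by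
  intro g c hc
  refine ⟨?_, HH_stabG S hact g c hc.2⟩
  obtain ⟨u, hu, rfl⟩ := hc.1
  refine ⟨S.ρ g • u, fun w hw => ?_, ?_⟩
  · have h1 : w = S.ρ g • ((S.ρ g)⁻¹ • w) := (smul_inv_smul _ _).symm
    rw [h1, smul_val, H24TD.val_smul]
    refine hu _ fun h2 => hw ?_
    change dn F w ∈ Sf
    rw [h1, dn_smul]
    exact hSf g _ h2
  · rw [hact]
    rfl

theorem sd_Y (hos : H73P2.OrdSub) (S : Ext K F L a b θ) [DistribMulAction (F ≃ₐ[K] F) (SC L)]
    (hact : ∀ (g : F ≃ₐ[K] F) (c : SC L), g • c = S.ρ g • c)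
    (Tf : Finset (HeightOneSpectrum (𝓞 F))) (hTst : ∀ g : F ≃ₐ[K] F, ∀ v ∈ Tf, gq g • v ∈ Tf)
    (hT : ∀ v ∈ Tf, nb F L v = 2 ∧ v.valuation F 2 = 1) {Y : AddSubgroup (SC L)}
    (hY : ∀ c, c ∈ Y ↔ c ∈ HH F L ∧ (∀ v : HeightOneSpectrum (𝓞 F), v ∉ Tf →
      Wc (algebraMap F (v.adicCompletion F)) (algebraMap K F a) (algebraMap K F b) θ c) ∧
      ∀ s : F →+* ℝ, Wc s (algebraMap K F a) (algebraMap K F b) θ c)
    (hc : Nat.card Y ≤ 2 ^ Tf.card) : Sd (F ≃ₐ[K] F) Y ⊥ := by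
  have hoddG := odd_gal S
  have hfG : Finite (F ≃ₐ[K] F) := inferInstance
  have hDF := dneF S
  have hDK := S.dne
  have h20 : (2 : F) ≠ 0 := two_ne_zero
  have hDF' : algebraMap K F (4 * a ^ 3 + 27 * b ^ 2) ≠ 0 := by
    rw [Ne, map_eq_zero]
    exact hDK
  -- the bad places
  obtain ⟨Sf, hSf⟩ : ∃ Sf : Finset (HeightOneSpectrum (𝓞 F)), ∀ v, v ∈ Sf ↔ v ∈ Tf ∨
      v.valuation F 2 ≠ 1 ∨ v.valuation F (algebraMap K F (4 * a ^ 3 + 27 * b ^ 2)) ≠ 1 := by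
    refine ⟨Tf ∪ ((fin_bad h20).toFinset ∪ (fin_bad hDF').toFinset), fun v => ?_⟩
    rw [Finset.mem_union, Finset.mem_union, Set.Finite.mem_toFinset, Set.Finite.mem_toFinset]
    rfl
  have hTS : Tf ⊆ Sf := fun v hv => (hSf v).2 (Or.inl hv)
  have hv2 : ∀ (g : F ≃ₐ[K] F) (v : HeightOneSpectrum (𝓞 F)),
      (gq g • v).valuation F 2 = v.valuation F 2 := by
    intro g v
    have h := val_gq g v (2 : K)
    rwa [map_ofNat] at h
  have hSst : ∀ g : F ≃ₐ[K] F, ∀ v ∈ Sf, gq g • v ∈ Sf := by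
    intro g v hv
    rw [hSf] at hv ⊢
    rw [hv2, val_gq]
    rcases hv with h | h
    · exact Or.inl (hTst g v h)
    · exact Or.inr h
  have hS2 : ∀ v : HeightOneSpectrum (𝓞 F), v ∉ Sf → v.valuation F 2 = 1 := by
    intro v hv
    by_contra h
    exact hv ((hSf v).2 (Or.inr (Or.inl h)))
  have hSD : ∀ v : HeightOneSpectrum (𝓞 F), v ∉ Sf →
      v.valuation F (algebraMap K F (4 * a ^ 3 + 27 * b ^ 2)) = 1 := by
    intro v hv
    by_contra h
    exact hv ((hSf v).2 (Or.inr (Or.inr h)))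
  have hS22 : ∀ v : HeightOneSpectrum (𝓞 F), v.valuation F 2 < 1 → v ∈ Sf := fun v hv =>
    (hSf v).2 (Or.inr (Or.inl hv.ne))
  have hSTst : ∀ g : F ≃ₐ[K] F, ∀ v ∈ Sf \ Tf, gq g • v ∈ Sf \ Tf := by
    intro g v hv
    rw [Finset.mem_sdiff] at hv ⊢
    refine ⟨hSst g v hv.1, fun h => hv.2 ?_⟩
    have h2 := hTst g⁻¹ _ h
    have h3 : gq g⁻¹ = (gq g)⁻¹ := rfl
    rwa [h3, inv_smul_smul] at h2
  -- representatives
  obtain ⟨R, hRS, hRr, hRp⟩ := exists_reps (G := F ≃ₐ[K] F)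
    (fun g (v : HeightOneSpectrum (𝓞 F)) => gq g • v) (fun v => gq_one_smul v)
    (fun g h v => by
      rw [gq_mul, mul_smul]) (Dec K) (fun g v => dec_iff g v) (Sf \ Tf) hSTst
  have _ : Finite (F →+* ℝ) := Gb_fin F
  have _ : Fintype (F →+* ℝ) := Fintype.ofFinite _
  obtain ⟨Rr, -, hRrr, hRrp⟩ := exists_reps (G := F ≃ₐ[K] F)
    (fun g (s : F →+* ℝ) => s.comp ((g⁻¹ : F ≃ₐ[K] F) : F →+* F)) (fun s => by
      refine RingHom.ext fun x => ?_
      rfl)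
    (fun g h s => by
      refine RingHom.ext fun x => ?_
      change s ((g * h)⁻¹ x) = s (h⁻¹ (g⁻¹ x))
      rw [mul_inv_rev]
      rfl) (fun _ => (⊥ : Subgroup (F ≃ₐ[K] F))) (fun g s => by
      constructor
      · intro h
        rw [Subgroup.mem_bot] at h
        rw [h]
        exact RingHom.ext fun x => rfl
      · intro h
        rw [Subgroup.mem_bot]
        have h2 := free_real g⁻¹ s h
        exact inv_eq_one.1 h2) Finset.univ (fun g s _ => Finset.mem_univ _)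
  -- the local conditions
  have hWv : ∀ v : HeightOneSpectrum (𝓞 F), ∃ W : AddSubgroup (SC L), ∀ c, c ∈ W ↔
      c ∈ HH F L ∧
        Wc (algebraMap F (v.adicCompletion F)) (algebraMap K F a) (algebraMap K F b) θ c := by
    intro v
    have _ := H36CY.char_zero v
    refine exists_WW S.cub _ ?_ (H24PD.inf_fin v _ _)
    intro e
    apply hDF
    apply (algebraMap F (v.adicCompletion F)).injective
    rw [map_zero, map_add, map_mul, map_mul, map_pow, map_pow, map_ofNat, map_ofNat]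
    exact e
  choose Wv hWv using hWv
  have hWs : ∀ s : F →+* ℝ, ∃ W : AddSubgroup (SC L), ∀ c, c ∈ W ↔
      c ∈ HH F L ∧ Wc s (algebraMap K F a) (algebraMap K F b) θ c := by
    intro s
    refine exists_WW S.cub s ?_ (H24PD.inf_real _ _)
    intro e
    apply hDF
    apply s.injective
    rw [map_zero, map_add, map_mul, map_mul, map_pow, map_pow, map_ofNat, map_ofNat]
    exact e
  choose Ws hWs using hWs
  have hYf : Finite Y := (H30OD.card_Y hos S.cub (haF S) (hbF S) hDF Tf hT hY).1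
  have hH := HH_stabG S hact
  -- the two functions
  obtain ⟨X, hX⟩ : ∃ X : AddSubgroup (SC L),
      X = H24TD.US L {w : HeightOneSpectrum (𝓞 L) | dn F w ∈ Sf} ⊓ HH F L := ⟨_, rfl⟩
  have hXsd : Sd (F ≃ₐ[K] F) X ⊥ := by
    rw [hX]
    exact sd_X S hact Sf hSst
  have hXc := card_X S.cub Sf
  rw [← hX] at hXc
  have hX0 : Nat.card X ≠ 0 := by
    intro h
    rw [h, zero_mul] at hXc
    exact absurd hXc.symm (pow_ne_zero _ two_ne_zero)
  have hXfin : Finite X := Nat.finite_of_card_ne_zero hX0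
  have hXst : Stab (F ≃ₐ[K] F) X := by
    rw [hX]
    exact X_stab S hact Sf hSst
  have hYst : Stab (F ≃ₐ[K] F) Y := by
    intro g c hc
    rw [hY] at hc ⊢
    rw [hact]
    refine ⟨HH_smul S g hc.1, fun v hv => ?_, fun s => ?_⟩
    · have h1 : v = gq g • ((gq g)⁻¹ • v) := (smul_inv_smul _ _).symm
      have h2 : (gq g)⁻¹ • v ∉ Tf := by
        intro h
        apply hv
        rw [h1]
        exact hTst g _ h
      have h3 := (Wc_smul S g _ c).2 (hc.2.1 _ h2)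
      rwa [← h1] at h3
    · have h3 := (Wr_smul S g (s.comp ((g : F ≃ₐ[K] F) : F →+* F)) c).2 (hc.2.2 _)
      have h4 : (s.comp ((g : F ≃ₐ[K] F) : F →+* F)).comp ((g⁻¹ : F ≃ₐ[K] F) : F →+* F) = s := by
        refine RingHom.ext fun x => ?_
        change s (g (g⁻¹ x)) = s x
        rw [← AlgEquiv.mul_apply, mul_inv_cancel, AlgEquiv.one_apply]
      rwa [h4] at h3
  have hXr : (⊥ : AddSubgroup (SC L)).relIndex X ≠ 0 := by
    rw [AddSubgroup.relIndex_bot_left]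
    exact hX0
  have hYr : (⊥ : AddSubgroup (SC L)).relIndex Y ≠ 0 := by
    rw [AddSubgroup.relIndex_bot_left]
    exact Nat.card_pos.ne'
  have hOF0 : (dbl (OF F)).relIndex (OF F) ≠ 0 := by
    rw [OF_card]
    exact pow_ne_zero _ two_ne_zero
  have hT2f := fun v : HeightOneSpectrum (𝓞 F) => (T2_fin v a b hDK).1
  have hT2r : ∀ v : HeightOneSpectrum (𝓞 F), (⊥ : AddSubgroup (PtK v a b)).relIndex
      (T2 v (algebraMap K F a) (algebraMap K F b) : AddSubgroup (PtK v a b)) ≠ 0 := by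
    intro v
    have := hT2f v
    rw [AddSubgroup.relIndex_bot_left]
    exact Nat.card_pos.ne'
  have hT2s : ∀ v : HeightOneSpectrum (𝓞 F), Stab (Dec K v)
      (T2 v (algebraMap K F a) (algebraMap K F b) : AddSubgroup (PtK v a b)) := by
    intro v g P hP
    have hP2 : (2 : ℤ) • P = 0 := hP
    change (2 : ℤ) • (g • P) = 0
    have h1 : (2 : ℤ) • (g • P) = g • ((2 : ℤ) • P) :=
      (map_zsmul (DistribSMul.toAddMonoidHom (PtK v a b) g) 2 P).symm
    rw [h1, hP2, smul_zero]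
  have hT2d : ∀ v : HeightOneSpectrum (𝓞 F),
      dbl (T2 v (algebraMap K F a) (algebraMap K F b) : AddSubgroup (PtK v a b)) ≤ ⊥ := by
    rintro v _ ⟨P, hP, rfl⟩
    exact hP
  have hSr : ∀ v : HeightOneSpectrum (𝓞 F), (Sqv F L v ⊓ HH F L).relIndex (HH F L) ≠ 0 :=
    fun v => (idx_HH S.cub v (haF S v) (hbF S v)).1
  have hWsr : ∀ s : F →+* ℝ, (Ws s).relIndex (HH F L) ≠ 0 := fun s =>
    (real_idx S.cub hDF s (hWs s)).1
  have hbotD : ∀ A : AddSubgroup (SC L), Stab (⊥ : Subgroup (F ≃ₐ[K] F)) A := by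
    intro A g c hc
    have h1 : g = 1 := Subsingleton.elim _ _
    rw [h1, one_smul]
    exact hc
  let F₁ : ∀ (M : Type) [AddCommGroup M] [DistribMulAction (F ≃ₐ[K] F) M], ℕ := fun M _ _ =>
    hq (F ≃ₐ[K] F) M X ⊥ * hq (F ≃ₐ[K] F) M (OF F) (dbl (OF F)) *
      ∏ v ∈ R, hq (Dec K v) M (T2 v (algebraMap K F a) (algebraMap K F b) :
        AddSubgroup (PtK v a b)) ⊥
  let F₂ : ∀ (M : Type) [AddCommGroup M] [DistribMulAction (F ≃ₐ[K] F) M], ℕ := fun M _ _ =>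
    hq (F ≃ₐ[K] F) M Y ⊥ * (∏ v ∈ R, hq (Dec K v) M (HH F L) (Sqv F L v ⊓ HH F L)) *
      ∏ s ∈ Rr, hq (⊥ : Subgroup (F ≃ₐ[K] F)) M (HH F L) (Ws s)
  have m1 : Mult (F ≃ₐ[K] F) F₁ :=
    ((mult_hqG hXst bot_stab hXr).mul (mult_hqG OF_stab.1 OF_stab.2 hOF0)).mul
      (Mult.finprod R fun v _ => mult_hq (Dec K v) (hT2s v) bot_stab (hT2r v))
  have m2 : Mult (F ≃ₐ[K] F) F₂ :=
    ((mult_hqG hYst bot_stab hYr).mul
      (Mult.finprod R fun v _ => mult_hq (Dec K v) (HH_stab S hact _) (Sqv_stab S hact v)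
        (hSr v))).mul
      (Mult.finprod Rr fun s _ => mult_hq (⊥ : Subgroup (F ≃ₐ[K] F)) (hbotD _) (hbotD _)
        (hWsr s))
  -- the inequality
  have hle : ∀ (M : Type) [AddCommGroup M] [DistribMulAction (F ≃ₐ[K] F) M] [Finite M],
      (∀ m : M, m + m = 0) → F₁ M ≤ F₂ M := by
    intro M _ _ _ _
    have i1 := chain_Y hos S hact Sf Tf R hTS hSst hS2 hSD hRr Rr (fun s => by
      obtain ⟨g, s', hs', e⟩ := hRrr s (Finset.mem_univ s)
      exact ⟨g⁻¹, s', hs', e⟩) Wv hWv Ws hWs hYf hY M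
    rw [← hX] at i1
    have i2 := hq_OF hoddG hOF0 R (fun v hv => by
      refine hRr v (Finset.mem_sdiff.2 ⟨hS22 v hv, fun h => ?_⟩)
      rw [(hT v h).2] at hv
      exact lt_irrefl _ hv) M
    have i3 : ∏ v ∈ R, (hq (Dec K v) M (T2 v (algebraMap K F a) (algebraMap K F b) :
        AddSubgroup (PtK v a b)) ⊥ * hq (Dec K v) M (OO v) (dbl (OO v)) *
        hq (Dec K v) M (HH F L) (Wv v)) ≤
        ∏ v ∈ R, hq (Dec K v) M (HH F L) (Sqv F L v ⊓ HH F L) :=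
      Finset.prod_le_prod' fun v _ => loc_main S hact v (hWv v) M
    rw [Finset.prod_mul_distrib, Finset.prod_mul_distrib] at i3
    change _ * _ * _ ≤ _ * _ * _
    calc hq (F ≃ₐ[K] F) M X ⊥ * hq (F ≃ₐ[K] F) M (OF F) (dbl (OF F)) *
          ∏ v ∈ R, hq (Dec K v) M (T2 v (algebraMap K F a) (algebraMap K F b) :
            AddSubgroup (PtK v a b)) ⊥
        ≤ (hq (F ≃ₐ[K] F) M Y ⊥ * (∏ v ∈ R, hq (Dec K v) M (HH F L) (Wv v)) *
            ∏ s ∈ Rr, hq (⊥ : Subgroup (F ≃ₐ[K] F)) M (HH F L) (Ws s)) *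
          (∏ v ∈ R, hq (Dec K v) M (OO v) (dbl (OO v))) *
          ∏ v ∈ R, hq (Dec K v) M (T2 v (algebraMap K F a) (algebraMap K F b) :
            AddSubgroup (PtK v a b)) ⊥ := Nat.mul_le_mul_right _ (Nat.mul_le_mul i1 i2)
      _ = hq (F ≃ₐ[K] F) M Y ⊥ * ((∏ v ∈ R, hq (Dec K v) M (T2 v (algebraMap K F a)
            (algebraMap K F b) : AddSubgroup (PtK v a b)) ⊥) *
            (∏ v ∈ R, hq (Dec K v) M (OO v) (dbl (OO v))) *
            ∏ v ∈ R, hq (Dec K v) M (HH F L) (Wv v)) *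
          ∏ s ∈ Rr, hq (⊥ : Subgroup (F ≃ₐ[K] F)) M (HH F L) (Ws s) := by ring
      _ ≤ _ := Nat.mul_le_mul_right _ (Nat.mul_le_mul_left _ i3)
  -- the regular module
  have hR : F₂ (Fn (F ≃ₐ[K] F) (ZMod 2)) ≤ F₁ (Fn (F ≃ₐ[K] F) (ZMod 2)) := by
    have r1 : hq (F ≃ₐ[K] F) (Fn (F ≃ₐ[K] F) (ZMod 2)) X ⊥ = Nat.card X := by
      rw [hq_RG hXst bot_stab (SC_dbl _ _) hXr, AddSubgroup.relIndex_bot_left]
    have r2 : hq (F ≃ₐ[K] F) (Fn (F ≃ₐ[K] F) (ZMod 2)) Y ⊥ = Nat.card Y := by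
      rw [hq_RG hYst bot_stab (SC_dbl _ _) hYr, AddSubgroup.relIndex_bot_left]
    have r3 : hq (F ≃ₐ[K] F) (Fn (F ≃ₐ[K] F) (ZMod 2)) (OF F) (dbl (OF F)) =
        2 ^ Module.finrank ℚ F := by
      rw [hq_RG OF_stab.1 OF_stab.2 le_rfl hOF0, OF_card]
    have r4 : ∏ v ∈ R, hq (Dec K v) (Fn (F ≃ₐ[K] F) (ZMod 2)) (HH F L) (Sqv F L v ⊓ HH F L) =
        ∏ v ∈ Sf \ Tf, (Sqv F L v ⊓ HH F L).relIndex (HH F L) := by
      rw [hRp (fun v => (Sqv F L v ⊓ HH F L).relIndex (HH F L)) (fun g v => inv_Sqv S g v)]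
      refine Finset.prod_congr rfl fun v _ => ?_
      rw [hq_R (Dec K v) (HH_stab S hact _) (Sqv_stab S hact v) (SC_dbl _ _) (hSr v)]
    have r5 : ∏ s ∈ Rr, hq (⊥ : Subgroup (F ≃ₐ[K] F)) (Fn (F ≃ₐ[K] F) (ZMod 2)) (HH F L) (Ws s) =
        ∏ s : F →+* ℝ, (Ws s).relIndex (HH F L) := by
      rw [hRrp (fun s => (Ws s).relIndex (HH F L)) (fun g s => inv_real S Ws hWs g⁻¹ s)]
      refine Finset.prod_congr rfl fun s _ => ?_
      rw [hq_R (⊥ : Subgroup (F ≃ₐ[K] F)) (hbotD _) (hbotD _) (SC_dbl _ _) (hWsr s)]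
    have r6 : ∏ v ∈ Sf \ Tf, 2 ^ (nb F L v - 1) ≤
        ∏ v ∈ R, hq (Dec K v) (Fn (F ≃ₐ[K] F) (ZMod 2)) (T2 v (algebraMap K F a)
          (algebraMap K F b) : AddSubgroup (PtK v a b)) ⊥ := by
      rw [hRp (fun v => 2 ^ (nb F L v - 1)) (fun g v => by rw [inv_nb S])]
      refine Finset.prod_le_prod' fun v _ => ?_
      rw [hq_R (Dec K v) (hT2s v) bot_stab (hT2d v) (hT2r v), AddSubgroup.relIndex_bot_left]
      refine Nat.pow_le_pow_left ?_ _
      have h1 := (nb_T2 S.cub v (haF S v) (hbF S v) hDF).2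
      have h2 := nb_pos (L := L) v
      have h3 : 2 ^ nb F L v = 2 * 2 ^ (nb F L v - 1) := by
        rw [← pow_succ']
        congr 1
        omega
      rw [h3] at h1
      exact Nat.le_of_mul_le_mul_left h1 (by norm_num)
    change _ * _ * _ ≤ _ * _ * _
    rw [r1, r2, r3, r4, r5]
    have h1 := count S Sf Tf hTS (fun v hv => (hT v hv).1) (fun v hv => (hT v hv).2) hS22 hc
      Finset.univ (fun s => Finset.mem_univ s) Ws hWs
    rw [← hX] at h1
    exact h1.trans (Nat.mul_le_mul_left _ r6)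
  have heq := fun (M : Type) [AddCommGroup M] [DistribMulAction (F ≃ₐ[K] F) M] [Finite M]
    (hM : ∀ m : M, m + m = 0) => mult_eq hoddG m1 m2 hle hR M hM
  intro M _ _ _ hM
  have hM' : ∀ φ : H26OD.Du M, φ + φ = 0 := by
    intro φ
    refine DFunLike.ext _ _ fun x => ?_
    change φ x + φ x = 0
    generalize φ x = t
    revert t
    decide
  have e1 := heq M hM
  have e2 := heq (H26OD.Du M) hM'
  have e3 : F₁ M = F₁ (H26OD.Du M) := by
    change _ * _ * _ = _ * _ * _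
    rw [hXsd M hM, sd_OF hoddG M hM]
    congr 1
    refine Finset.prod_congr rfl fun v _ => ?_
    exact sd_T2 v a b (odd_dec S v) inferInstance hDK M hM
  have e4 : F₂ M = F₂ (H26OD.Du M) := by rw [← e1, ← e2, e3]
  have e5 : ∏ v ∈ R, hq (Dec K v) M (HH F L) (Sqv F L v ⊓ HH F L) =
      ∏ v ∈ R, hq (Dec K v) (H26OD.Du M) (HH F L) (Sqv F L v ⊓ HH F L) :=
    Finset.prod_congr rfl fun v _ => sd_HH S v hact M hM
  have e6 : ∏ s ∈ Rr, hq (⊥ : Subgroup (F ≃ₐ[K] F)) M (HH F L) (Ws s) =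
      ∏ s ∈ Rr, hq (⊥ : Subgroup (F ≃ₐ[K] F)) (H26OD.Du M) (HH F L) (Ws s) :=
    Finset.prod_congr rfl fun s _ => sd_triv M hM
  have p1 : 0 < ∏ v ∈ R, hq (Dec K v) (H26OD.Du M) (HH F L) (Sqv F L v ⊓ HH F L) :=
    (Mult.finprod R fun v _ => mult_hq (Dec K v) (HH_stab S hact _) (Sqv_stab S hact v)
        (hSr v)).pos (H26OD.Du M)
  have p2 : 0 < ∏ s ∈ Rr, hq (⊥ : Subgroup (F ≃ₐ[K] F)) (H26OD.Du M) (HH F L) (Ws s) :=
    (Mult.finprod Rr fun s _ => mult_hq (⊥ : Subgroup (F ≃ₐ[K] F)) (hbotD _) (hbotD _)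
        (hWsr s)).pos (H26OD.Du M)
  change _ * _ * _ = _ * _ * _ at e4
  rw [e5, e6] at e4
  exact Nat.eq_of_mul_eq_mul_right p1 (Nat.eq_of_mul_eq_mul_right p2 e4)

end H76SD
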